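import Mathlib

/-! Covering a homogeneous finite set by few translates of a dense subset. -/

namespace Pool.Agent.P.MP_b3bbc0_lc

open Finset

variable {G Ω : Type} [Group G] [Fintype G] [MulAction G Ω] [DecidableEq Ω]

lemma card_fiber_eq (e h h' : Ω) (k : G) (hk : k • h = h') :
    (univ.filter fun g : G => g • e = h).card = (univ.filter fun g : G => g • e = h').card := by
  refine card_bij (fun g _ => k * g) ?_ ?_ ?_
  · intro g hg
    simp only [mem_filter, mem_univ, true_and] at hg ⊢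
    rw [mul_smul, hg, hk]
  · intro g _ g' _ h
    exact mul_left_cancel h
  · intro g hg
    simp only [mem_filter, mem_univ, true_and] at hg
    refine ⟨k⁻¹ * g, ?_, by simp⟩
    simp only [mem_filter, mem_univ, true_and]
    rw [mul_smul, hg, ← hk, inv_smul_smul]

lemma card_hit {Ed H : Finset Ω} (hinv : ∀ (g : G), ∀ e ∈ Ed, g • e ∈ Ed)
    (htr : ∀ e ∈ Ed, ∀ e' ∈ Ed, ∃ g : G, g • e = e') (hH : H ⊆ Ed) {e : Ω} (he : e ∈ Ed) :
    (univ.filter fun g : G => g • e ∈ H).card * Ed.card = H.card * Fintype.card G := by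
  set t := (univ.filter fun g : G => g • e = e).card with ht
  have h1 : ∀ h ∈ Ed, (univ.filter fun g : G => g • e = h).card = t := by
    intro h hh
    obtain ⟨k, hk⟩ := htr h hh e he
    exact card_fiber_eq e h e k hk
  have h2 : Fintype.card G = Ed.card * t := by
    rw [← card_univ, card_eq_sum_card_fiberwise (f := fun g : G => g • e) (t := Ed)
      (fun g _ => hinv g e he), sum_congr rfl h1]
    simp
  have h3 : (univ.filter fun g : G => g • e ∈ H).card = H.card * t := by
    rw [card_eq_sum_card_fiberwise (f := fun g : G => g • e) (t := H)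
      (fun g hg => by simpa using hg)]
    rw [← smul_eq_mul, ← sum_const]
    refine sum_congr rfl fun h hh => ?_
    rw [← h1 h (hH hh), filter_filter]
    congr 1
    ext g
    simp only [mem_filter, mem_univ, true_and]
    exact ⟨fun h => h.2, fun h' => ⟨h' ▸ hh, h'⟩⟩
  rw [h2, h3]; ring

lemma exists_good_translate {Ed H U : Finset Ω} (hinv : ∀ (g : G), ∀ e ∈ Ed, g • e ∈ Ed)
    (htr : ∀ e ∈ Ed, ∀ e' ∈ Ed, ∃ g : G, g • e = e') (hH : H ⊆ Ed) (hU : U ⊆ Ed) {R : ℕ}
    (hR : Ed.card ≤ R * H.card) (hne : Ed.Nonempty) :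
    ∃ g : G, U.card ≤ R * (U.filter fun e => g • e ∈ H).card := by
  have hsum : ∑ g : G, (U.filter fun e => g • e ∈ H).card =
      ∑ e ∈ U, (univ.filter fun g : G => g • e ∈ H).card := by
    simp only [card_filter]
    exact sum_comm
  have h1 : (∑ g : G, (U.filter fun e => g • e ∈ H).card) * Ed.card =
      U.card * (H.card * Fintype.card G) := by
    rw [hsum, sum_mul, sum_congr rfl fun e he => card_hit hinv htr hH (hU he)]
    simp
  apply Exists.imp (fun g h => h.2) (exists_le_of_sum_le (s := univ) univ_nonempty ?_)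
  rw [← mul_sum, sum_const, smul_eq_mul, card_univ]
  apply Nat.le_of_mul_le_mul_right _ hne.card_pos
  rw [mul_assoc R, h1]
  calc Fintype.card G * U.card * Ed.card ≤ Fintype.card G * U.card * (R * H.card) :=
        Nat.mul_le_mul_left _ hR
    _ = R * (U.card * (H.card * Fintype.card G)) := by ring

lemma exists_cover {Ed H : Finset Ω} (hinv : ∀ (g : G), ∀ e ∈ Ed, g • e ∈ Ed)
    (htr : ∀ e ∈ Ed, ∀ e' ∈ Ed, ∃ g : G, g • e = e') (hH : H ⊆ Ed) {R N : ℕ}
    (hR : Ed.card ≤ R * H.card) (hne : Ed.Nonempty) (hN : Ed.card ≤ 2 ^ N) :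
    ∃ gs : List G, gs.length ≤ R * (N + 1) ∧ ∀ e ∈ Ed, ∃ g ∈ gs, g • e ∈ H := by
  classical
  have hR0 : 0 < R := by
    have := hne.card_pos
    rcases Nat.eq_zero_or_pos R with rfl | h
    · omega
    · exact h
  have hRr : (1 : ℝ) ≤ R := by exact_mod_cast hR0
  have hρ : (0 : ℝ) ≤ 1 - 1 / R := by
    rw [sub_nonneg, div_le_one (by linarith)]; exact hRr
  have key : ∀ j : ℕ, ∃ gs : List G, gs.length = j ∧
      ((Ed.filter fun e => ∀ g ∈ gs, g • e ∉ H).card : ℝ) ≤ (1 - 1 / R) ^ j * Ed.card := by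
    intro j
    induction j with
    | zero => exact ⟨[], rfl, by simp⟩
    | succ j ih =>
      obtain ⟨gs, h1, h2⟩ := ih
      set U := Ed.filter fun e => ∀ g ∈ gs, g • e ∉ H with hUdef
      obtain ⟨g, hg⟩ := exists_good_translate hinv htr hH (U := U) (filter_subset _ _) hR hne
      refine ⟨g :: gs, by simp [h1], ?_⟩
      have e1 : (Ed.filter fun e => ∀ g' ∈ g :: gs, g' • e ∉ H) =
          U.filter fun e => ¬ (g • e ∈ H) := by
        ext e
        simp only [hUdef, mem_filter, List.forall_mem_cons]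
        tauto
      have e2 := card_filter_add_card_filter_not (s := U) (fun e => g • e ∈ H)
      have e3 : ((U.filter fun e => ¬ (g • e ∈ H)).card : ℝ) =
          U.card - (U.filter fun e => g • e ∈ H).card := by
        rw [← e2]; push_cast; ring
      have e4 : (U.card : ℝ) ≤ R * (U.filter fun e => g • e ∈ H).card := by exact_mod_cast hg
      have e5 : (U.card : ℝ) / R ≤ (U.filter fun e => g • e ∈ H).card := by
        rw [div_le_iff₀ (by linarith)]; linarith
      rw [e1, e3, pow_succ]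
      calc (U.card : ℝ) - (U.filter fun e => g • e ∈ H).card ≤ U.card * (1 - 1 / R) := by
            rw [mul_sub, mul_one, mul_one_div]; linarith
        _ ≤ (1 - 1 / R) ^ j * Ed.card * (1 - 1 / R) := mul_le_mul_of_nonneg_right h2 hρ
        _ = _ := by ring
  obtain ⟨gs, h1, h2⟩ := key (R * (N + 1))
  refine ⟨gs, h1.le, ?_⟩
  have h3 : (1 - 1 / (R : ℝ)) ^ R ≤ 1 / 2 := by
    have a1 : (1 - 1 / (R : ℝ)) ^ R ≤ Real.exp (-(1 / R)) ^ R :=
      pow_le_pow_left₀ hρ (by linarith [Real.add_one_le_exp (-(1 / (R : ℝ)))]) R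
    rw [← Real.exp_nat_mul, mul_neg, mul_one_div, div_self (by linarith)] at a1
    refine a1.trans ?_
    rw [Real.exp_neg, one_div]
    exact inv_anti₀ (by norm_num) (by linarith [Real.add_one_le_exp (1 : ℝ)])
  have h4 : (1 - 1 / (R : ℝ)) ^ (R * (N + 1)) * Ed.card < 1 := by
    rw [pow_mul]
    have a1 : ((1 - 1 / (R : ℝ)) ^ R) ^ (N + 1) ≤ (1 / 2) ^ (N + 1) :=
      pow_le_pow_left₀ (pow_nonneg hρ _) h3 _
    have a2 : (Ed.card : ℝ) ≤ 2 ^ N := by exact_mod_cast hN
    calc _ ≤ (1 / 2 : ℝ) ^ (N + 1) * 2 ^ N := mul_le_mul a1 a2 (by positivity) (by positivity)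
      _ = 1 / 2 := by rw [pow_succ, one_div_pow]; field_simp
      _ < 1 := by norm_num
  have h5 : (Ed.filter fun e => ∀ g ∈ gs, g • e ∉ H).card = 0 := by
    have : ((Ed.filter fun e => ∀ g ∈ gs, g • e ∉ H).card : ℝ) < 1 := h2.trans_lt h4
    exact_mod_cast Nat.lt_one_iff.1 (by exact_mod_cast this)
  rw [card_eq_zero, filter_eq_empty_iff] at h5
  intro e he
  have := h5 he
  push Not at this
  exact this

end Pool.Agent.P.MP_b3bbc0_lc
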