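import Pool.Agent.P.MP_b3bbc0_lc.KL
import Pool.Agent.P.MP_b3bbc0_lc.Cover

/-! Extended profiles of random edges of an edge-transitive graph of low complexity. -/

namespace Pool.Agent.P.MP_b3bbc0_lc

open Encodable

variable {X Y Q : Type} [Primcodable X] [Primcodable Y] [Primcodable Q]

/-- The seven non-empty sub-tuples of a triple. -/
def pr (i : Fin 7) (τ : X × Y × Q) : ℕ :=
  ![encode τ.1, encode τ.2.1, encode τ.2.2, encode (τ.1, τ.2.1), encode (τ.1, τ.2.2),
    encode (τ.2.1, τ.2.2), encode τ] i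

lemma primrec_pr : Primrec₂ (pr (X := X) (Y := Y) (Q := Q)) := by
  rw [Primrec.fin_curry₁]
  intro i
  have h1 : Primrec fun τ : X × Y × Q => τ.2.1 := Primrec.fst.comp Primrec.snd
  have h2 : Primrec fun τ : X × Y × Q => τ.2.2 := Primrec.snd.comp Primrec.snd
  fin_cases i
  · exact Primrec.encode.comp Primrec.fst
  · exact Primrec.encode.comp h1
  · exact Primrec.encode.comp h2
  · exact Primrec.encode.comp (Primrec.fst.pair h1)
  · exact Primrec.encode.comp (Primrec.fst.pair h2)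
  · exact Primrec.encode.comp (h1.pair h2)
  · exact Primrec.encode

/-- All complexities and conditional complexities of `τ` are bounded by `a` and `b`. -/
def InS (a b : Fin 7 → ℕ) (τ : X × Y × Q) : Prop :=
  ∀ i ∈ List.finRange 7, K (pr i τ) () ≤ a i ∧ K τ (pr i τ) ≤ b i

lemma sig_InS {Z : Type} [Primcodable Z] {a b : Z → Fin 7 → ℕ} {τ : Z → X × Y × Q}
    (ha : Primrec a) (hb : Primrec b) (hτ : Primrec τ) : Sig fun z => InS (a z) (b z) (τ z) := by
  have h1 : Primrec fun y : Z × Fin 7 => pr y.2 (τ y.1) :=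
    primrec_pr.comp Primrec.snd (hτ.comp Primrec.fst)
  exact Sig.forall_mem
    (P := fun y : Z × Fin 7 => K (pr y.2 (τ y.1)) () ≤ a y.1 y.2 ∧
      K (τ y.1) (pr y.2 (τ y.1)) ≤ b y.1 y.2)
    ((Sig.K_le' h1 (Primrec.const ()) (Primrec.fin_app.comp (ha.comp Primrec.fst) Primrec.snd)).and
      (Sig.K_le' (hτ.comp Primrec.fst) h1
        (Primrec.fin_app.comp (hb.comp Primrec.fst) Primrec.snd))) (Primrec.const _)

lemma K_le_logS : ∃ c, ∀ (E : List (X × Y)) (a b : Fin 7 → ℕ) (τ : X × Y × Q)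
    (S : Finset (X × Y × Q)) (k : ℕ), (τ.1, τ.2.1) ∈ E → InS a b τ →
    (∀ τ' : X × Y × Q, (τ'.1, τ'.2.1) ∈ E → InS a b τ' → τ' ∈ S) → S.card ≤ 2 ^ k →
    K τ () ≤ k + 2 * K (E, a, b) () + c := by
  have S1 : Sig fun x : ((List (X × Y) × (Fin 7 → ℕ) × (Fin 7 → ℕ)) × Unit) × (X × Y × Q) =>
      (x.2.1, x.2.2.1) ∈ x.1.1.1 ∧ InS x.1.1.2.1 x.1.1.2.2 x.2 :=
    (Sig.of_primrec (primrecRel_mem.comp
      ((Primrec.fst.comp Primrec.snd).pair (Primrec.fst.comp (Primrec.snd.comp Primrec.snd)))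
      (Primrec.fst.comp (Primrec.fst.comp Primrec.fst)))).and
      (sig_InS (Primrec.fst.comp (Primrec.snd.comp (Primrec.fst.comp Primrec.fst)))
        (Primrec.snd.comp (Primrec.snd.comp (Primrec.fst.comp Primrec.fst))) Primrec.snd)
  obtain ⟨c1, h1⟩ := S1.K_le_log
  obtain ⟨c2, h2⟩ := K_chain (α := X × Y × Q)
    (γ := List (X × Y) × (Fin 7 → ℕ) × (Fin 7 → ℕ)) (β := Unit)
  refine ⟨c1 + c2, fun E a b τ S k hE hτ hS hk => ?_⟩
  have := h1 ((E, a, b), ()) τ S k ⟨hE, hτ⟩ (fun τ' h => hS τ' h.1 h.2) hk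
  have := h2 τ (E, a, b) ()
  omega

lemma heavy {Ω : Type} (Ed : Finset Ω) (f : Ω → ℕ) (b r : ℕ) (hf : ∀ e ∈ Ed, f e ≤ 2 ^ (b + 1))
    (h : Ed.card * 2 ^ (b + 1) ≤ (∑ e ∈ Ed, f e) * 2 ^ r) :
    Ed.card ≤ 2 ^ (r + 1) * (Ed.filter fun e => 2 ^ (b - r) ≤ f e).card := by
  have h1 : (∑ e ∈ Ed, f e) * 2 ^ r ≤
      (Ed.filter fun e => 2 ^ (b - r) ≤ f e).card * (2 ^ (b + 1) * 2 ^ r) + Ed.card * 2 ^ b := by
    rw [Finset.sum_mul, Finset.card_filter, Finset.sum_mul, ← smul_eq_mul Ed.card,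
      ← Finset.sum_const, ← Finset.sum_add_distrib]
    refine Finset.sum_le_sum fun e he => ?_
    split_ifs with h2
    · rw [one_mul]
      exact (Nat.mul_le_mul_right _ (hf e he)).trans (Nat.le_add_right _ _)
    · rw [zero_mul, zero_add]
      rcases le_or_gt r b with h3 | h3
      · calc f e * 2 ^ r ≤ 2 ^ (b - r) * 2 ^ r := Nat.mul_le_mul_right _ (by omega)
          _ = 2 ^ b := by rw [← pow_add]; congr 1; omega
      · have : b - r = 0 := by omega
        rw [this] at h2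
        have : f e = 0 := by omega
        simp [this]
  apply Nat.le_of_mul_le_mul_right _ (by positivity : 0 < 2 ^ b)
  have e1 : Ed.card * 2 ^ (b + 1) = Ed.card * 2 ^ b + Ed.card * 2 ^ b := by ring
  have e2 : 2 ^ (r + 1) * (Ed.filter fun e => 2 ^ (b - r) ≤ f e).card * 2 ^ b =
    (Ed.filter fun e => 2 ^ (b - r) ≤ f e).card * (2 ^ (b + 1) * 2 ^ r) := by ring
  omega

variable [DecidableEq X] [DecidableEq Y]

/-- The map given by a finite table. -/
def fw (φ : List (X × X)) (x : X) : X := (φ.lookup x).getD x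

lemma primrec_fw : Primrec₂ (fw (X := X)) :=
  Primrec.option_getD.comp (Primrec.listLookup.comp Primrec.snd Primrec.fst) Primrec.snd

omit [Primcodable X] in
lemma fw_table {A : Type} (ι : A → X) (hι : Function.Injective ι) (f : A → A) (l : List A)
    (a : A) (ha : a ∈ l) : fw (l.map fun a => (ι a, ι (f a))) (ι a) = ι (f a) := by
  induction l with
  | nil => exact absurd ha List.not_mem_nil
  | cons b l ih =>
    by_cases h : a = b
    · subst h; simp [fw]
    · have h1 : (ι a == ι b) = false := by simpa using fun e => h (hι e)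
      have := ih (by simpa [h] using ha)
      simp only [fw] at this
      simp only [fw, List.map_cons, List.lookup, h1, this]

/-- A pair of tables applied to an edge. -/
def app (t : List (X × X) × List (Y × Y)) (e : X × Y) : X × Y := (fw t.1 e.1, fw t.2 e.2)

lemma primrec_app : Primrec₂ (app (X := X) (Y := Y)) :=
  (primrec_fw.comp (Primrec.fst.comp Primrec.fst) (Primrec.fst.comp Primrec.snd)).pair
    (primrec_fw.comp (Primrec.snd.comp Primrec.fst) (Primrec.snd.comp Primrec.snd))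

lemma transfer : ∃ c, ∀ (t : List (X × X) × List (Y × Y)) (e : X × Y) (q : Q) (i : Fin 7),
    K (pr i ((app t e).1, (app t e).2, q)) () ≤ 2 * K t () + K (pr i (e.1, e.2, q)) () + c := by
  have f1 : Primrec fun z : (List (X × X) × List (Y × Y)) × X => fw z.1.1 z.2 :=
    primrec_fw.comp (Primrec.fst.comp Primrec.fst) Primrec.snd
  have f2 : Primrec fun z : (List (X × X) × List (Y × Y)) × Y => fw z.1.2 z.2 :=
    primrec_fw.comp (Primrec.snd.comp Primrec.fst) Primrec.snd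
  obtain ⟨c0, h0⟩ := K_apply (β := Unit) _ f1
  obtain ⟨c1, h1⟩ := K_apply (β := Unit) _ f2
  obtain ⟨c3, h3⟩ := K_apply (β := Unit)
    (fun z : (List (X × X) × List (Y × Y)) × (X × Y) => app z.1 z.2) primrec_app
  obtain ⟨c4, h4⟩ := K_apply (β := Unit)
    (fun z : (List (X × X) × List (Y × Y)) × (X × Q) => (fw z.1.1 z.2.1, z.2.2))
    ((primrec_fw.comp (Primrec.fst.comp Primrec.fst) (Primrec.fst.comp Primrec.snd)).pair
      (Primrec.snd.comp Primrec.snd))
  obtain ⟨c5, h5⟩ := K_apply (β := Unit)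
    (fun z : (List (X × X) × List (Y × Y)) × (Y × Q) => (fw z.1.2 z.2.1, z.2.2))
    ((primrec_fw.comp (Primrec.snd.comp Primrec.fst) (Primrec.fst.comp Primrec.snd)).pair
      (Primrec.snd.comp Primrec.snd))
  obtain ⟨c6, h6⟩ := K_apply (β := Unit)
    (fun z : (List (X × X) × List (Y × Y)) × (X × Y × Q) =>
      (fw z.1.1 z.2.1, fw z.1.2 z.2.2.1, z.2.2.2))
    ((primrec_fw.comp (Primrec.fst.comp Primrec.fst) (Primrec.fst.comp Primrec.snd)).pair
      ((primrec_fw.comp (Primrec.snd.comp Primrec.fst)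
        (Primrec.fst.comp (Primrec.snd.comp Primrec.snd))).pair
        (Primrec.snd.comp (Primrec.snd.comp Primrec.snd))))
  refine ⟨c0 + c1 + c3 + c4 + c5 + c6, fun t e q i => ?_⟩
  fin_cases i
  · have := h0 e.1 t ()
    simp only [pr, app, Fin.zero_eta, Matrix.cons_val_zero, K_encode_left] at this ⊢
    omega
  · have := h1 e.2 t ()
    simp only [pr, app, Fin.mk_one, Matrix.cons_val_one, Matrix.cons_val_zero,
      K_encode_left] at this ⊢
    omega
  · simp only [pr, app, Fin.reduceFinMk, Matrix.cons_val, K_encode_left]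
    omega
  · have := h3 (e.1, e.2) t ()
    simp only [pr, app, Fin.reduceFinMk, Matrix.cons_val, K_encode_left] at this ⊢
    omega
  · have := h4 (e.1, q) t ()
    simp only [pr, app, Fin.reduceFinMk, Matrix.cons_val, K_encode_left] at this ⊢
    omega
  · have := h5 (e.2, q) t ()
    simp only [pr, app, Fin.reduceFinMk, Matrix.cons_val, K_encode_left] at this ⊢
    omega
  · have := h6 (e.1, e.2, q) t ()
    simp only [pr, app, Fin.reduceFinMk, Matrix.cons_val, K_encode_left] at this ⊢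
    omega

/-- A short list of pairs of tables that moves every edge to a heavy pair. -/
def Cert (Q : Type) [Primcodable Q]
    (w : (List (X × Y) × (Fin 7 → ℕ) × (Fin 7 → ℕ)) × ℕ × ℕ)
    (z : List ((List (X × X) × List (Y × Y)) × (List (X × X) × List (Y × Y)))) : Prop :=
  z.length ≤ 2 ^ w.2.2 ∧ ∀ e ∈ w.1.1, ∃ t, t ∈ z ∧ app t.2 (app t.1 e) = e ∧
    ∃ s : Finset Q, 2 ^ w.2.1 ≤ s.card ∧
      ∀ q ∈ s, InS w.1.2.1 w.1.2.2 ((app t.1 e).1, (app t.1 e).2, q)

lemma sig_Cert : Sig fun x : ((List (X × Y) × (Fin 7 → ℕ) × (Fin 7 → ℕ)) × ℕ × ℕ) ×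
    List ((List (X × X) × List (Y × Y)) × (List (X × X) × List (Y × Y))) => Cert Q x.1 x.2 := by
  let W := (List (X × Y) × (Fin 7 → ℕ) × (Fin 7 → ℕ)) × ℕ × ℕ
  let T := (List (X × X) × List (Y × Y)) × (List (X × X) × List (Y × Y))
  have g0 : Primrec fun y : ((W × List T) × (X × Y)) × T => y.1.1.1 :=
    Primrec.fst.comp (Primrec.fst.comp Primrec.fst)
  have g1 : Primrec fun y : ((W × List T) × (X × Y)) × T => app y.2.1 y.1.2 :=
    primrec_app.comp (Primrec.fst.comp Primrec.snd) (Primrec.snd.comp Primrec.fst)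
  have s1 : Sig fun y : ((W × List T) × (X × Y)) × T => y.2 ∈ y.1.1.2 :=
    Sig.of_primrec (primrecRel_mem.comp Primrec.snd
      (Primrec.snd.comp (Primrec.fst.comp Primrec.fst)))
  have s2 : Sig fun y : ((W × List T) × (X × Y)) × T => app y.2.2 (app y.2.1 y.1.2) = y.1.2 :=
    Sig.of_primrec (Primrec.eq.comp (primrec_app.comp (Primrec.snd.comp Primrec.snd) g1)
      (Primrec.snd.comp Primrec.fst))
  have s3 : Sig fun y : (((W × List T) × (X × Y)) × T) × Q =>
      InS y.1.1.1.1.1.2.1 y.1.1.1.1.1.2.2 ((app y.1.2.1 y.1.1.2).1, (app y.1.2.1 y.1.1.2).2, y.2) :=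
    sig_InS (Primrec.fst.comp (Primrec.snd.comp (Primrec.fst.comp (g0.comp Primrec.fst))))
      (Primrec.snd.comp (Primrec.snd.comp (Primrec.fst.comp (g0.comp Primrec.fst))))
      ((Primrec.fst.comp (g1.comp Primrec.fst)).pair
        ((Primrec.snd.comp (g1.comp Primrec.fst)).pair Primrec.snd))
  have s4 := s3.many (M := fun y : ((W × List T) × (X × Y)) × T => 2 ^ y.1.1.1.2.1)
    (primrec_two_pow.comp (Primrec.fst.comp (Primrec.snd.comp g0)))
  have s5 := (s1.and (s2.and s4)).exists.forall_mem (l := fun x : W × List T => x.1.1.1)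
    (Primrec.fst.comp (Primrec.fst.comp Primrec.fst))
  have s6 : Sig fun x : W × List T => x.2.length ≤ 2 ^ x.1.2.2 :=
    Sig.of_primrec (Primrec.nat_le.comp (Primrec.list_length.comp Primrec.snd)
      (primrec_two_pow.comp (Primrec.snd.comp (Primrec.snd.comp Primrec.fst))))
  exact s6.and s5

/-- A simple pair of pairs of tables for every edge, once a certificate exists. -/
lemma exists_simple_move : ∃ c, ∀ (w : (List (X × Y) × (Fin 7 → ℕ) × (Fin 7 → ℕ)) × ℕ × ℕ),
    (∃ z, Cert Q w z) → ∀ e ∈ w.1.1, ∃ t₁ t₂ : List (X × X) × List (Y × Y),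
      K t₁ () ≤ w.2.2 + 4 * K w () + c ∧ K t₂ () ≤ w.2.2 + 4 * K w () + c ∧
      app t₂ (app t₁ e) = e ∧ ∃ s : Finset Q, 2 ^ w.2.1 ≤ s.card ∧
        ∀ q ∈ s, InS w.1.2.1 w.1.2.2 ((app t₁ e).1, (app t₁ e).2, q) := by
  classical
  let W := (List (X × Y) × (Fin 7 → ℕ) × (Fin 7 → ℕ)) × ℕ × ℕ
  let T := (List (X × X) × List (Y × Y)) × (List (X × X) × List (Y × Y))
  obtain ⟨c1, h1⟩ := (sig_Cert (X := X) (Y := Y) (Q := Q)).exists_K_le
  obtain ⟨c2, h2⟩ := K_chain (α := List T) (γ := W) (β := Unit)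
  obtain ⟨c3, h3⟩ := K_cond (α := List T) (Prod.fst : W × Unit → W) Primrec.fst
  obtain ⟨c4, h4⟩ := K_mem_list (α := T)
  obtain ⟨c5, h5⟩ := K_map (β := Unit) (Prod.fst : T → _) Primrec.fst
  obtain ⟨c6, h6⟩ := K_map (β := Unit) (Prod.snd : T → _) Primrec.snd
  refine ⟨2 * (c1 + c2 + c3) + c4 + c5 + c6, fun w hw e he => ?_⟩
  obtain ⟨z, ⟨hz1, hz2⟩, hz3⟩ := h1 w hw
  obtain ⟨t, ht1, ht2, ht3⟩ := hz2 e he
  have a1 := h2 z w ()
  have a2 := h3 z (w, ())
  have a3 := h4 z t z.toFinset w.2.2 ht1 (fun b hb => List.mem_toFinset.2 hb)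
    ((List.toFinset_card_le z).trans hz1)
  have a4 := h5 t ()
  have a5 := h6 t ()
  simp only at a2 hz3
  exact ⟨t.1, t.2, by omega, by omega, ht2, ht3⟩

end Pool.Agent.P.MP_b3bbc0_lc
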