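import Pool.Agent.P.MP_b3bbc0_lc.Fwd

/-! Every feasible vector is realised, and the description of the extended profile. -/

namespace Pool.Agent.P.MP_b3bbc0_lc

open Encodable

variable {X Y : Type} [Primcodable X] [Primcodable Y]

lemma exists_realised : ∃ c, ∀ (A B G : Type) [Fintype A] [Fintype B] [Group G] [Fintype G]
    [MulAction G A] [MulAction G B] (ι : A → X) (ν : B → Y) (Ed : Finset (A × B))
    (E : List (X × Y)) (n D : ℕ), Plane ι ν Ed E n D →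
    (∀ (g : G), ∀ e ∈ Ed, g • e ∈ Ed) → (∀ e ∈ Ed, ∀ e' ∈ Ed, ∃ g : G, g • e = e') →
    (∀ x x' : A, ∃ g : G, g • x = x') → (∀ y y' : B, ∃ g : G, g • y = y') →
    ∀ e0 ∈ Ed, 3 * n ≤ K (ι e0.1, ν e0.2) () + D →
    ∀ a b e g : ℕ, a ≤ e → b ≤ e → a ≤ 2 * n → b ≤ 2 * n → 3 * n ≤ g + e → g ≤ 2 ^ D →
    ∀ H ⊆ Ed, H.card = 2 ^ e → Few (fun x => ∃ h ∈ H, h.1 = x) (2 ^ a) →
    Few (fun y => ∃ h ∈ H, h.2 = y) (2 ^ b) →
    ∃ τ : X × Y × List Bool, (τ.1, τ.2.1) ∈ E ∧ 3 * n ≤ K (pr 3 τ) () + 600 * D + c ∧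
      (K (pr 2 τ) () ≤ g + 600 * D + c ∧ g ≤ K (pr 2 τ) () + 600 * D + c) ∧
      (K (pr 4 τ) () ≤ g + a + 600 * D + c ∧ g + a ≤ K (pr 4 τ) () + 600 * D + c) ∧
      (K (pr 5 τ) () ≤ g + b + 600 * D + c ∧ g + b ≤ K (pr 5 τ) () + 600 * D + c) ∧
      (K (pr 6 τ) () ≤ g + e + 600 * D + c ∧ g + e ≤ K (pr 6 τ) () + 600 * D + c) := by
  classical
  obtain ⟨c0, h0⟩ := edge_bounds (X := X) (Y := Y)
  obtain ⟨c1, h1⟩ := reg_profile (X := X) (Y := Y) (Q := List Bool)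
  refine ⟨1000 * (c0 + c1 + 20), ?_⟩
  intro A B G _ _ _ _ _ _ ι ν Ed E n D P hinv htr hA hB e0 he0 hr a b e g hae hbe ha hb hN hg
    H hH hHc fA fB
  obtain ⟨-, -, -, a1, a2, a3⟩ := h0 A B ι ν Ed E n D P e0 he0 hr
  set r := 20 * D + c0 with hrdef
  obtain ⟨T, t1, t2, t3, t4, t5, t6⟩ := exists_family (Q := Fin (2 ^ g)) Ed hinv htr hA hB
    a b e g (3 * n) r hae hbe hN (Fintype.card_fin _)
    ((Nat.pow_le_pow_right (by norm_num) ha).trans a1)
    ((Nat.pow_le_pow_right (by norm_num) hb).trans a2) a3 H hH hHc fA fB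
  let κ : Fin (2 ^ g) → List Bool := fun j => List.replicate j true
  have hκ : Function.Injective κ := fun j j' h =>
    Fin.ext (by simpa [κ] using congrArg List.length h)
  let emb : A × B × Fin (2 ^ g) → X × Y × List Bool := fun t => (ι t.1, ν t.2.1, κ t.2.2)
  have hemb : Function.Injective emb := by
    rintro ⟨x, y, q⟩ ⟨x', y', q'⟩ h
    obtain ⟨i1, i2⟩ := Prod.mk.inj h
    obtain ⟨i2, i3⟩ := Prod.mk.inj i2
    exact Prod.ext (P.hι i1) (Prod.ext (P.hν i2) (hκ i3))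
  have hTc : (T.image emb).card = T.card := Finset.card_image_of_injective _ hemb
  have hn := P.hn
  have hD : D < 2 ^ D := Nat.lt_two_pow_self
  have he : e ≤ 3 * n + D := by
    have : 2 ^ e ≤ 2 ^ (3 * n + D) := hHc.ge.trans ((Finset.card_le_card hH).trans P.hEd)
    exact (Nat.pow_le_pow_iff_right (by norm_num)).1 this
  have hpow : 2 ^ (D + 5) = 32 * 2 ^ D := by ring
  have big : ∀ v, v ≤ g + e + r + 4 → v ≤ 2 ^ (D + 5 + (c0 + 4 + 1)) := fun v hv =>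
    le_two_pow_add (y := 2 ^ (D + 5)) (by clear * - hv hD hpow hn he hg hrdef; omega) le_rfl
  have hk : 2 ^ (g + e - (2 * D + 13)) ≤ (T.image emb).card := by
    rw [hTc]
    have e1 : e + 1 ≤ 2 ^ (D + 3) := by
      have : 2 ^ (D + 3) = 8 * 2 ^ D := by ring
      clear * - this he hn hD; omega
    have e2 : 72 * (e + 1) ^ 2 ≤ 2 ^ (2 * D + 13) := by
      calc 72 * (e + 1) ^ 2 ≤ 128 * (2 ^ (D + 3)) ^ 2 := by gcongr; norm_num
        _ = 2 ^ (2 * D + 13) := by ring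
    have e3 : 2 ^ (g + e) ≤ 2 ^ (2 * D + 13) * T.card := t2.trans (Nat.mul_le_mul_right _ e2)
    rcases le_total (2 * D + 13) (g + e) with h | h
    · apply Nat.le_of_mul_le_mul_left _ (by positivity : 0 < 2 ^ (2 * D + 13))
      rw [← pow_add, Nat.add_sub_cancel' h]
      exact e3
    · rw [Nat.sub_eq_zero_of_le h, pow_zero]
      rcases Nat.eq_zero_or_pos T.card with h0 | h0
      · rw [h0, mul_zero] at e3
        exact absurd e3 (not_le.2 (by positivity))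
      · exact h0
  have triv1 : ∀ i, Few (fun z => ∃ τ ∈ T.image emb, pr i τ = z) (2 ^ (g + e)) := fun i =>
    ((few_mem (T.image emb)).map (pr i) fun _ h => h).mono (fun _ h => h) (hTc.trans_le t3)
  have triv2 : ∀ (i : Fin 7) (τ : X × Y × List Bool),
      Few (fun τ' => τ' ∈ T.image emb ∧ pr i τ' = pr i τ) (2 ^ (g + e)) :=
    fun i τ => (few_mem (T.image emb)).mono (fun _ h => h.1) (hTc.trans_le t3)
  obtain ⟨τ, k1, k2, k3⟩ := h1 E ![g + e, g + e, g, g + e, g + a + 1, g + b + 1, g + e]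
    ![g + e, g + e, e, g + e - 3 * n + r + 4, e - a + r + 4, e - b + r + 4, g + e]
    (g + e - (2 * D + 13)) (D + 5 + (c0 + 4 + 1))
    (fun i => big _ (by
      clear * - hae hbe
      fin_cases i <;> simp only [Fin.zero_eta, Fin.mk_one, Fin.reduceFinMk, Matrix.cons_val_zero,
        Matrix.cons_val_one, Matrix.cons_val] <;> omega))
    (fun i => big _ (by
      clear * - hae hbe
      fin_cases i <;> simp only [Fin.zero_eta, Fin.mk_one, Fin.reduceFinMk, Matrix.cons_val_zero,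
        Matrix.cons_val_one, Matrix.cons_val] <;> omega))
    (big _ (by clear * - hae; omega)) (P.hK.trans (by clear * - hae; omega)) (T.image emb)
    (fun τ hτ => by
      obtain ⟨t, ht, rfl⟩ := Finset.mem_image.1 hτ
      exact (P.hE _).2 ⟨(t.1, t.2.1), t1 t ht, rfl⟩) hk
    (fun i => by
      fin_cases i
      · exact triv1 _
      · exact triv1 _
      · refine ((few_mem (Finset.univ : Finset (Fin (2 ^ g)))).map (fun j => encode (κ j))
          ?_).mono (fun _ h => h) (by simp)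
        rintro _ ⟨_, hτ, rfl⟩
        obtain ⟨t, -, rfl⟩ := Finset.mem_image.1 hτ
        exact ⟨t.2.2, Finset.mem_univ _, rfl⟩
      · exact triv1 _
      · refine t4.map (fun z => encode (ι z.1, κ z.2)) ?_
        rintro _ ⟨_, hτ, rfl⟩
        obtain ⟨t, ht, rfl⟩ := Finset.mem_image.1 hτ
        exact ⟨(t.1, t.2.2), ⟨t, ht, rfl⟩, rfl⟩
      · refine t5.map (fun z => encode (ν z.1, κ z.2)) ?_
        rintro _ ⟨_, hτ, rfl⟩
        obtain ⟨t, ht, rfl⟩ := Finset.mem_image.1 hτ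
        exact ⟨(t.2.1, t.2.2), ⟨t, ht, rfl⟩, rfl⟩
      · exact triv1 _)
    (fun i τ hτ => by
      obtain ⟨t, ht, rfl⟩ := Finset.mem_image.1 hτ
      obtain ⟨u1, u2, u3, u4⟩ := t6 t ht
      fin_cases i
      · exact triv2 _ _
      · exact triv2 _ _
      · refine u1.map emb ?_
        rintro _ ⟨hτ', h⟩
        obtain ⟨t', ht', rfl⟩ := Finset.mem_image.1 hτ'
        have h' : encode (κ t'.2.2) = encode (κ t.2.2) := h
        exact ⟨t', ⟨ht', hκ (encode_injective h')⟩, rfl⟩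
      · refine u2.map emb ?_
        rintro _ ⟨hτ', h⟩
        obtain ⟨t', ht', rfl⟩ := Finset.mem_image.1 hτ'
        have h' : encode (ι t'.1, ν t'.2.1) = encode (ι t.1, ν t.2.1) := h
        obtain ⟨j1, j2⟩ := Prod.mk.inj (encode_injective h')
        exact ⟨t', ⟨ht', P.hι j1, P.hν j2⟩, rfl⟩
      · refine u3.map emb ?_
        rintro _ ⟨hτ', h⟩
        obtain ⟨t', ht', rfl⟩ := Finset.mem_image.1 hτ'
        have h' : encode (ι t'.1, κ t'.2.2) = encode (ι t.1, κ t.2.2) := h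
        obtain ⟨j1, j2⟩ := Prod.mk.inj (encode_injective h')
        exact ⟨t', ⟨ht', P.hι j1, hκ j2⟩, rfl⟩
      · refine u4.map emb ?_
        rintro _ ⟨hτ', h⟩
        obtain ⟨t', ht', rfl⟩ := Finset.mem_image.1 hτ'
        have h' : encode (ν t'.2.1, κ t'.2.2) = encode (ν t.2.1, κ t.2.2) := h
        obtain ⟨j1, j2⟩ := Prod.mk.inj (encode_injective h')
        exact ⟨t', ⟨ht', P.hν j1, hκ j2⟩, rfl⟩
      · exact triv2 _ _)
  have m2 := k3 2
  have m3 := (k3 3).2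
  have m4 := k3 4
  have m5 := k3 5
  have m6 := (k3 6).1
  rw [← K_pr6] at k2
  simp only [Matrix.cons_val] at m2 m3 m4 m5 m6
  clear * - k1 k2 m2 m3 m4 m5 m6 hae hbe hN hrdef
  refine ⟨τ, k1, by omega, ⟨by omega, by omega⟩, ⟨by omega, by omega⟩, ⟨by omega, by omega⟩,
    by omega, by omega⟩

lemma backward [DecidableEq X] [DecidableEq Y] : ∃ c, ∀ (A B G : Type) [Fintype A] [Fintype B]
    [Group G] [Fintype G]
    [MulAction G A] [MulAction G B] (ι : A → X) (ν : B → Y) (Ed : Finset (A × B))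
    (E : List (X × Y)) (n D : ℕ), Plane ι ν Ed E n D →
    (∀ (g : G), ∀ e ∈ Ed, g • e ∈ Ed) → (∀ e ∈ Ed, ∀ e' ∈ Ed, ∃ g : G, g • e = e') →
    (∀ x x' : A, ∃ g : G, g • x = x') → (∀ y y' : B, ∃ g : G, g • y = y') →
    ∀ e0 ∈ Ed, 3 * n ≤ K (ι e0.1, ν e0.2) () + D →
    ∀ a b e g : ℕ, a ≤ e → b ≤ e → a ≤ 2 * n → b ≤ 2 * n → 3 * n ≤ g + e → g ≤ 2 ^ D →
    ∀ H ⊆ Ed, H.card = 2 ^ e → Few (fun x => ∃ h ∈ H, h.1 = x) (2 ^ a) →
    Few (fun y => ∃ h ∈ H, h.2 = y) (2 ^ b) → ∃ q : List Bool,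
      ∀ i, K (pr i (ι e0.1, ν e0.2, q)) () ≤ target n a b e g i + 3000000 * D + c ∧
        target n a b e g i ≤ K (pr i (ι e0.1, ν e0.2, q)) () + 3000000 * D + c := by
  classical
  obtain ⟨c0, h0⟩ := edge_bounds (X := X) (Y := Y)
  obtain ⟨c1, h1⟩ := exists_realised (X := X) (Y := Y)
  obtain ⟨c2, h2⟩ := homogeneous (X := X) (Y := Y) (Q := List Bool)
  refine ⟨c0 + 5000 * (c1 + 3) + c2, ?_⟩
  intro A B G _ _ _ _ _ _ ι ν Ed E n D P hinv htr hA hB e0 he0 hr a b e g hae hbe ha hb hN hg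
    H hH hHc fA fB
  obtain ⟨⟨a1, a2⟩, ⟨a3, a4⟩, a5, -⟩ := h0 A B ι ν Ed E n D P e0 he0 hr
  obtain ⟨⟨x, y, q⟩, k1, k3, ⟨k2, k2'⟩, ⟨k4, k4'⟩, ⟨k5, k5'⟩, k6, k6'⟩ :=
    h1 A B G ι ν Ed E n D P hinv htr hA hB e0 he0 hr a b e g hae hbe ha hb hN hg H hH hHc fA fB
  have hn := P.hn
  have hK := P.hK
  have hD : D < 2 ^ D := Nat.lt_two_pow_self
  rw [K_pr3] at k3
  have p2 : K (pr 2 (x, y, q)) () = K q () := by
    simp only [pr, Matrix.cons_val, K_encode_left]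
  have z1 : 3 * n + D ≤ 2 ^ (700 * D + (c1 + 3)) := by
    have e1 : 2 ^ (D + 2) ≤ 2 ^ (700 * D + (c1 + 3)) :=
      Nat.pow_le_pow_right (by norm_num) (by omega)
    have e2 : 2 ^ (D + 2) = 4 * 2 ^ D := by ring
    clear * - e1 e2 hn hD; omega
  have z2 : K q () ≤ 2 ^ (700 * D + (c1 + 3)) := by
    have e1 : K q () ≤ 2 ^ (D + (600 * D + c1 + 1)) :=
      le_two_pow_add (y := g) (by clear * - p2 k2; omega) hg
    exact e1.trans (Nat.pow_le_pow_right (by norm_num) (by omega))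
  obtain ⟨q', hq'⟩ := h2 A B G ι ν P.hι P.hν Ed hinv htr E P.hE (3 * n + D) (700 * D + (c1 + 3))
    P.hEd z1 (by clear * - hK; omega) (x, y) k1 (ι e0.1, ν e0.2) ((P.hE _).2 ⟨e0, he0, rfl⟩) q
    (by clear * - k3; omega) (by clear * - hr; omega) z2
  refine ⟨q', fun i => ?_⟩
  obtain ⟨j1, j2⟩ := hq' i
  simp only at j1 j2
  clear * - a1 a2 a3 a4 a5 hr k2 k2' k4 k4' k5 k5' k6 k6' j1 j2
  fin_cases i <;>
    simp only [pr, target, Fin.zero_eta, Fin.mk_one, Fin.reduceFinMk, Matrix.cons_val_zero,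
      Matrix.cons_val_one, Matrix.cons_val, K_encode_left] at * <;>
    constructor <;> omega

section Field

variable {F : Type} [Field F]

lemma few_points [Fintype F] (ℓ : (F × F) ⊕ F) : Few (fun p => Incident ℓ p) (Fintype.card F) := by
  rcases ℓ with ⟨k, c⟩ | c
  · refine (few_mem (Finset.univ : Finset F)).map (fun a => (a, k * a + c)) ?_
    rintro ⟨a, b⟩ h
    exact ⟨a, Finset.mem_univ _, Prod.ext rfl (Eq.symm h)⟩
  · refine (few_mem (Finset.univ : Finset F)).map (fun b => (c, b)) ?_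
    rintro ⟨a, b⟩ h
    exact ⟨b, Finset.mem_univ _, Prod.ext (Eq.symm h) rfl⟩

lemma few_lines [Fintype F] (p : F × F) :
    Few (fun ℓ => Incident ℓ p) (Fintype.card F + 1) := by
  obtain ⟨a, b⟩ := p
  refine (((few_mem (Finset.univ : Finset F)).map
    (P' := fun ℓ : (F × F) ⊕ F => ∃ k, Sum.inl (k, b - k * a) = ℓ)
    (fun k => Sum.inl (k, b - k * a))
    (fun _ ⟨k, h⟩ => ⟨k, Finset.mem_univ _, h⟩)).or (few_eq (Sum.inr a))).mono ?_ le_rfl
  rintro (⟨k, c⟩ | c) h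
  · have h' : b = k * a + c := h
    exact Or.inl ⟨k, by rw [h']; simp⟩
  · have h' : a = c := h
    exact Or.inr (by rw [h'])

lemma exists_point (ℓ : (F × F) ⊕ F) : ∃ p, Incident ℓ p := by
  rcases ℓ with ⟨k, c⟩ | c
  · exact ⟨(0, k * 0 + c), rfl⟩
  · exact ⟨(c, 0), rfl⟩

end Field

theorem description (D : List Bool →. ℕ) (hD : IsOptimal D) :
    ∃ κ : ℕ, ∀ (n d : ℕ) (F : Type) [Field F] [Fintype F] [Encodable F]
      (L : List (F × F × F × F)), (∀ t, t ∈ L ↔ ∃ a b, t = (a, b, a + b, a * b)) →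
      C D L ≤ d → Fintype.card F ≤ 2 ^ (n + d) → n ≤ 2 ^ d →
      ∀ (ℓ : (F × F) ⊕ F) (p : F × F), Incident ℓ p → 3 * n ≤ C D (ℓ, p) + d →
        (∀ q : List Bool, C D q ≤ 2 ^ d → ∃ a b e g : ℕ, Feasible F n a b e g ∧ g ≤ 3 * 2 ^ d ∧
          ∀ i : Fin 7, |(profile D ℓ p q i : ℤ) - target n a b e g i| ≤ κ * (d + 1)) ∧
        (∀ a b e g : ℕ, Feasible F n a b e g → g ≤ 3 * 2 ^ d → ∃ q : List Bool,
          ∀ i : Fin 7, |(profile D ℓ p q i : ℤ) - target n a b e g i| ≤ κ * (d + 1)) := by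
  classical
  obtain ⟨c0, h0⟩ := forward (X := (ℕ × ℕ) ⊕ ℕ) (Y := ℕ × ℕ) (Q := List Bool)
  obtain ⟨c1, h1⟩ := backward (X := (ℕ × ℕ) ⊕ ℕ) (Y := ℕ × ℕ)
  obtain ⟨c2, h2⟩ := C_close hD
  obtain ⟨c3, h3⟩ := K_map (β := Unit) flagList primrec_flagList
  refine ⟨9000000 + 3000000 * (c2 + c3 + 4) + 2 * c0 + c1 + c2, ?_⟩
  intro n d F _ _ _ L hL hCL hF hn ℓ p hi hr
  have a4 : C D (ℓ, p) ≤ K (encL ℓ, encP p) () + c2 := by
    have := (h2 (encode (ℓ, p))).2
    rw [C_encode] at this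
    rw [← K_encode_left (encL ℓ, encP p), encode_prod_val, encode_encL, encode_encP]
    exact this
  have a1 : K (L.map encT) () ≤ C D L + c2 := by
    rw [← K_encode_left, encode_map_encT, ← C_encode]
    exact (h2 _).1
  have a2 := h3 (L.map encT) ()
  obtain ⟨D0, hD0⟩ : ∃ D0, D0 = 3 * d + (c2 + c3 + 4) := ⟨_, rfl⟩
  let Ed : Finset (((F × F) ⊕ F) × (F × F)) := Finset.univ.filter fun e => Incident e.1 e.2
  have hEd : ∀ e, e ∈ Ed ↔ Incident e.1 e.2 := fun e => by simp [Ed]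
  have hmono : ∀ {j k : ℕ}, j ≤ k → 2 ^ j ≤ 2 ^ k := fun h => Nat.pow_le_pow_right (by norm_num) h
  have hF0 : 0 < Fintype.card F := Fintype.card_pos
  have hF2 : Fintype.card F * Fintype.card F ≤ 2 ^ (2 * n + 2 * d) := by
    calc _ ≤ 2 ^ (n + d) * 2 ^ (n + d) := Nat.mul_le_mul hF hF
      _ = _ := by ring
  have P : Plane encL encP Ed (flagList (L.map encT)) n D0 :=
    { hι := encL_injective
      hν := encP_injective
      hE := fun e => by simp [mem_flagList hL, hEd]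
      hK := by omega
      hn := hn.trans (hmono (by omega))
      hA := by
        rw [Fintype.card_sum, Fintype.card_prod]
        have e1 : Fintype.card F ≤ Fintype.card F * Fintype.card F := Nat.le_mul_self _
        have e2 : 2 ^ (2 * n + 2 * d + 1) ≤ 2 ^ (2 * n + D0) := hmono (by omega)
        rw [pow_succ] at e2
        omega
      hB := by
        rw [Fintype.card_prod]
        exact hF2.trans (hmono (by omega))
      hEd := card_flags.trans (by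
        calc 2 * Fintype.card F ^ 3 ≤ 2 * (2 ^ (n + d)) ^ 3 := by gcongr
          _ = 2 ^ (3 * n + 3 * d + 1) := by ring
          _ ≤ _ := hmono (by omega))
      dA := fun x => (few_points x).mono (fun y h => (hEd _).1 h) (hF.trans (hmono (by omega)))
      dB := fun y => (few_lines y).mono (fun x h => (hEd _).1 h) (by
        have e2 : 2 ^ (n + d + 1) ≤ 2 ^ (n + D0) := hmono (by omega)
        rw [pow_succ] at e2
        omega) }
  have fin : ∀ (q : List Bool) (t : Fin 7 → ℕ) (c : ℕ), c ≤ 2 * c0 + c1 →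
      (∀ i, K (pr i (encL ℓ, encP p, q)) () ≤ t i + 3000000 * D0 + c ∧
        t i ≤ K (pr i (encL ℓ, encP p, q)) () + 3000000 * D0 + c) →
      ∀ i : Fin 7, |(profile D ℓ p q i : ℤ) - t i| ≤
        ((9000000 + 3000000 * (c2 + c3 + 4) + 2 * c0 + c1 + c2 : ℕ) : ℤ) * (d + 1) := by
    intro q t c hc h i
    obtain ⟨b1, b2⟩ := h i
    obtain ⟨b3, b4⟩ := h2 (pr i (encL ℓ, encP p, q))
    rw [profile_eq, abs_le]
    have b7 : 9000000 * d + (3000000 * (c2 + c3 + 4) + 2 * c0 + c1 + c2) ≤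
        (9000000 + 3000000 * (c2 + c3 + 4) + 2 * c0 + c1 + c2) * (d + 1) := by nlinarith
    have b8 : ((9000000 + 3000000 * (c2 + c3 + 4) + 2 * c0 + c1 + c2 : ℕ) : ℤ) * ((d : ℤ) + 1) =
      (((9000000 + 3000000 * (c2 + c3 + 4) + 2 * c0 + c1 + c2) * (d + 1) : ℕ) : ℤ) := by
      push_cast; ring
    rw [b8]
    generalize (9000000 + 3000000 * (c2 + c3 + 4) + 2 * c0 + c1 + c2) * (d + 1) = M at b7 ⊢
    clear * - b1 b2 b3 b4 b7 hc hD0
    constructor <;> omega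
  have hr' : 3 * n ≤ K (encL ℓ, encP p) () + D0 := by omega
  refine ⟨fun q hq => ?_, fun a b e g ⟨f1, f2, f3, f4, f5, A, B, H, g1, g2, g3, g4⟩ hg => ?_⟩
  · have a3 : K q () ≤ C D q + c2 := by
      rw [← K_encode_left, ← C_encode]
      exact (h2 _).1
    obtain ⟨a, b, e, g, f1, f2, f3, f4, f5, ⟨H, g1, g2, ⟨A, g3, g4⟩, B, g5, g6⟩, hf⟩ :=
      h0 _ _ encL encP Ed _ n D0 P (ℓ, p) ((hEd _).2 hi) hr' q
        ((le_two_pow_add a3 hq).trans (hmono (by omega)))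
    have b0 := (hf 2).2
    simp only [pr, target, Matrix.cons_val, K_encode_left] at b0
    obtain ⟨g', j1, j2, j3, j4⟩ : ∃ g', g' ≤ g ∧ g ≤ g' + 201 * D0 + c0 ∧ g' ≤ 3 * 2 ^ d ∧
        3 * n ≤ g' + e := ⟨min g (3 * 2 ^ d), min_le_left _ _,
      by clear * - b0 a3 hq hD0 hn; omega, min_le_right _ _, by clear * - f5 hn; omega⟩
    refine ⟨a, b, e, g', ⟨f1, f2, f3, f4, j4, A, B, H, g3, g5, g2, fun h hh =>
      ⟨g4 _ ⟨h, hh, rfl⟩, g6 _ ⟨h, hh, rfl⟩, (hEd _).1 (g1 hh)⟩⟩, j3,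
      fin q _ (2 * c0) (by omega) fun i => ?_⟩
    obtain ⟨b1, b2⟩ := hf i
    have b3 : target n a b e g' i ≤ target n a b e g i ∧
        target n a b e g i ≤ target n a b e g' i + 201 * D0 + c0 := by
      clear * - j1 j2
      fin_cases i <;>
        simp only [target, Fin.zero_eta, Fin.mk_one, Fin.reduceFinMk, Matrix.cons_val_zero,
          Matrix.cons_val_one, Matrix.cons_val] <;> constructor <;> omega
    simp only at b1 b2
    clear * - b1 b2 b3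
    constructor <;> omega
  · obtain ⟨H', s1, s2⟩ := Finset.exists_subset_card_eq g3
    obtain ⟨q, hq⟩ := h1 _ _ (Aut (Incident (F := F))) encL encP Ed _ n D0 P
      (fun g e he => (hEd _).2 ((g.2 e.1 e.2).2 ((hEd _).1 he)))
      (fun e he e' he' => flag_transitive e e' ((hEd _).1 he) ((hEd _).1 he'))
      (fun x x' => by
        obtain ⟨y, hy⟩ := exists_point x
        obtain ⟨y', hy'⟩ := exists_point x'
        obtain ⟨g, hg⟩ := flag_transitive (x, y) (x', y') hy hy'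
        exact ⟨g, congrArg Prod.fst hg⟩)
      (fun y y' => by
        obtain ⟨g, hg⟩ := flag_transitive (Sum.inr y.1, y) (Sum.inr y'.1, y') rfl rfl
        exact ⟨g, congrArg Prod.snd hg⟩)
      (ℓ, p) ((hEd _).2 hi) hr' a b e g f1 f2 f3 f4 f5 (hg.trans (by
        have e1 : 2 ^ (d + 2) ≤ 2 ^ D0 := hmono (by omega)
        have e2 : 2 ^ (d + 2) = 4 * 2 ^ d := by ring
        clear * - e1 e2 hn
        omega)) H'
      (fun h hh => (hEd _).2 (g4 h (s1 hh)).2.2) s2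
      ⟨A, g1, by rintro _ ⟨h, hh, rfl⟩; exact (g4 h (s1 hh)).1⟩
      ⟨B, g2, by rintro _ ⟨h, hh, rfl⟩; exact (g4 h (s1 hh)).2.1⟩
    exact ⟨q, fin q _ c1 (by omega) hq⟩

end Pool.Agent.P.MP_b3bbc0_lc
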