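import Pool.Agent.P.MP_b3bbc0_lc.Plane

/-! From a dense rectangle to a biregular family of translates (first moment arguments). -/

namespace Pool.Agent.P.MP_b3bbc0_lc

open Finset

/-- At most `m` objects satisfy `P`. -/
def Few {α : Type} (P : α → Prop) (m : ℕ) : Prop :=
  ∃ s : Finset α, s.card ≤ m ∧ ∀ x, P x → x ∈ s

lemma Few.mono {α : Type} {P P' : α → Prop} {m m' : ℕ} (h : Few P m) (hP : ∀ x, P' x → P x)
    (hm : m ≤ m') : Few P' m' := by
  obtain ⟨s, h1, h2⟩ := h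
  exact ⟨s, h1.trans hm, fun x hx => h2 x (hP x hx)⟩

lemma Few.map {α β : Type} {P : α → Prop} {P' : β → Prop} {m : ℕ} (h : Few P m) (f : α → β)
    (hP : ∀ y, P' y → ∃ x, P x ∧ f x = y) : Few P' m := by
  classical
  obtain ⟨s, h1, h2⟩ := h
  refine ⟨s.image f, card_image_le.trans h1, fun y hy => ?_⟩
  obtain ⟨x, hx, rfl⟩ := hP y hy
  exact mem_image_of_mem f (h2 x hx)

lemma Few.or {α : Type} {P P' : α → Prop} {m m' : ℕ} (h : Few P m) (h' : Few P' m') :
    Few (fun x => P x ∨ P' x) (m + m') := by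
  classical
  obtain ⟨s, h1, h2⟩ := h
  obtain ⟨s', h1', h2'⟩ := h'
  refine ⟨s ∪ s', (card_union_le _ _).trans (add_le_add h1 h1'), fun x hx => ?_⟩
  rcases hx with hx | hx
  · exact mem_union_left _ (h2 x hx)
  · exact mem_union_right _ (h2' x hx)

lemma Few.prod {α β : Type} {P : α → Prop} {P' : β → Prop} {m m' : ℕ} (h : Few P m)
    (h' : Few P' m') : Few (fun x : α × β => P x.1 ∧ P' x.2) (m * m') := by
  obtain ⟨s, h1, h2⟩ := h
  obtain ⟨s', h1', h2'⟩ := h'
  exact ⟨s ×ˢ s', by rw [card_product]; exact Nat.mul_le_mul h1 h1',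
    fun x hx => mem_product.2 ⟨h2 _ hx.1, h2' _ hx.2⟩⟩

lemma few_mem {α : Type} (s : Finset α) : Few (fun x => x ∈ s) s.card := ⟨s, le_rfl, fun _ h => h⟩

lemma few_eq {α : Type} (a : α) : Few (fun x => x = a) 1 :=
  ⟨{a}, by simp, fun _ h => mem_singleton.2 h⟩

section Coll

variable {G Ω Kx : Type} [Group G] [Fintype G] [MulAction G Ω] [DecidableEq Ω] [Fintype Kx]
  [DecidableEq Kx]

/-- Two independent uniform translates collide with probability `1 / |S|`. -/
lemma card_coll {S : Finset Ω} (hinv : ∀ (g : G), ∀ e ∈ S, g • e ∈ S)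
    (htr : ∀ e ∈ S, ∀ e' ∈ S, ∃ g : G, g • e = e') {x y : Ω} (hx : x ∈ S) (hy : y ∈ S)
    {k k' : Kx} (hk : k ≠ k') :
    (univ.filter fun γ : Kx → G => γ k • x = γ k' • y).card * S.card =
      Fintype.card (Kx → G) := by
  classical
  let act : MulAction (Kx → G) (Ω × Ω) :=
    { smul := fun γ z => (γ k • z.1, γ k' • z.2)
      one_smul := fun z => Prod.ext (one_smul G z.1) (one_smul G z.2)
      mul_smul := fun γ γ' z => Prod.ext (mul_smul (γ k) (γ' k) z.1) (mul_smul (γ k') (γ' k') z.2) }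
  have h := @card_hit (Kx → G) (Ω × Ω) _ _ act _ (S ×ˢ S) S.diag
    (fun γ e he => mem_product.2 ⟨hinv _ _ (mem_product.1 he).1, hinv _ _ (mem_product.1 he).2⟩)
    (fun e he e' he' => by
      obtain ⟨g, hg⟩ := htr e.1 (mem_product.1 he).1 e'.1 (mem_product.1 he').1
      obtain ⟨g', hg'⟩ := htr e.2 (mem_product.1 he).2 e'.2 (mem_product.1 he').2
      refine ⟨fun j => if j = k then g else g', Prod.ext ?_ ?_⟩
      · change (if k = k then g else g') • e.1 = e'.1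
        rw [if_pos rfl, hg]
      · change (if k' = k then g else g') • e.2 = e'.2
        rw [if_neg hk.symm, hg'])
    (fun z hz => by
      obtain ⟨h1, h2⟩ := mem_diag.1 hz
      exact mem_product.2 ⟨h1, h2 ▸ h1⟩) (x, y) (mem_product.2 ⟨hx, hy⟩)
  have e1 : (univ.filter fun γ : Kx → G => act.smul γ (x, y) ∈ S.diag) =
      univ.filter fun γ : Kx → G => γ k • x = γ k' • y := by
    refine filter_congr fun γ _ => ?_
    rw [mem_diag]
    exact ⟨fun h => h.2, fun h => ⟨hinv _ _ hx, h⟩⟩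
  have h' : (univ.filter fun γ : Kx → G => act.smul γ (x, y) ∈ S.diag).card * (S ×ˢ S).card =
      S.diag.card * Fintype.card (Kx → G) := h
  rw [e1, card_product, diag_card] at h'
  have hpos : 0 < S.card := card_pos.2 ⟨x, hx⟩
  apply Nat.eq_of_mul_eq_mul_left hpos
  rw [← h']; ring

/-- The expected number of collisions with indices in other cells. -/
lemma sum_coll {ι : Type} {S : Finset Ω} (hinv : ∀ (g : G), ∀ e ∈ S, g • e ∈ S)
    (htr : ∀ e ∈ S, ∀ e' ∈ S, ∃ g : G, g • e = e') (cell : ι → Kx) (pt : ι → Ω) (I : Finset ι)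
    (hI : ∀ i ∈ I, pt i ∈ S) (i0 : ι) (h0 : pt i0 ∈ S) (M : ℕ) (hM : I.card ≤ M * S.card) :
    ∑ γ : Kx → G, (I.filter fun i => cell i ≠ cell i0 ∧
      γ (cell i) • pt i = γ (cell i0) • pt i0).card ≤ Fintype.card (Kx → G) * M := by
  have hpos : 0 < S.card := card_pos.2 ⟨_, h0⟩
  apply Nat.le_of_mul_le_mul_right _ hpos
  have e1 : ∑ γ : Kx → G, (I.filter fun i => cell i ≠ cell i0 ∧
      γ (cell i) • pt i = γ (cell i0) • pt i0).card =
      ∑ i ∈ I, (univ.filter fun γ : Kx → G => cell i ≠ cell i0 ∧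
        γ (cell i) • pt i = γ (cell i0) • pt i0).card := by
    simp only [card_filter]
    exact sum_comm
  rw [e1, sum_mul]
  calc ∑ i ∈ I, (univ.filter fun γ : Kx → G => cell i ≠ cell i0 ∧
        γ (cell i) • pt i = γ (cell i0) • pt i0).card * S.card
      ≤ ∑ _i ∈ I, Fintype.card (Kx → G) := by
        refine sum_le_sum fun i hi => ?_
        by_cases h : cell i = cell i0
        · simp [h]
        · rw [← card_coll hinv htr (hI i hi) h0 h]
          refine Nat.mul_le_mul_right _ (card_le_card fun γ hγ => ?_)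
          exact mem_filter.2 ⟨mem_univ _, (mem_filter.1 hγ).2.2⟩
    _ = I.card * Fintype.card (Kx → G) := by simp
    _ ≤ M * S.card * Fintype.card (Kx → G) := Nat.mul_le_mul_right _ hM
    _ = Fintype.card (Kx → G) * M * S.card := by ring

end Coll

/-- First moment pruning. -/
lemma prune {Γ ι : Type} [Fintype Γ] [Nonempty Γ] (m : ℕ) (I : Finset ι)
    (f : Fin m → Γ → ι → ℕ) (M : Fin m → ℕ) (hM : ∀ j, 0 < M j)
    (h : ∀ j, ∀ i ∈ I, ∑ γ, f j γ i ≤ Fintype.card Γ * M j) :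
    ∃ γ, ∃ J ⊆ I, I.card ≤ 2 * J.card ∧ ∀ j, ∀ i ∈ J, f j γ i ≤ 2 * m * M j := by
  classical
  let φ : Γ → ι → ℝ := fun γ i => ∑ j, (f j γ i : ℝ) / M j
  have hMr : ∀ j, (0 : ℝ) < M j := fun j => by exact_mod_cast hM j
  have hφ0 : ∀ γ i, 0 ≤ φ γ i := fun γ i => sum_nonneg fun j _ => by positivity
  have h1 : ∑ γ, ∑ i ∈ I, φ γ i ≤ ∑ _γ : Γ, (m : ℝ) * I.card := by
    rw [sum_comm]
    calc ∑ i ∈ I, ∑ γ, φ γ i ≤ ∑ _i ∈ I, (m : ℝ) * Fintype.card Γ := by
          refine sum_le_sum fun i hi => ?_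
          simp only [φ]
          rw [sum_comm]
          calc ∑ j, ∑ γ, (f j γ i : ℝ) / M j ≤ ∑ _j : Fin m, (Fintype.card Γ : ℝ) := by
                refine sum_le_sum fun j _ => ?_
                rw [← sum_div, div_le_iff₀ (hMr j)]
                exact_mod_cast h j i hi
            _ = _ := by simp
      _ = _ := by simp [card_univ]; ring
  obtain ⟨γ, -, hγ⟩ := exists_le_of_sum_le univ_nonempty h1
  refine ⟨γ, I.filter fun i => φ γ i ≤ 2 * m, filter_subset _ _, ?_, ?_⟩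
  · have e2 := card_filter_add_card_filter_not (s := I) (fun i => φ γ i ≤ 2 * m)
    set Bad := I.filter fun i => ¬ φ γ i ≤ 2 * m with hBad
    rcases Nat.eq_zero_or_pos m with rfl | hm
    · have : Bad = ∅ := by
        rw [hBad, filter_eq_empty_iff]
        intro i _
        simp [φ]
      rw [this] at e2
      simp only [card_empty] at e2
      omega
    · have h3 : (Bad.card : ℝ) * (2 * m) ≤ ∑ i ∈ I, φ γ i := by
        calc (Bad.card : ℝ) * (2 * m) = ∑ _i ∈ Bad, (2 * m : ℝ) := by simp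
          _ ≤ ∑ i ∈ Bad, φ γ i := sum_le_sum fun i hi => (not_le.1 (mem_filter.1 hi).2).le
          _ ≤ _ := sum_le_sum_of_subset_of_nonneg (filter_subset _ _) fun i _ _ => hφ0 γ i
      have hmr : (0 : ℝ) < m := by exact_mod_cast hm
      have h4 : (2 * Bad.card : ℝ) ≤ I.card := by
        apply le_of_mul_le_mul_left _ hmr
        linarith
      have h5 : 2 * Bad.card ≤ I.card := by exact_mod_cast h4
      omega
  · intro j i hi
    have h2 : (f j γ i : ℝ) / M j ≤ 2 * m :=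
      (single_le_sum (f := fun j => (f j γ i : ℝ) / M j) (fun j _ => by positivity)
        (mem_univ j)).trans (mem_filter.1 hi).2
    rw [div_le_iff₀ (hMr j)] at h2
    exact_mod_cast h2

/-- One side: a dyadic class of degrees and a random splitting of the other side. -/
lemma side {η A B : Type} [Fintype B] (H : Finset η) (π : η → A) (ρ : η → B)
    (hinj : ∀ h h', π h = π h' → ρ h = ρ h' → h = h') (a e : ℕ) (hae : a ≤ e)
    (hH : H.card ≤ 2 ^ e) (hA : Few (fun x => ∃ h ∈ H, π h = x) (2 ^ a)) :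
    ∃ (Cl : Type) (_ : Fintype Cl) (c : B → Cl), ∃ H1 ⊆ H, H.card ≤ 2 * (e + 1) * H1.card ∧
      Few (fun z : A × Cl => ∃ h ∈ H1, (π h, c (ρ h)) = z) (2 ^ (a + 1)) ∧
      ∀ h ∈ H1, Few (fun h' => h' ∈ H1 ∧ π h' = π h ∧ c (ρ h') = c (ρ h)) (2 ^ (e - a + 2)) := by
  classical
  let deg : A → ℕ := fun x => (H.filter fun h => π h = x).card
  have hdeg : ∀ x, deg x ≤ 2 ^ e := fun x => (card_filter_le _ _).trans hH
  have hcls : ∀ h ∈ H, Nat.log 2 (deg (π h)) ∈ range (e + 1) := by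
    intro h _
    rw [mem_range, Nat.lt_succ_iff]
    calc Nat.log 2 (deg (π h)) ≤ Nat.log 2 (2 ^ e) := Nat.log_mono_right (hdeg _)
      _ = e := Nat.log_pow (by norm_num) e
  obtain ⟨i, -, hi⟩ : ∃ i ∈ range (e + 1),
      H.card ≤ (e + 1) * (H.filter fun h => Nat.log 2 (deg (π h)) = i).card := by
    refine exists_le_of_sum_le (f := fun _ => H.card) ⟨0, by simp⟩ ?_
    rw [← mul_sum, ← card_eq_sum_card_fiberwise hcls]
    simp
  set H0 := H.filter fun h => Nat.log 2 (deg (π h)) = i with hH0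
  have hlo : ∀ h ∈ H0, 2 ^ i ≤ deg (π h) := by
    intro h hh
    obtain ⟨h1, h2⟩ := mem_filter.1 hh
    rw [← h2]
    have : 0 < deg (π h) := card_pos.2 ⟨h, mem_filter.2 ⟨h1, rfl⟩⟩
    exact Nat.pow_log_le_self 2 this.ne'
  have hhi : ∀ h ∈ H0, deg (π h) ≤ 2 ^ (i + 1) := by
    intro h hh
    rw [← (mem_filter.1 hh).2]
    exact (Nat.lt_pow_succ_log_self (by norm_num) _).le
  have hlines : (H0.image π).card * 2 ^ i ≤ 2 ^ e := by
    refine le_trans ?_ hH
    rw [card_eq_sum_card_image π H, ← smul_eq_mul, ← sum_const]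
    refine (sum_le_sum fun x hx => ?_).trans
      (sum_le_sum_of_subset (image_subset_image (filter_subset _ _)))
    obtain ⟨h, hh, rfl⟩ := mem_image.1 hx
    exact hlo h hh
  set s := i + 1 - (e - a) with hs
  let Cl := Multiplicative (ZMod (2 ^ s))
  have hCl : Fintype.card Cl = 2 ^ s := by simp [Cl]
  have hl2 : (H0.image π).card * 2 ^ s ≤ 2 ^ (a + 1) := by
    rcases Nat.eq_zero_or_pos s with h0 | h0
    · obtain ⟨t, ht1, ht2⟩ := hA
      have : (H0.image π).card ≤ t.card := card_le_card fun x hx => by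
        obtain ⟨h, hh, rfl⟩ := mem_image.1 hx
        exact ht2 _ ⟨h, (mem_filter.1 hh).1, rfl⟩
      rw [h0, pow_succ]
      omega
    · apply Nat.le_of_mul_le_mul_right _ (by positivity : 0 < 2 ^ (e - a))
      have e1 : 2 ^ s * 2 ^ (e - a) = 2 ^ i * 2 := by
        rw [← pow_add, ← pow_succ]; congr 1; omega
      have e2 : 2 ^ (a + 1) * 2 ^ (e - a) = 2 ^ e * 2 := by
        rw [← pow_add, ← pow_succ]; congr 1; omega
      rw [mul_assoc, e1, e2, ← mul_assoc]
      exact Nat.mul_le_mul_right _ hlines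
  obtain ⟨c, H1, hsub, hcard, hf⟩ := prune (Γ := B → Cl) 1 H0
    (fun _ γ h => ((H.filter fun h' => π h' = π h).filter fun h' => ρ h' ≠ ρ h ∧
      γ (ρ h') • (1 : Cl) = γ (ρ h) • (1 : Cl)).card) (fun _ => 2 ^ (e - a))
    (fun _ => by positivity) (fun _ h hh =>
      sum_coll (G := Cl) (S := univ) (fun _ _ _ => mem_univ _)
        (fun x _ y _ => ⟨y * x⁻¹, inv_mul_cancel_right y x⟩) ρ (fun _ => (1 : Cl)) _ (fun _ _ => mem_univ _) h
        (mem_univ _) _ (by
          rw [card_univ, hCl, ← pow_add]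
          exact (hhi h hh).trans (Nat.pow_le_pow_right (by norm_num) (by omega))))
  refine ⟨Cl, inferInstance, c, H1, hsub.trans (filter_subset _ _), by nlinarith, ?_, ?_⟩
  · refine ⟨(H0.image π) ×ˢ univ, by rw [card_product, card_univ, hCl]; exact hl2, ?_⟩
    rintro _ ⟨h, hh, rfl⟩
    exact mem_product.2 ⟨mem_image_of_mem _ (hsub hh), mem_univ _⟩
  · intro h hh
    refine ((few_eq h).or (few_mem ((H.filter fun h' => π h' = π h).filter fun h' =>
      ρ h' ≠ ρ h ∧ c (ρ h') • (1 : Cl) = c (ρ h) • (1 : Cl)))).mono ?_ ?_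
    · rintro h' ⟨h1, h2, h3⟩
      by_cases h4 : ρ h' = ρ h
      · exact Or.inl (hinj _ _ h2 h4)
      · exact Or.inr (mem_filter.2 ⟨mem_filter.2 ⟨(mem_filter.1 (hsub h1)).1, h2⟩, h4, by rw [h3]⟩)
    · have := hf 0 h hh
      have h0 : 0 < 2 ^ (e - a) := by positivity
      rw [pow_add]
      omega

/-- A dense rectangle gives a biregular family of translates. -/
lemma exists_family {A B G Q : Type} [Fintype A] [Fintype B] [Fintype Q] [Group G] [Fintype G]
    [MulAction G A] [MulAction G B] (Ed : Finset (A × B))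
    (hinv : ∀ (g : G), ∀ e ∈ Ed, g • e ∈ Ed) (htr : ∀ e ∈ Ed, ∀ e' ∈ Ed, ∃ g : G, g • e = e')
    (hA : ∀ x x' : A, ∃ g : G, g • x = x') (hB : ∀ y y' : B, ∃ g : G, g • y = y')
    (a b e g N r : ℕ) (hae : a ≤ e) (hbe : b ≤ e) (hN : N ≤ g + e) (hQ : Fintype.card Q = 2 ^ g)
    (ha : 2 ^ a ≤ 2 ^ r * Fintype.card A) (hb : 2 ^ b ≤ 2 ^ r * Fintype.card B)
    (hE : 2 ^ N ≤ 2 ^ r * Ed.card) (H : Finset (A × B)) (hH : H ⊆ Ed) (hHc : H.card = 2 ^ e)
    (hHA : Few (fun x => ∃ h ∈ H, h.1 = x) (2 ^ a))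
    (hHB : Few (fun y => ∃ h ∈ H, h.2 = y) (2 ^ b)) :
    ∃ T : Finset (A × B × Q), (∀ t ∈ T, (t.1, t.2.1) ∈ Ed) ∧
      2 ^ (g + e) ≤ 72 * (e + 1) ^ 2 * T.card ∧ T.card ≤ 2 ^ (g + e) ∧
      Few (fun z : A × Q => ∃ t ∈ T, (t.1, t.2.2) = z) (2 ^ (g + a + 1)) ∧
      Few (fun z : B × Q => ∃ t ∈ T, (t.2.1, t.2.2) = z) (2 ^ (g + b + 1)) ∧
      ∀ t ∈ T, Few (fun t' => t' ∈ T ∧ t'.2.2 = t.2.2) (2 ^ e) ∧
        Few (fun t' => t' ∈ T ∧ t'.1 = t.1 ∧ t'.2.1 = t.2.1) (2 ^ (g + e - N + r + 4)) ∧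
        Few (fun t' => t' ∈ T ∧ t'.1 = t.1 ∧ t'.2.2 = t.2.2) (2 ^ (e - a + r + 4)) ∧
        Few (fun t' => t' ∈ T ∧ t'.2.1 = t.2.1 ∧ t'.2.2 = t.2.2) (2 ^ (e - b + r + 4)) := by
  classical
  obtain ⟨Cc, _, c, H1, s1, n1, l1, f1⟩ := side H Prod.fst Prod.snd
    (fun h h' e1 e2 => Prod.ext e1 e2) a e hae hHc.le hHA
  obtain ⟨Cd, _, d, H2, s2, n2, l2, f2⟩ := side H1 Prod.snd Prod.fst
    (fun h h' e1 e2 => Prod.ext e2 e1) b e hbe ((card_le_card s1).trans hHc.le)
    (hHB.mono (fun y ⟨h, hh, e1⟩ => ⟨h, s1 hh, e1⟩) le_rfl)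
  have hH2 : H2.card ≤ 2 ^ e := (card_le_card (s2.trans s1)).trans hHc.le
  have hH2E : H2 ⊆ Ed := (s2.trans s1).trans hH
  let cell : Q × (A × B) → Q × Cc × Cd := fun i => (i.1, c i.2.2, d i.2.1)
  let I : Finset (Q × (A × B)) := univ ×ˢ H2
  have hI : ∀ i, i ∈ I ↔ i.2 ∈ H2 := fun i => by simp [I]
  have hIc : I.card = 2 ^ g * H2.card := by rw [card_product, card_univ, hQ]
  let Iq : Q → Finset (Q × (A × B)) := fun q => {q} ×ˢ H2
  have hIq : ∀ q i, i ∈ Iq q ↔ i.1 = q ∧ i.2 ∈ H2 := fun q i => by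
    simp only [Iq, mem_product, mem_singleton]
  have hIqc : ∀ q, (Iq q).card = H2.card := fun q => by simp [Iq]
  let f : Fin 4 → (Q × Cc × Cd → G) → Q × (A × B) → ℕ := fun j γ i =>
    ![((Iq i.1).filter fun i' => cell i' ≠ cell i ∧
        γ (cell i') • i'.2.1 = γ (cell i) • i.2.1).card,
      ((Iq i.1).filter fun i' => cell i' ≠ cell i ∧
        γ (cell i') • i'.2.2 = γ (cell i) • i.2.2).card,
      (I.filter fun i' => cell i' ≠ cell i ∧ γ (cell i') • i'.2 = γ (cell i) • i.2).card,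
      ((Iq i.1).filter fun i' => cell i' ≠ cell i ∧
        γ (cell i') • i'.2 = γ (cell i) • i.2).card] j
  let M : Fin 4 → ℕ := ![2 ^ (e - a + r), 2 ^ (e - b + r), 2 ^ (g + e - N + r), 1]
  obtain ⟨γ, J, hJ, hJc, hf⟩ := prune (Γ := Q × Cc × Cd → G) 4 I f M
    (fun j => by fin_cases j <;> simp [M]) (fun j i hi => by
      fin_cases j
      · refine sum_coll (G := G) (S := univ) (fun _ _ _ => mem_univ _) (fun x _ y _ => hA x y)
          cell (fun i => i.2.1) (Iq i.1) (fun _ _ => mem_univ _) i (mem_univ _)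
          (2 ^ (e - a + r)) ?_
        rw [hIqc, card_univ, pow_add, mul_assoc]
        calc H2.card ≤ 2 ^ e := hH2
          _ = 2 ^ (e - a) * 2 ^ a := by rw [← pow_add]; congr 1; omega
          _ ≤ _ := Nat.mul_le_mul_left _ ha
      · refine sum_coll (G := G) (S := univ) (fun _ _ _ => mem_univ _) (fun x _ y _ => hB x y)
          cell (fun i => i.2.2) (Iq i.1) (fun _ _ => mem_univ _) i (mem_univ _)
          (2 ^ (e - b + r)) ?_
        rw [hIqc, card_univ, pow_add, mul_assoc]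
        calc H2.card ≤ 2 ^ e := hH2
          _ = 2 ^ (e - b) * 2 ^ b := by rw [← pow_add]; congr 1; omega
          _ ≤ _ := Nat.mul_le_mul_left _ hb
      · refine sum_coll (G := G) hinv htr cell (fun i => i.2) I
          (fun i hi => hH2E ((hI i).1 hi)) i (hH2E ((hI i).1 hi)) (2 ^ (g + e - N + r)) ?_
        rw [hIc, pow_add _ _ r, mul_assoc]
        calc 2 ^ g * H2.card ≤ 2 ^ g * 2 ^ e := Nat.mul_le_mul_left _ hH2
          _ = 2 ^ (g + e - N) * 2 ^ N := by rw [← pow_add, ← pow_add]; congr 1; omega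
          _ ≤ _ := Nat.mul_le_mul_left _ hE
      · refine sum_coll (G := G) hinv htr cell (fun i => i.2) (Iq i.1)
          (fun i' hi' => hH2E ((hIq _ i').1 hi').2) i (hH2E ((hI i).1 hi)) 1 ?_
        rw [hIqc, one_mul]
        exact card_le_card hH2E)
  let Φ : Q × (A × B) → A × B × Q := fun i => (γ (cell i) • i.2.1, γ (cell i) • i.2.2, i.1)
  have hJ2 : ∀ i ∈ J, i.2 ∈ H2 := fun i hi => (hI i).1 (hJ hi)
  have same : ∀ i i' : Q × (A × B), cell i' = cell i →
      γ (cell i') • i'.2 = γ (cell i) • i.2 → i' = i := by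
    intro i i' h1 h2
    rw [h1] at h2
    exact Prod.ext (congrArg (fun z : Q × Cc × Cd => z.1) h1) (MulAction.injective _ h2)
  have hp : ∀ k : ℕ, 0 < 2 ^ k := fun k => by positivity
  refine ⟨J.image Φ, ?_, ?_, ?_, ?_, ?_, ?_⟩
  · intro t ht
    obtain ⟨i, hi, rfl⟩ := mem_image.1 ht
    exact hinv (γ (cell i)) i.2 (hH2E (hJ2 i hi))
  · have h9 : J.card ≤ 9 * (J.image Φ).card := by
      refine card_le_mul_card_image J 9 fun t ht => ?_
      obtain ⟨i, hi, rfl⟩ := mem_image.1 ht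
      obtain ⟨s, hs1, hs2⟩ := (few_eq i).or (few_mem ((Iq i.1).filter fun i' =>
        cell i' ≠ cell i ∧ γ (cell i') • i'.2 = γ (cell i) • i.2))
      have h3 : ((Iq i.1).filter fun i' =>
        cell i' ≠ cell i ∧ γ (cell i') • i'.2 = γ (cell i) • i.2).card ≤ 2 * 4 * 1 := hf 3 i hi
      refine (card_le_card fun i' hi' => hs2 i' ?_).trans (by omega)
      obtain ⟨j1, j2⟩ := mem_filter.1 hi'
      have j3 : γ (cell i') • i'.2 = γ (cell i) • i.2 :=
        Prod.ext (congrArg (fun z : A × B × Q => z.1) j2)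
          (congrArg (fun z : A × B × Q => z.2.1) j2)
      by_cases hc : cell i' = cell i
      · exact Or.inl (same i i' hc j3)
      · exact Or.inr (mem_filter.2
          ⟨(hIq _ _).2 ⟨congrArg (fun z => z.2.2) j2, hJ2 i' j1⟩, hc, j3⟩)
    calc 2 ^ (g + e) = 2 ^ g * H.card := by rw [pow_add, hHc]
      _ ≤ 2 ^ g * (2 * (e + 1) * (2 * (e + 1) * H2.card)) :=
          Nat.mul_le_mul_left _ (n1.trans (Nat.mul_le_mul_left _ n2))
      _ = 4 * (e + 1) ^ 2 * I.card := by rw [hIc]; ring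
      _ ≤ 4 * (e + 1) ^ 2 * (2 * (9 * (J.image Φ).card)) :=
          Nat.mul_le_mul_left _ (hJc.trans (Nat.mul_le_mul_left _ h9))
      _ = _ := by ring
  · refine card_image_le.trans ((card_le_card hJ).trans ?_)
    rw [hIc, pow_add]
    exact Nat.mul_le_mul_left _ hH2
  · refine (((few_mem (univ : Finset Q)).prod l1).map
      (fun z => (γ (z.1, z.2.2, d z.2.1) • z.2.1, z.1)) ?_).mono (fun _ h => h) ?_
    · rintro _ ⟨_, ht, rfl⟩
      obtain ⟨i, hi, rfl⟩ := mem_image.1 ht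
      exact ⟨(i.1, i.2.1, c i.2.2), ⟨mem_univ _, i.2, s2 (hJ2 i hi), rfl⟩, rfl⟩
    · rw [card_univ, hQ, ← pow_add, add_assoc]
  · refine (((few_mem (univ : Finset Q)).prod l2).map
      (fun z => (γ (z.1, c z.2.1, z.2.2) • z.2.1, z.1)) ?_).mono (fun _ h => h) ?_
    · rintro _ ⟨_, ht, rfl⟩
      obtain ⟨i, hi, rfl⟩ := mem_image.1 ht
      exact ⟨(i.1, i.2.2, d i.2.1), ⟨mem_univ _, i.2, hJ2 i hi, rfl⟩, rfl⟩
    · rw [card_univ, hQ, ← pow_add, add_assoc]
  · intro t ht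
    obtain ⟨i, hi, rfl⟩ := mem_image.1 ht
    refine ⟨?_, ?_, ?_, ?_⟩
    · refine ((few_mem (Iq i.1)).map Φ ?_).mono (fun _ h => h) ((hIqc _).trans_le hH2)
      rintro _ ⟨ht', h2⟩
      obtain ⟨i', hi', rfl⟩ := mem_image.1 ht'
      exact ⟨i', (hIq _ _).2 ⟨h2, hJ2 i' hi'⟩, rfl⟩
    · have h3 : (I.filter fun i' => cell i' ≠ cell i ∧
          γ (cell i') • i'.2 = γ (cell i) • i.2).card ≤ 2 * 4 * 2 ^ (g + e - N + r) := hf 2 i hi
      refine (((few_eq i).or (few_mem (I.filter fun i' => cell i' ≠ cell i ∧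
        γ (cell i') • i'.2 = γ (cell i) • i.2))).map Φ ?_).mono (fun _ h => h) ?_
      · rintro _ ⟨ht', h1, h2⟩
        obtain ⟨i', hi', rfl⟩ := mem_image.1 ht'
        have j3 : γ (cell i') • i'.2 = γ (cell i) • i.2 := Prod.ext h1 h2
        refine ⟨i', ?_, rfl⟩
        by_cases hc : cell i' = cell i
        · exact Or.inl (same i i' hc j3)
        · exact Or.inr (mem_filter.2 ⟨hJ hi', hc, j3⟩)
      · have := hp (g + e - N + r)
        rw [pow_add _ _ 4]
        omega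
    · have h3 : ((Iq i.1).filter fun i' => cell i' ≠ cell i ∧
          γ (cell i') • i'.2.1 = γ (cell i) • i.2.1).card ≤ 2 * 4 * 2 ^ (e - a + r) := hf 0 i hi
      refine (((((few_eq i.1).prod (f1 i.2 (s2 (hJ2 i hi))))).or
        (few_mem ((Iq i.1).filter fun i' => cell i' ≠ cell i ∧
          γ (cell i') • i'.2.1 = γ (cell i) • i.2.1))).map Φ ?_).mono (fun _ h => h) ?_
      · rintro _ ⟨ht', h1, h2⟩
        obtain ⟨i', hi', rfl⟩ := mem_image.1 ht'
        refine ⟨i', ?_, rfl⟩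
        by_cases hc : cell i' = cell i
        · refine Or.inl ⟨h2, s2 (hJ2 i' hi'), ?_, congrArg (fun z => z.2.1) hc⟩
          have h4 : γ (cell i') • i'.2.1 = γ (cell i) • i.2.1 := h1
          rw [hc] at h4
          exact MulAction.injective _ h4
        · exact Or.inr (mem_filter.2 ⟨(hIq _ _).2 ⟨h2, hJ2 i' hi'⟩, hc, h1⟩)
      · have e1 : 2 ^ (e - a) ≤ 2 ^ (e - a + r) := Nat.pow_le_pow_right (by norm_num) (by omega)
        rw [pow_add _ _ 4, pow_add _ _ 2]
        omega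
    · have h3 : ((Iq i.1).filter fun i' => cell i' ≠ cell i ∧
          γ (cell i') • i'.2.2 = γ (cell i) • i.2.2).card ≤ 2 * 4 * 2 ^ (e - b + r) := hf 1 i hi
      refine (((((few_eq i.1).prod (f2 i.2 (hJ2 i hi)))).or
        (few_mem ((Iq i.1).filter fun i' => cell i' ≠ cell i ∧
          γ (cell i') • i'.2.2 = γ (cell i) • i.2.2))).map Φ ?_).mono (fun _ h => h) ?_
      · rintro _ ⟨ht', h1, h2⟩
        obtain ⟨i', hi', rfl⟩ := mem_image.1 ht'
        refine ⟨i', ?_, rfl⟩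
        by_cases hc : cell i' = cell i
        · refine Or.inl ⟨h2, hJ2 i' hi', ?_, congrArg (fun z => z.2.2) hc⟩
          have h4 : γ (cell i') • i'.2.2 = γ (cell i) • i.2.2 := h1
          rw [hc] at h4
          exact MulAction.injective _ h4
        · exact Or.inr (mem_filter.2 ⟨(hIq _ _).2 ⟨h2, hJ2 i' hi'⟩, hc, h1⟩)
      · have e1 : 2 ^ (e - b) ≤ 2 ^ (e - b + r) := Nat.pow_le_pow_right (by norm_num) (by omega)
        rw [pow_add _ _ 4, pow_add _ _ 2]
        omega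

end Pool.Agent.P.MP_b3bbc0_lc
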