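import Mathlib

namespace Pool.Agent.P.MP_b3bbc0_lc

/-- `D` is an optimal decompressor: a computable map, not necessarily total, from binary programs
to (numbers of) finite objects that is as good as any other such map up to an additive constant. -/
def IsOptimal (D : List Bool →. ℕ) : Prop :=
  Partrec D ∧ ∀ D' : List Bool →. ℕ, Partrec D' →
    ∃ c : ℕ, ∀ p x, x ∈ D' p → ∃ p', x ∈ D p' ∧ p'.length ≤ p.length + c

/-- Plain Kolmogorov complexity of a finite object with respect to the decompressor `D`. -/
noncomputable def C (D : List Bool →. ℕ) {α : Type} [Encodable α] (a : α) : ℕ :=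
  sInf {n | ∃ p : List Bool, p.length = n ∧ Encodable.encode a ∈ D p}

/-- The complexity profile of a triple. -/
noncomputable def profile (D : List Bool →. ℕ) {α β γ : Type} [Encodable α] [Encodable β]
    [Encodable γ] (x : α) (y : β) (q : γ) : Fin 7 → ℕ :=
  ![C D x, C D y, C D q, C D (x, y), C D (x, q), C D (y, q), C D (x, y, q)]

/-- Incidence in the affine plane: `inl (k, c)` is the line `b = k a + c`, and `inr c` is the
vertical line `a = c`. -/
def Incident {F : Type} [Field F] : (F × F) ⊕ F → F × F → Prop
  | Sum.inl (k, c), (a, b) => b = k * a + c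
  | Sum.inr c, (a, _) => a = c

end Pool.Agent.P.MP_b3bbc0_lc
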