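import Pool.Agent.P.MP_b3bbc0_lc.Defs

namespace Pool.Agent.P.MP_b3bbc0_lc

/-- Some set of at most `2 ^ a` lines and some set of at most `2 ^ b` points have at least `2 ^ e`
incidences. -/
def DenseRect (F : Type) [Field F] (a b e : ℕ) : Prop :=
  ∃ (A : Finset ((F × F) ⊕ F)) (B : Finset (F × F)) (H : Finset (((F × F) ⊕ F) × (F × F))),
    A.card ≤ 2 ^ a ∧ B.card ≤ 2 ^ b ∧ 2 ^ e ≤ H.card ∧
      ∀ h ∈ H, h.1 ∈ A ∧ h.2 ∈ B ∧ Incident h.1 h.2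

/-- The admissible parameters. -/
def Feasible (F : Type) [Field F] (n a b e g : ℕ) : Prop :=
  a ≤ e ∧ b ≤ e ∧ a ≤ 2 * n ∧ b ≤ 2 * n ∧ 3 * n ≤ g + e ∧ DenseRect F a b e

/-- The profile with `C(q) = g`, `C(ℓ,q) = g + a`, `C(p,q) = g + b`, `C(ℓ,p,q) = g + e`. -/
def target (n a b e g : ℕ) : Fin 7 → ℕ := ![2 * n, 2 * n, g, 3 * n, g + a, g + b, g + e]

end Pool.Agent.P.MP_b3bbc0_lc
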