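import Pool.Agent.P.MP_b3bbc0_lc.Reg
import Pool.Agent.P.MP_b3bbc0_lc.Defs2

/-! Random edges, and the parameters of a given string. -/

namespace Pool.Agent.P.MP_b3bbc0_lc

open Encodable

lemma pow_le_of_log {N r s : ℕ} (hs : 0 < s) (h : N ≤ r + Nat.log 2 s) : 2 ^ N ≤ 2 ^ r * s :=
  calc 2 ^ N ≤ 2 ^ (r + Nat.log 2 s) := Nat.pow_le_pow_right (by norm_num) h
    _ = 2 ^ r * 2 ^ Nat.log 2 s := pow_add _ _ _
    _ ≤ _ := Nat.mul_le_mul_left _ (Nat.pow_log_le_self 2 hs.ne')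

lemma half {η A : Type} (π : η → A) (a e j : ℕ) (H : Finset η) (hH : 2 ^ e ≤ H.card)
    (hA : Few (fun x => ∃ h ∈ H, π h = x) (2 ^ a)) :
    ∃ H' ⊆ H, 2 ^ (e - j) ≤ H'.card ∧ Few (fun x => ∃ h ∈ H', π h = x) (2 ^ (a - j)) := by
  classical
  induction j with
  | zero => exact ⟨H, Finset.Subset.rfl, hH, hA⟩
  | succ j ih =>
    obtain ⟨H1, s1, c1, s, hs1, hs2⟩ := ih
    have hp : 2 * 2 ^ (e - (j + 1)) ≤ 2 ^ (e - j) + 1 := by
      rcases Nat.eq_zero_or_pos (e - j) with h | h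
      · rw [h, show e - (j + 1) = 0 by omega]; norm_num
      · rw [show e - j = e - (j + 1) + 1 by omega, pow_succ]; omega
    have hq : 2 ^ (a - j) ≤ 2 * 2 ^ (a - (j + 1)) := by
      rw [← pow_succ']
      exact Nat.pow_le_pow_right (by norm_num) (by omega)
    obtain ⟨t, ht1, ht2⟩ := Finset.exists_subset_card_eq
      (s := s) (n := min s.card (2 ^ (a - (j + 1)))) (min_le_left _ _)
    have e2 := Finset.card_filter_add_card_filter_not (s := H1) (fun h => π h ∈ t)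
    rcases le_or_gt (2 ^ (e - (j + 1))) (H1.filter fun h => π h ∈ t).card with h | h
    · refine ⟨_, (Finset.filter_subset _ _).trans s1, h, t, ht2.trans_le (min_le_right _ _), ?_⟩
      rintro _ ⟨h', hh, rfl⟩
      exact (Finset.mem_filter.1 hh).2
    · refine ⟨H1.filter fun h => π h ∉ t, (Finset.filter_subset _ _).trans s1, by omega,
        s \ t, ?_, ?_⟩
      · rw [Finset.card_sdiff_of_subset ht1, ht2]
        omega
      · rintro _ ⟨h', hh, rfl⟩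
        exact Finset.mem_sdiff.2 ⟨hs2 _ ⟨h', (Finset.mem_filter.1 hh).1, rfl⟩,
          (Finset.mem_filter.1 hh).2⟩

variable {X Y Q : Type} [Primcodable X] [Primcodable Y] [Primcodable Q]

/-- The data of a simple bipartite graph with the sizes of the affine plane. -/
structure Plane {A B : Type} [Fintype A] [Fintype B] (ι : A → X) (ν : B → Y)
    (Ed : Finset (A × B)) (E : List (X × Y)) (n D : ℕ) : Prop where
  hι : Function.Injective ι
  hν : Function.Injective ν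
  hE : ∀ e, e ∈ E ↔ ∃ ab ∈ Ed, (ι ab.1, ν ab.2) = e
  hK : K E () ≤ D
  hn : n ≤ 2 ^ D
  hA : Fintype.card A ≤ 2 ^ (2 * n + D)
  hB : Fintype.card B ≤ 2 ^ (2 * n + D)
  hEd : Ed.card ≤ 2 ^ (3 * n + D)
  dA : ∀ x, Few (fun y => (x, y) ∈ Ed) (2 ^ (n + D))
  dB : ∀ y, Few (fun x => (x, y) ∈ Ed) (2 ^ (n + D))

lemma edge_bounds : ∃ c, ∀ (A B : Type) [Fintype A] [Fintype B] (ι : A → X) (ν : B → Y)
    (Ed : Finset (A × B)) (E : List (X × Y)) (n D : ℕ), Plane ι ν Ed E n D →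
    ∀ e ∈ Ed, 3 * n ≤ K (ι e.1, ν e.2) () + D →
    (K (ι e.1) () ≤ 2 * n + (20 * D + c) ∧ 2 * n ≤ K (ι e.1) () + (20 * D + c)) ∧
    (K (ν e.2) () ≤ 2 * n + (20 * D + c) ∧ 2 * n ≤ K (ν e.2) () + (20 * D + c)) ∧
    K (ι e.1, ν e.2) () ≤ 3 * n + (20 * D + c) ∧
    2 ^ (2 * n) ≤ 2 ^ (20 * D + c) * Fintype.card A ∧
    2 ^ (2 * n) ≤ 2 ^ (20 * D + c) * Fintype.card B ∧
    2 ^ (3 * n) ≤ 2 ^ (20 * D + c) * Ed.card := by
  obtain ⟨c1, h1⟩ := K_img (Prod.fst : X × Y → X) Primrec.fst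
  obtain ⟨c2, h2⟩ := K_img (Prod.snd : X × Y → Y) Primrec.snd
  obtain ⟨c3, h3⟩ := K_img (id : X × Y → X × Y) Primrec.id
  obtain ⟨c4, h4⟩ := K_fib (Prod.fst : X × Y → X) Primrec.fst
  obtain ⟨c5, h5⟩ := K_fib (Prod.snd : X × Y → Y) Primrec.snd
  refine ⟨10 * (c1 + c2 + c3 + c4 + c5 + 10), ?_⟩
  intro A B _ _ ι ν Ed E n D P e he hr
  have hm : (ι e.1, ν e.2) ∈ E := (P.hE _).2 ⟨e, he, rfl⟩
  have hK := P.hK
  have hn := P.hn
  have fA : Few (fun z => ∃ t ∈ E, Prod.fst t = z) (Fintype.card A) :=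
    (few_mem (Finset.univ : Finset A)).map ι (by
      rintro _ ⟨t, ht, rfl⟩
      obtain ⟨ab, -, rfl⟩ := (P.hE t).1 ht
      exact ⟨ab.1, Finset.mem_univ _, rfl⟩)
  have fB : Few (fun z => ∃ t ∈ E, Prod.snd t = z) (Fintype.card B) :=
    (few_mem (Finset.univ : Finset B)).map ν (by
      rintro _ ⟨t, ht, rfl⟩
      obtain ⟨ab, -, rfl⟩ := (P.hE t).1 ht
      exact ⟨ab.2, Finset.mem_univ _, rfl⟩)
  have fE : Few (fun z => ∃ t ∈ E, id t = z) Ed.card :=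
    (few_mem Ed).map (fun ab => (ι ab.1, ν ab.2)) (by
      rintro _ ⟨t, ht, rfl⟩
      exact (P.hE t).1 ht)
  have lg : ∀ s : ℕ, s ≤ 2 ^ (Nat.log 2 s + 1) := fun s =>
    (Nat.lt_pow_succ_log_self (by norm_num) s).le
  have a1 := h1 E _ _ hm (fA.mono (fun _ h => h) P.hA)
  have a2 := h2 E _ _ hm (fB.mono (fun _ h => h) P.hB)
  have a3 := h3 E _ _ hm (fE.mono (fun _ h => h) P.hEd)
  have b1 := h1 E _ _ hm (fA.mono (fun _ h => h) (lg _))
  have b2 := h2 E _ _ hm (fB.mono (fun _ h => h) (lg _))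
  have b3 := h3 E _ _ hm (fE.mono (fun _ h => h) (lg _))
  simp only [id] at a1 a2 a3 b1 b2 b3
  have hD : D < 2 ^ D := Nat.lt_two_pow_self
  have hpow : 2 ^ (D + 3) = 8 * 2 ^ D := by ring
  have d1 := h4 E (ι e.1, ν e.2) (n + D) (D + 3 + (c1 + 1)) hm
    ((P.dA e.1).map (fun y => (ι e.1, ν y)) (by
      rintro t ⟨ht, h⟩
      obtain ⟨ab, hab, rfl⟩ := (P.hE t).1 ht
      have : ab.1 = e.1 := P.hι h
      exact ⟨ab.2, this ▸ hab, by rw [this]⟩))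
    (le_two_pow_add (y := 2 ^ (D + 3)) (by simp only; omega) le_rfl)
  have d2 := h5 E (ι e.1, ν e.2) (n + D) (D + 3 + (c2 + 1)) hm
    ((P.dB e.2).map (fun x => (ι x, ν e.2)) (by
      rintro t ⟨ht, h⟩
      obtain ⟨ab, hab, rfl⟩ := (P.hE t).1 ht
      have : ab.2 = e.2 := P.hν h
      exact ⟨ab.1, this ▸ hab, by rw [this]⟩))
    (le_two_pow_add (y := 2 ^ (D + 3)) (by simp only; omega) le_rfl)
  simp only at d1 d2
  refine ⟨⟨by omega, by omega⟩, ⟨by omega, by omega⟩, by omega,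
    pow_le_of_log (Fintype.card_pos_iff.2 ⟨e.1⟩) (by omega),
    pow_le_of_log (Fintype.card_pos_iff.2 ⟨e.2⟩) (by omega),
    pow_le_of_log (Finset.card_pos.2 ⟨e, he⟩) (by omega)⟩

lemma K_two : ∃ c, ∀ (v : X) (q : Q) (d : ℕ), K v () ≤ 2 ^ d → K q () ≤ 2 ^ d →
    K (v, q) () ≤ K q () + K v q + 8 * d + c ∧ K q () + K v q ≤ K (v, q) () + 8 * d + c := by
  obtain ⟨c1, h1⟩ := K_pair_le (α := Q) (β := X)
  obtain ⟨c2, h2⟩ := le_K_pair (α := Q) (β := X)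
  obtain ⟨c3, h3⟩ := K_pair (α := X) (γ := Q) (β := Unit)
  obtain ⟨c4, h4⟩ := K_map (β := Unit) (fun z : Q × X => (z.2, z.1))
    (Primrec.snd.pair Primrec.fst)
  obtain ⟨c5, h5⟩ := K_map (β := Unit) (fun z : X × Q => (z.2, z.1))
    (Primrec.snd.pair Primrec.fst)
  refine ⟨20 * (c1 + c2 + c3 + c4 + c5 + 10), fun v q d hv hq => ?_⟩
  have a1 := h1 q v d hq
  have a3 := h3 v q ()
  have hpow : 2 ^ (d + 2) = 4 * 2 ^ d := by ring
  have a2 := h2 q v (d + 2 + (c3 + 1)) (le_two_pow_add (y := 2 ^ (d + 2)) (by omega) le_rfl)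
  have a4 := h4 (q, v) ()
  have a5 := h5 (v, q) ()
  simp only at a4 a5
  constructor <;> omega

lemma forward : ∃ c, ∀ (A B : Type) [Fintype A] [Fintype B] (ι : A → X) (ν : B → Y)
    (Ed : Finset (A × B)) (E : List (X × Y)) (n D : ℕ), Plane ι ν Ed E n D →
    ∀ e0 ∈ Ed, 3 * n ≤ K (ι e0.1, ν e0.2) () + D → ∀ q : Q, K q () ≤ 2 ^ D →
    ∃ a b e g : ℕ, a ≤ e ∧ b ≤ e ∧ a ≤ 2 * n ∧ b ≤ 2 * n ∧ 3 * n ≤ g + e ∧
      (∃ H ⊆ Ed, 2 ^ e ≤ H.card ∧ Few (fun x => ∃ h ∈ H, h.1 = x) (2 ^ a) ∧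
        Few (fun y => ∃ h ∈ H, h.2 = y) (2 ^ b)) ∧
      ∀ i, K (pr i (ι e0.1, ν e0.2, q)) () ≤ target n a b e g i + 200 * D + c ∧
        target n a b e g i ≤ K (pr i (ι e0.1, ν e0.2, q)) () + 200 * D + c := by
  classical
  have S1 : Sig fun z : ((List (X × Y) × ℕ × ℕ) × Q) × (X × Y) =>
      z.2 ∈ z.1.1.1 ∧ K z.2.1 z.1.2 ≤ z.1.1.2.1 ∧ K z.2.2 z.1.2 ≤ z.1.1.2.2 :=
    (Sig.of_primrec (primrecRel_mem.comp Primrec.snd
      (Primrec.fst.comp (Primrec.fst.comp Primrec.fst)))).and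
      ((Sig.K_le' (Primrec.fst.comp Primrec.snd) (Primrec.snd.comp Primrec.fst)
        (Primrec.fst.comp (Primrec.snd.comp (Primrec.fst.comp Primrec.fst)))).and
      (Sig.K_le' (Primrec.snd.comp Primrec.snd) (Primrec.snd.comp Primrec.fst)
        (Primrec.snd.comp (Primrec.snd.comp (Primrec.fst.comp Primrec.fst)))))
  obtain ⟨c0, h0⟩ := edge_bounds (X := X) (Y := Y)
  obtain ⟨c1, h1⟩ := S1.K_le_log
  obtain ⟨c2, h2⟩ := K_chain (α := X × Y) (γ := List (X × Y) × ℕ × ℕ) (β := Q)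
  obtain ⟨c3, h3⟩ := K_cond (α := List (X × Y) × ℕ × ℕ) (fun _ : Q => ()) (Primrec.const ())
  obtain ⟨c4, h4⟩ := K_pair (α := ℕ × ℕ) (γ := List (X × Y)) (β := Unit)
  obtain ⟨c5, h5⟩ := K_pair (α := ℕ) (γ := ℕ) (β := Unit)
  obtain ⟨c6, h6⟩ := K_nat (β := Unit)
  obtain ⟨c7, h7⟩ := K_cond (α := X) (fun _ : Q => ()) (Primrec.const ())
  obtain ⟨c8, h8⟩ := K_cond (α := Y) (fun _ : Q => ()) (Primrec.const ())
  obtain ⟨c9, h9⟩ := K_two (X := X) (Q := Q)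
  obtain ⟨c10, h10⟩ := K_two (X := Y) (Q := Q)
  obtain ⟨c11, h11⟩ := K_two (X := X × Y) (Q := Q)
  obtain ⟨c12, h12⟩ := K_map (β := Q) (Prod.fst : X × Y → X) Primrec.fst
  obtain ⟨c13, h13⟩ := K_map (β := Q) (Prod.snd : X × Y → Y) Primrec.snd
  obtain ⟨c14, h14⟩ := K_map (β := Unit) (Prod.fst : (X × Y) × Q → X × Y) Primrec.fst
  obtain ⟨c15, h15⟩ := K_map (β := Unit) (fun z : (X × Y) × Q => (z.1.1, z.1.2, z.2))
    ((Primrec.fst.comp Primrec.fst).pair ((Primrec.snd.comp Primrec.fst).pair Primrec.snd))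
  obtain ⟨c16, h16⟩ := K_map (β := Unit) (fun z : X × Y × Q => ((z.1, z.2.1), z.2.2))
    ((Primrec.fst.pair (Primrec.fst.comp Primrec.snd)).pair (Primrec.snd.comp Primrec.snd))
  set B0 := c0 + c1 + c2 + c3 + c4 + c5 + c6 + c7 + c8 + c9 + c10 + c11 + c12 + c13 + c14 +
    c15 + c16 + 10 with hB0
  refine ⟨100 * B0, ?_⟩
  intro A B _ _ ι ν Ed E n D P e0 he0 hr q hq
  obtain ⟨⟨a1, a2⟩, ⟨a3, a4⟩, a5, -⟩ := h0 A B ι ν Ed E n D P e0 he0 hr
  have hK := P.hK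
  have hn := P.hn
  set x := ι e0.1 with hx
  set y := ν e0.2 with hy
  set α := K x q with hα
  set β := K y q with hβ
  let H := Ed.filter fun h => K (ι h.1) q ≤ α ∧ K (ν h.2) q ≤ β
  have hH0 : e0 ∈ H := Finset.mem_filter.2 ⟨he0, le_rfl, le_rfl⟩
  have hpos : 0 < H.card := Finset.card_pos.2 ⟨e0, hH0⟩
  set m := Nat.log 2 H.card with hm
  have hm1 : 2 ^ m ≤ H.card := Nat.pow_log_le_self 2 hpos.ne'
  have hm2 : H.card < 2 ^ (m + 1) := Nat.lt_pow_succ_log_self (by norm_num) _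
  have fA : Few (fun x => ∃ h ∈ H, h.1 = x) (2 ^ (α + 1)) := by
    refine ⟨Finset.univ.filter fun a => K (ι a) q ≤ α, ?_, ?_⟩
    · rw [← Finset.card_image_of_injective _ P.hι]
      refine (card_lt_of_K_le q α _ fun z hz => ?_).le
      obtain ⟨a, ha, rfl⟩ := Finset.mem_image.1 hz
      exact (Finset.mem_filter.1 ha).2
    · rintro _ ⟨h, hh, rfl⟩
      exact Finset.mem_filter.2 ⟨Finset.mem_univ _, (Finset.mem_filter.1 hh).2.1⟩
  have fB : Few (fun y => ∃ h ∈ H, h.2 = y) (2 ^ (β + 1)) := by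
    refine ⟨Finset.univ.filter fun b => K (ν b) q ≤ β, ?_, ?_⟩
    · rw [← Finset.card_image_of_injective _ P.hν]
      refine (card_lt_of_K_le q β _ fun z hz => ?_).le
      obtain ⟨a, ha, rfl⟩ := Finset.mem_image.1 hz
      exact (Finset.mem_filter.1 ha).2
    · rintro _ ⟨h, hh, rfl⟩
      exact Finset.mem_filter.2 ⟨Finset.mem_univ _, (Finset.mem_filter.1 hh).2.2⟩
  have b1 := h1 ((E, α, β), q) (x, y) (H.image fun h => (ι h.1, ν h.2)) (m + 1)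
    ⟨(P.hE _).2 ⟨e0, he0, rfl⟩, le_rfl, le_rfl⟩ (by
      rintro t ⟨t1, t2, t3⟩
      obtain ⟨ab, hab, rfl⟩ := (P.hE t).1 t1
      exact Finset.mem_image.2 ⟨ab, Finset.mem_filter.2 ⟨hab, t2, t3⟩, rfl⟩)
    (Finset.card_image_le.trans hm2.le)
  have b2 := h2 (x, y) (E, α, β) q
  have b3 := h3 (E, α, β) q
  have b4 := h4 (α, β) E ()
  have b5 := h5 β α ()
  have b7 := h7 x q
  have b8 := h8 y q
  have hD : D < 2 ^ D := Nat.lt_two_pow_self
  have hpow : 2 ^ (D + 5) = 32 * 2 ^ D := by ring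
  have big : ∀ v, v ≤ 3 * n + 20 * D + B0 + 2 ^ D → v ≤ 2 ^ (D + 5 + (B0 + 1)) := fun v hv =>
    le_two_pow_add (y := 2 ^ (D + 5)) (by clear * - hv hD hpow hn; omega) le_rfl
  have u1 : α ≤ 2 * n + 20 * D + B0 - 1 := by clear * - b7 a1 hB0; omega
  have u2 : β ≤ 2 * n + 20 * D + B0 - 1 := by clear * - b8 a3 hB0; omega
  have u0 : 10 ≤ B0 := by clear * - hB0; omega
  have z1 : α ≤ 3 * n + 20 * D + B0 + 2 ^ D := by clear * - hD u1; omega
  have z2 : β ≤ 3 * n + 20 * D + B0 + 2 ^ D := by clear * - hD u2; omega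
  have z3 : K q () ≤ 3 * n + 20 * D + B0 + 2 ^ D := by clear * - hq; omega
  have z4 : K x () ≤ 3 * n + 20 * D + B0 + 2 ^ D := by clear * - hD a1 hB0; omega
  have z5 : K y () ≤ 3 * n + 20 * D + B0 + 2 ^ D := by clear * - hD a3 hB0; omega
  have z6 : K (x, y) () ≤ 3 * n + 20 * D + B0 + 2 ^ D := by clear * - hD a5 hB0; omega
  have b6 := h6 α _ () (big α z1)
  have b6' := h6 β _ () (big β z2)
  have hq' := big _ z3
  obtain ⟨b9, b9'⟩ := h9 x q _ (big _ z4) hq'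
  obtain ⟨b10, b10'⟩ := h10 y q _ (big _ z5) hq'
  obtain ⟨b11, b11'⟩ := h11 (x, y) q _ (big _ z6) hq'
  have b12 := h12 (x, y) q
  have b13 := h13 (x, y) q
  have b14 := h14 ((x, y), q) ()
  have b15 := h15 ((x, y), q) ()
  have b16 := h16 (x, y, q) ()
  simp only at b12 b13 b14 b15 b16
  have u3 : K (x, y) q ≤ m + 10 * D + 20 * B0 := by
    clear * - b1 b2 b3 b4 b5 b6 b6' hK hB0; omega
  have u4 : α ≤ K (x, y) q + B0 := by clear * - b12 hB0 hα; omega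
  have u5 : β ≤ K (x, y) q + B0 := by clear * - b13 hB0 hβ; omega
  have u6 : 3 * n ≤ K q () + K (x, y) q + 9 * D + 20 * B0 := by
    clear * - hr b14 b11 hB0; omega
  have u7 : K (x, q) () ≤ K q () + α + 8 * D + 20 * B0 := by clear * - b9 hB0 hα; omega
  have u7' : K q () + α ≤ K (x, q) () + 8 * D + 20 * B0 := by clear * - b9' hB0 hα; omega
  have u8 : K (y, q) () ≤ K q () + β + 8 * D + 20 * B0 := by clear * - b10 hB0 hβ; omega
  have u8' : K q () + β ≤ K (y, q) () + 8 * D + 20 * B0 := by clear * - b10' hB0 hβ; omega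
  have u9 : K (x, y, q) () ≤ K q () + K (x, y) q + 8 * D + 20 * B0 := by
    clear * - b11 b15 hB0; omega
  have u9' : K q () + K (x, y) q ≤ K (x, y, q) () + 8 * D + 20 * B0 := by
    clear * - b11' b16 hB0; omega
  have v0 : c0 ≤ B0 := by clear * - hB0; omega
  clear_value B0
  set s := 20 * D + B0 with hs
  obtain ⟨H1, s1, n1, f1⟩ := half Prod.fst (α + 1) m s H hm1 fA
  obtain ⟨H2, s2, n2, f2⟩ := half Prod.snd (β + 1) (m - s) s H1 n1
    (fB.mono (fun y ⟨h, hh, e1⟩ => ⟨h, s1 hh, e1⟩) le_rfl)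
  set e := min (m - s - s) (K (x, y) q) with he
  obtain ⟨H3, s3, n3⟩ := Finset.exists_subset_card_eq (s := H2) (n := 2 ^ e)
    ((Nat.pow_le_pow_right (by norm_num) (min_le_left _ _)).trans n2)
  have e1 : e ≤ K (x, y) q := min_le_right _ _
  have e2 : K (x, y) q ≤ e + 50 * D + 22 * B0 := by clear * - u3 he hs; omega
  set a := min (α + 1 - s) e with ha
  set b := min (β + 1 - s) e with hb
  set g := max (K q ()) (3 * n - e) with hg
  have w1 : a ≤ α + 1 := by clear * - ha; omega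
  have w2 : α ≤ a + 50 * D + 23 * B0 := by clear * - ha hs e2 u4; omega
  have w3 : b ≤ β + 1 := by clear * - hb; omega
  have w4 : β ≤ b + 50 * D + 23 * B0 := by clear * - hb hs e2 u5; omega
  have w5 : K q () ≤ g := le_max_left _ _
  have w6 : g ≤ K q () + 59 * D + 42 * B0 := by clear * - hg e2 u6; omega
  refine ⟨a, b, e, g, min_le_right _ _, min_le_right _ _, by clear * - ha hs u1 u0; omega,
    by clear * - hb hs u2 u0; omega, by clear * - hg; omega,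
    ⟨H3, s3.trans (s2.trans (s1.trans (Finset.filter_subset _ _))), n3.ge, ?_, ?_⟩, fun i => ?_⟩
  · rcases le_total (α + 1 - s) e with h | h
    · rw [ha, min_eq_left h]
      exact f1.mono (fun y ⟨h, hh, e1⟩ => ⟨h, s2 (s3 hh), e1⟩) le_rfl
    · rw [ha, min_eq_right h, ← n3]
      exact (few_mem H3).map Prod.fst fun _ h => h
  · rcases le_total (β + 1 - s) e with h | h
    · rw [hb, min_eq_left h]
      exact f2.mono (fun y ⟨h, hh, e1⟩ => ⟨h, s3 hh, e1⟩) le_rfl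
    · rw [hb, min_eq_right h, ← n3]
      exact (few_mem H3).map Prod.snd fun _ h => h
  · clear_value a b g e
    clear * - a1 a2 a3 a4 a5 hr v0 u0 u7 u7' u8 u8' u9 u9' e1 e2 w1 w2 w3 w4 w5 w6
    fin_cases i <;>
      simp only [pr, target, Fin.zero_eta, Fin.mk_one, Fin.reduceFinMk, Matrix.cons_val_zero,
        Matrix.cons_val_one, Matrix.cons_val, K_encode_left] <;>
      constructor <;> omega

end Pool.Agent.P.MP_b3bbc0_lc
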