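import Pool.Agent.P.MP_b3bbc0_lc.Abstract

/-! The main theorem for edge-transitive graphs of low complexity. -/

namespace Pool.Agent.P.MP_b3bbc0_lc

open Encodable

variable {X Y Q : Type} [Primcodable X] [Primcodable Y] [Primcodable Q]
variable [DecidableEq X] [DecidableEq Y]

omit [DecidableEq X] [DecidableEq Y] in
lemma K_pr3 (x : X) (y : Y) (q : Q) : K (pr 3 (x, y, q)) () = K (x, y) () := by
  simp only [pr, Matrix.cons_val, K_encode_left]

omit [DecidableEq X] [DecidableEq Y] in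
lemma K_pr6 (τ : X × Y × Q) : K (pr 6 τ) () = K τ () := by
  simp only [pr, Matrix.cons_val, K_encode_left]

lemma exists_cert {A B G : Type} [Fintype A] [Fintype B] [DecidableEq A] [DecidableEq B]
    [Group G] [Fintype G] [MulAction G A] [MulAction G B] (ι : A → X) (ν : B → Y)
    (hι : Function.Injective ι) (hν : Function.Injective ν) (Ed : Finset (A × B))
    (hinv : ∀ (g : G), ∀ e ∈ Ed, g • e ∈ Ed) (htr : ∀ e ∈ Ed, ∀ e' ∈ Ed, ∃ g : G, g • e = e')
    (E : List (X × Y)) (hE : ∀ e, e ∈ E ↔ ∃ ab ∈ Ed, (ι ab.1, ν ab.2) = e) (hne : Ed.Nonempty)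
    (a b : Fin 7 → ℕ) (N d r : ℕ) (hN : Ed.card ≤ 2 ^ N) (hd : N ≤ 2 ^ d)
    (S : Finset (X × Y × Q)) (hS : ∀ τ ∈ S, (τ.1, τ.2.1) ∈ E ∧ InS a b τ)
    (hcard : 2 ^ (N + b 3 + 1) ≤ S.card * 2 ^ r) :
    ∃ z, Cert Q ((E, a, b), b 3 - r, r + d + 2) z := by
  classical
  have hfin : ∀ (x : X) (y : Y), {q : Q | InS a b (x, y, q)}.Finite := by
    intro x y
    refine Set.Finite.of_finite_image (f := fun q => (x, y, q))
      ((finite_K_le (α := X × Y × Q) (encode (x, y)) (b 3)).subset ?_)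
      (fun q _ q' _ h => (Prod.mk.inj (Prod.mk.inj h).2).2)
    rintro _ ⟨q, hq, rfl⟩
    exact (hq 3 (List.mem_finRange _)).2
  let sec : A × B → Finset Q := fun e => (hfin (ι e.1) (ν e.2)).toFinset
  have hsec : ∀ e q, q ∈ sec e ↔ InS a b (ι e.1, ν e.2, q) := fun e q => by simp [sec]
  have hf : ∀ e ∈ Ed, (sec e).card ≤ 2 ^ (b 3 + 1) := by
    intro e _
    have := card_lt_of_K_le (encode (ι e.1, ν e.2)) (b 3)
      ((sec e).image fun q => (ι e.1, ν e.2, q)) (by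
        intro τ hτ
        obtain ⟨q, hq, rfl⟩ := Finset.mem_image.1 hτ
        exact (((hsec e q).1 hq) 3 (List.mem_finRange _)).2)
    rw [Finset.card_image_of_injective _ (fun q q' h => (Prod.mk.inj (Prod.mk.inj h).2).2)] at this
    exact this.le
  have hSsum : S.card ≤ ∑ e ∈ Ed, (sec e).card := by
    have hsub : S ⊆ Ed.biUnion fun e => (sec e).image fun q => (ι e.1, ν e.2, q) := by
      rintro ⟨x, y, q⟩ hτ
      obtain ⟨h1, h2⟩ := hS _ hτ
      obtain ⟨ab, hab, he⟩ := (hE _).1 h1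
      obtain ⟨rfl, rfl⟩ := Prod.mk.inj he
      exact Finset.mem_biUnion.2 ⟨ab, hab, Finset.mem_image.2 ⟨q, (hsec ab q).2 h2, rfl⟩⟩
    refine (Finset.card_le_card hsub).trans (Finset.card_biUnion_le.trans ?_)
    exact Finset.sum_le_sum fun e _ => Finset.card_image_le
  have hheavy := heavy Ed (fun e => (sec e).card) (b 3) r hf (by
    calc Ed.card * 2 ^ (b 3 + 1) ≤ 2 ^ N * 2 ^ (b 3 + 1) := Nat.mul_le_mul_right _ hN
      _ = 2 ^ (N + b 3 + 1) := by ring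
      _ ≤ S.card * 2 ^ r := hcard
      _ ≤ _ := Nat.mul_le_mul_right _ hSsum)
  obtain ⟨gs, hlen, hcov⟩ := exists_cover hinv htr (Finset.filter_subset _ _) hheavy hne hN
  let tab : G → List (X × X) × List (Y × Y) := fun g =>
    (Finset.univ.toList.map fun a => (ι a, ι (g • a)),
      Finset.univ.toList.map fun b => (ν b, ν (g • b)))
  have htab : ∀ (g : G) (e : A × B), app (tab g) (ι e.1, ν e.2) = (ι (g • e).1, ν (g • e).2) := by
    intro g e
    simp only [app, tab]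
    rw [fw_table ι hι (fun a => g • a) _ e.1 (by simp), fw_table ν hν (fun a => g • a) _ e.2 (by simp)]
    rfl
  refine ⟨gs.map fun g => (tab g, tab g⁻¹), ?_, ?_⟩
  · rw [List.length_map]
    refine hlen.trans ?_
    have h0 : 0 < 2 ^ d := by positivity
    calc 2 ^ (r + 1) * (N + 1) ≤ 2 ^ (r + 1) * (2 ^ d * 2) := Nat.mul_le_mul_left _ (by omega)
      _ = 2 ^ (r + d + 2) := by ring
  · intro e he
    obtain ⟨ab, hab, rfl⟩ := (hE e).1 he
    obtain ⟨g, hg, hgH⟩ := hcov ab hab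
    refine ⟨(tab g, tab g⁻¹), List.mem_map.2 ⟨g, hg, rfl⟩, ?_, sec (g • ab),
      (Finset.mem_filter.1 hgH).2, fun q hq => ?_⟩
    · simp only
      rw [htab, htab, inv_smul_smul]
    · simp only
      rw [htab]
      exact (hsec _ q).1 hq

omit [DecidableEq X] [DecidableEq Y] in
lemma exists_complex (x : X) (y : Y) (s : Finset Q) (k : ℕ) (hs : 2 ^ k ≤ s.card) :
    ∃ q ∈ s, k ≤ K (x, y, q) (pr 3 (x, y, q)) := by
  classical
  by_contra h
  push Not at h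
  have hne : s.Nonempty := Finset.card_pos.1 (lt_of_lt_of_le (by positivity) hs)
  obtain ⟨q0, hq0⟩ := hne
  have hk : 0 < k := lt_of_le_of_lt (Nat.zero_le _) (h q0 hq0)
  have := card_lt_of_K_le (encode (x, y)) (k - 1) (s.image fun q => (x, y, q)) (by
    intro τ hτ
    obtain ⟨q, hq, rfl⟩ := Finset.mem_image.1 hτ
    exact Nat.le_sub_one_of_lt (h q hq))
  rw [Finset.card_image_of_injective _ (fun q q' h => (Prod.mk.inj (Prod.mk.inj h).2).2),
    Nat.sub_add_cancel hk] at this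
  omega

theorem homogeneous : ∃ c, ∀ (A B G : Type) [Fintype A] [Fintype B] [DecidableEq A]
    [DecidableEq B] [Group G] [Fintype G] [MulAction G A] [MulAction G B] (ι : A → X) (ν : B → Y)
    (_ : Function.Injective ι) (_ : Function.Injective ν) (Ed : Finset (A × B))
    (_ : ∀ (g : G), ∀ e ∈ Ed, g • e ∈ Ed) (_ : ∀ e ∈ Ed, ∀ e' ∈ Ed, ∃ g : G, g • e = e')
    (E : List (X × Y)) (_ : ∀ e, e ∈ E ↔ ∃ ab ∈ Ed, (ι ab.1, ν ab.2) = e) (N d : ℕ),
    Ed.card ≤ 2 ^ N → N ≤ 2 ^ d → K E () ≤ d → ∀ e ∈ E, ∀ e' ∈ E, ∀ q : Q,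
    N ≤ K e () + d → N ≤ K e' () + d → K q () ≤ 2 ^ d → ∃ q' : Q, ∀ i,
      K (pr i (e'.1, e'.2, q')) () ≤ K (pr i (e.1, e.2, q)) () + 4000 * d + c ∧
      K (pr i (e.1, e.2, q)) () ≤ K (pr i (e'.1, e'.2, q')) () + 4000 * d + c := by
  classical
  obtain ⟨c1, h1⟩ := K_mem_list (α := X × Y)
  obtain ⟨c2, h2⟩ := K_apply (β := Unit) (fun z : (X × Y) × Q => (z.1.1, z.1.2, z.2))
    ((Primrec.fst.comp Primrec.fst).pair ((Primrec.snd.comp Primrec.fst).pair Primrec.snd))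
  obtain ⟨c3, h3⟩ := view_le (primrec_pr (X := X) (Y := Y) (Q := Q))
  obtain ⟨c4, h4⟩ := K_fin_fun 7
  obtain ⟨c5, h5⟩ := K_pair (α := Fin 7 → ℕ) (γ := Fin 7 → ℕ) (β := Unit)
  obtain ⟨c6, h6⟩ := K_pair (α := (Fin 7 → ℕ) × (Fin 7 → ℕ)) (γ := List (X × Y)) (β := Unit)
  obtain ⟨c7, h7⟩ := K_le_logS (X := X) (Y := Y) (Q := Q)
  obtain ⟨c8, h8⟩ := view_hard (primrec_pr (X := X) (Y := Y) (Q := Q))
  obtain ⟨c9, h9⟩ := view_easy (pr (X := X) (Y := Y) (Q := Q))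
  obtain ⟨c10, h10⟩ := exists_simple_move (X := X) (Y := Y) (Q := Q)
  obtain ⟨c11, h11⟩ := K_nat (β := Unit)
  obtain ⟨c12, h12⟩ := K_pair (α := ℕ) (γ := ℕ) (β := Unit)
  obtain ⟨c13, h13⟩ := K_pair (α := ℕ × ℕ)
    (γ := List (X × Y) × (Fin 7 → ℕ) × (Fin 7 → ℕ)) (β := Unit)
  obtain ⟨c14, h14⟩ := transfer (X := X) (Y := Y) (Q := Q)
  refine ⟨100000 * (c1 + c2 + c3 + c4 + c5 + c6 + c7 + c8 + c9 + c10 + c11 + c12 + c13 + c14 + 1),
    ?_⟩
  intro A B G _ _ _ _ _ _ _ _ ι ν hι hν Ed hinv htr E hE N d hN hd hKE e he e' he' q hNe hNe' hq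
  obtain ⟨x, y⟩ := e
  obtain ⟨x', y'⟩ := e'
  set τ : X × Y × Q := (x, y, q) with hτ
  let a : Fin 7 → ℕ := fun i => K (pr i τ) ()
  let b : Fin 7 → ℕ := fun i => K τ (pr i τ)
  have ha : ∀ i, a i = K (pr i τ) () := fun _ => rfl
  have hb : ∀ i, b i = K τ (pr i τ) := fun _ => rfl
  have hτS : InS a b τ := fun i _ => ⟨le_rfl, le_rfl⟩
  have hne : Ed.Nonempty := by
    obtain ⟨ab, hab, -⟩ := (hE _).1 he
    exact ⟨ab, hab⟩
  -- upper bound for the complexity of the edge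
  have u1 : K (x, y) () ≤ N + 2 * K E () + c1 :=
    h1 E (x, y) (Ed.image fun ab => (ι ab.1, ν ab.2)) N he
      (fun z hz => by
        obtain ⟨ab, hab, rfl⟩ := (hE z).1 hz
        exact Finset.mem_image.2 ⟨ab, hab, rfl⟩) (Finset.card_image_le.trans hN)
  have u2 : K τ () ≤ 2 * K (x, y) () + K q () + c2 := h2 q (x, y) ()
  have hdd : d ≤ 2 ^ d := Nat.lt_two_pow_self.le
  set D := d + 3 + (2 * c1 + c2 + c3 + 1) with hD
  have hpow : 2 ^ (d + 3) = 8 * 2 ^ d := by ring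
  have u3 : ∀ m, m ≤ K τ () + c3 → m ≤ 2 ^ D := fun m hm =>
    le_two_pow_add (y := 2 ^ (d + 3)) (by omega) le_rfl
  have uτ : K τ () ≤ 2 ^ D := u3 _ (by omega)
  have ua : ∀ i, a i ≤ 2 ^ D := fun i => u3 _ (h3 i τ).1
  have ub : ∀ i, b i ≤ 2 ^ D := fun i => u3 _ (h3 i τ).2.1
  have v1 := h4 a D ua
  have v2 := h4 b D ub
  have v3 := h5 b a ()
  have v4 := h6 (a, b) E ()
  -- the set of typical triples
  let S : Finset (X × Y × Q) := ((finite_K_le (α := X × Y × Q) () (a 6)).toFinset).filter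
    fun τ' => (τ'.1, τ'.2.1) ∈ E ∧ InS a b τ'
  have hS : ∀ τ' : X × Y × Q, (τ'.1, τ'.2.1) ∈ E → InS a b τ' → τ' ∈ S := by
    intro τ' i1 i2
    refine Finset.mem_filter.2 ⟨?_, i1, i2⟩
    have := (i2 6 (List.mem_finRange _)).1
    rw [K_pr6] at this
    simpa using this
  have hSpos : 0 < S.card := Finset.card_pos.2 ⟨τ, hS τ he hτS⟩
  set k := Nat.log 2 S.card with hk
  have hk1 : 2 ^ k ≤ S.card := Nat.pow_log_le_self 2 hSpos.ne'
  have hk2 : S.card < 2 ^ (k + 1) := Nat.lt_pow_succ_log_self (by norm_num) _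
  have w1 := h7 E a b τ S (k + 1) he hτS hS hk2.le
  have w2 := h8 3 τ D uτ
  have w3 : K (pr 3 τ) () = K (x, y) () := K_pr3 x y q
  set r := 67 * d + 200 * (c1 + c2 + c3 + c4 + c5 + c6 + c7 + c8 + 10) with hr
  have w4 : N + b 3 + 1 ≤ k + r := by
    have := hb 3
    omega
  have hcert := exists_cert ι ν hι hν Ed hinv htr E hE hne a b N d r hN hd S
    (fun τ' h => (Finset.mem_filter.1 h).2) (by
      calc 2 ^ (N + b 3 + 1) ≤ 2 ^ (k + r) := Nat.pow_le_pow_right (by norm_num) w4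
        _ = 2 ^ k * 2 ^ r := pow_add _ _ _
        _ ≤ _ := Nat.mul_le_mul_right _ hk1)
  obtain ⟨t₁, t₂, k1, k2, hback, s, hs1, hs2⟩ := h10 _ hcert (x', y') he'
  have y1 := h11 (b 3 - r) D () ((Nat.sub_le _ _).trans (ub 3))
  have y2 := h11 (r + d + 2) (r + d + 2) () Nat.lt_two_pow_self.le
  have y3 := h12 (r + d + 2) (b 3 - r) ()
  have y4 := h13 (b 3 - r, r + d + 2) (E, a, b) ()
  simp only at k1 k2 hs1 hs2
  set e'' := app t₁ (x', y') with he''
  obtain ⟨q', hq', hq'K⟩ := exists_complex e''.1 e''.2 s _ hs1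
  have hin := hs2 q' hq'
  set τ'' : X × Y × Q := (e''.1, e''.2, q') with hτ''
  have z1 : ∀ i, K (pr i (x', y', q')) () ≤ 2 * K t₂ () + K (pr i τ'') () + c14 := by
    intro i
    have := h14 t₂ e'' q' i
    rw [hback] at this
    exact this
  have z2 : ∀ i, K (pr i τ'') () ≤ 2 * K t₁ () + K (pr i (x', y', q')) () + c14 :=
    fun i => h14 t₁ (x', y') q' i
  have z3 : K τ'' () ≤ a 6 := by
    have := (hin 6 (List.mem_finRange _)).1
    rwa [K_pr6] at this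
  have z4 := h8 3 τ'' D (z3.trans (ua 6))
  have z5 := z1 3
  rw [K_pr3] at z5
  have z6 := h9 3 τ D (ua 3)
  refine ⟨q', fun i => ?_⟩
  obtain ⟨j1, j2⟩ := hin i (List.mem_finRange _)
  have j3 := h9 i τ'' D (j1.trans (ua i))
  have j4 := h8 i τ D uτ
  have j5 := z1 i
  have j6 := z2 i
  have j7 := ha i
  have j8 := hb i
  have j9 := hb 3
  simp only
  constructor <;> omega

end Pool.Agent.P.MP_b3bbc0_lc
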