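import Pool.Agent.P.MP_b3bbc0_lc.Sig

/-! The Kolmogorov-Levin formula and its consequences. -/

namespace Pool.Agent.P.MP_b3bbc0_lc

open Encodable

variable {α β γ δ : Type} [Primcodable α] [Primcodable β] [Primcodable γ] [Primcodable δ]

lemma primrec_two_pow : Primrec fun k : ℕ => 2 ^ k :=
  (Primrec₂.unpaired'.1 Nat.Primrec.pow).comp (Primrec.const 2) Primrec.id

/-- The hard half of the Kolmogorov-Levin formula. -/
lemma le_K_pair : ∃ c, ∀ (u : α) (v : β) (d : ℕ), K (u, v) () ≤ 2 ^ d →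
    K u () + K v u ≤ K (u, v) () + 8 * d + c := by
  classical
  have S1 : Sig fun x : (ℕ × α) × β => K (x.1.2, x.2) () ≤ x.1.1 :=
    Sig.K_le' ((Primrec.snd.comp Primrec.fst).pair Primrec.snd) (Primrec.const ())
      (Primrec.fst.comp Primrec.fst)
  have S2 : Sig fun x : (((ℕ × ℕ) × Unit) × α) × β => K (x.1.2, x.2) () ≤ x.1.1.1.1 :=
    Sig.K_le' ((Primrec.snd.comp Primrec.fst).pair Primrec.snd) (Primrec.const ())
      (Primrec.fst.comp (Primrec.fst.comp (Primrec.fst.comp Primrec.fst)))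
  have S3 := S2.many (M := fun x : ((ℕ × ℕ) × Unit) × α => 2 ^ x.1.1.2)
    (primrec_two_pow.comp (Primrec.snd.comp (Primrec.fst.comp Primrec.fst)))
  obtain ⟨c1, h1⟩ := S1.K_le_log
  obtain ⟨c2, h2⟩ := S3.K_le_log
  obtain ⟨c3, h3⟩ := K_chain (α := β) (γ := ℕ) (β := α)
  obtain ⟨c4, h4⟩ := K_chain (α := α) (γ := ℕ × ℕ) (β := Unit)
  obtain ⟨c5, h5⟩ := K_nat (β := α)
  obtain ⟨c6, h6⟩ := K_nat (β := Unit)
  obtain ⟨c7, h7⟩ := K_pair (α := ℕ) (γ := ℕ) (β := Unit)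
  refine ⟨c1 + c2 + c3 + c4 + 2 * c5 + 6 * c6 + 2 * c7 + 2, fun u v d hd => ?_⟩
  set m := K (u, v) () with hm
  let A : Finset (α × β) := (finite_K_le (α := α × β) () m).toFinset
  have hA : ∀ x, x ∈ A ↔ K x () ≤ m := fun x => by simp [A]
  have hAc : A.card < 2 ^ (m + 1) := card_lt_of_K_le () m A fun x hx => (hA x).1 hx
  let Su : Finset β := (A.filter fun x => x.1 = u).image Prod.snd
  have hSu : ∀ b, b ∈ Su ↔ K (u, b) () ≤ m := by
    intro b
    simp only [Su, Finset.mem_image, Finset.mem_filter, hA]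
    constructor
    · rintro ⟨⟨x, y⟩, ⟨h, rfl⟩, rfl⟩; exact h
    · intro h; exact ⟨(u, b), ⟨h, rfl⟩, rfl⟩
  have hpos : 0 < Su.card := Finset.card_pos.2 ⟨v, (hSu v).2 le_rfl⟩
  set s := Nat.log 2 Su.card with hs
  have hs1 : 2 ^ s ≤ Su.card := Nat.pow_log_le_self 2 hpos.ne'
  have hs2 : Su.card < 2 ^ (s + 1) := Nat.lt_pow_succ_log_self (by norm_num) _
  have hsm : s ≤ m := by
    have : Su.card ≤ A.card := Finset.card_image_le.trans (Finset.card_filter_le _ _)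
    have : 2 ^ s < 2 ^ (m + 1) := by omega
    have := (Nat.pow_lt_pow_iff_right (by norm_num : 1 < 2)).1 this
    omega
  have a1 := h1 (m, u) v Su (s + 1) le_rfl (fun b hb => (hSu b).2 hb) hs2.le
  have a2 := h3 v m u
  have a3 := h5 m d u hd
  let T : Finset α := (A.image Prod.fst).filter fun a =>
    ∃ t : Finset β, 2 ^ s ≤ t.card ∧ ∀ b ∈ t, K (a, b) () ≤ m
  have hT : T.card * 2 ^ s ≤ A.card := by
    rw [Finset.card_eq_sum_card_image Prod.fst A, ← smul_eq_mul, ← Finset.sum_const]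
    refine (Finset.sum_le_sum fun a ha => ?_).trans
      (Finset.sum_le_sum_of_subset (Finset.filter_subset _ _))
    obtain ⟨-, t, ht1, ht2⟩ := Finset.mem_filter.1 ha
    refine ht1.trans (Finset.card_le_card_of_injOn (fun b => (a, b)) (fun b hb => ?_) ?_)
    · simp only [Finset.coe_filter, Set.mem_ofPred_eq, hA, and_true]
      exact ht2 b hb
    · intro b _ b' _ h
      exact (Prod.mk.inj h).2
  have hT' : T.card ≤ 2 ^ (m + 1 - s) := by
    have e : 2 ^ (m + 1) = 2 ^ (m + 1 - s) * 2 ^ s := by rw [← pow_add]; congr 1; omega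
    exact Nat.le_of_mul_le_mul_right (by omega) (by positivity : 0 < 2 ^ s)
  have a4 := h2 ((m, s), ()) u T (m + 1 - s) ⟨Su, hs1, fun b hb => (hSu b).1 hb⟩ (by
    rintro a ⟨t, ht1, ht2⟩
    refine Finset.mem_filter.2 ⟨?_, t, ht1, ht2⟩
    obtain ⟨b, hb⟩ : t.Nonempty := Finset.card_pos.1 (lt_of_lt_of_le (by positivity) ht1)
    exact Finset.mem_image.2 ⟨(a, b), (hA _).2 (ht2 b hb), rfl⟩) hT'
  have a5 := h4 u (m, s) ()
  have a6 := h7 s m ()
  have a7 := h6 m d () hd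
  have a8 := h6 s d () (hsm.trans hd)
  omega

lemma le_two_pow_add {x y c d : ℕ} (h : x ≤ y + c) (hy : y ≤ 2 ^ d) : x ≤ 2 ^ (d + (c + 1)) := by
  have h1 : c < 2 ^ c := Nat.lt_two_pow_self
  have h2 : 2 ^ (d + (c + 1)) = 2 ^ d * 2 ^ c * 2 := by ring
  have h3 : 0 < 2 ^ d := by positivity
  nlinarith

/-- Easy direction for a family of computable views of an object. -/
lemma view_easy {γ : Type} (π : γ → α → ℕ) : ∃ c, ∀ (i : γ) (τ : α) (d : ℕ),
    K (π i τ) () ≤ 2 ^ d → K τ () ≤ K (π i τ) () + K τ (π i τ) + 2 * d + c := by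
  obtain ⟨c1, h1⟩ := K_pair_le (α := ℕ) (β := α)
  obtain ⟨c2, h2⟩ := K_map (β := Unit) (Prod.snd : ℕ × α → α) Primrec.snd
  refine ⟨c1 + c2, fun i τ d hd => ?_⟩
  have := h1 (π i τ) τ d hd
  have := h2 (π i τ, τ) ()
  simp only at this
  omega

lemma view_le [Fintype γ] {π : γ → α → ℕ} (hπ : Primrec₂ π) : ∃ c, ∀ (i : γ) (τ : α),
    K (π i τ) () ≤ K τ () + c ∧ K τ (π i τ) ≤ K τ () + c ∧ K (π i τ, τ) () ≤ K τ () + c := by
  have : ∀ i : γ, ∃ c, ∀ τ : α,
      K (π i τ) () ≤ K τ () + c ∧ K τ (π i τ) ≤ K τ () + c ∧ K (π i τ, τ) () ≤ K τ () + c := by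
    intro i
    have hi : Primrec (π i) := hπ.comp (Primrec.const i) Primrec.id
    obtain ⟨c1, h1⟩ := K_map (β := Unit) (π i) hi
    obtain ⟨c2, h2⟩ := K_cond (α := α) (fun _ : ℕ => ()) (Primrec.const ())
    obtain ⟨c3, h3⟩ := K_map (β := Unit) (fun τ => (π i τ, τ)) (hi.pair Primrec.id)
    refine ⟨c1 + c2 + c3, fun τ => ?_⟩
    have := h1 τ ()
    have := h2 τ (π i τ)
    have := h3 τ ()
    omega
  choose c hc using this
  refine ⟨Finset.univ.sup c, fun i τ => ?_⟩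
  have := hc i τ
  have : c i ≤ Finset.univ.sup c := Finset.le_sup (Finset.mem_univ i)
  omega

/-- Hard direction for a finite family of computable views of an object. -/
lemma view_hard [Fintype γ] {π : γ → α → ℕ} (hπ : Primrec₂ π) : ∃ c, ∀ (i : γ) (τ : α) (d : ℕ),
    K τ () ≤ 2 ^ d → K (π i τ) () + K τ (π i τ) ≤ K τ () + 8 * d + c := by
  obtain ⟨c1, h1⟩ := le_K_pair (α := ℕ) (β := α)
  obtain ⟨c2, h2⟩ := view_le hπ
  refine ⟨c1 + c2 + 8 * (c2 + 1), fun i τ d hd => ?_⟩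
  have a1 := (h2 i τ).2.2
  have := h1 (π i τ) τ (d + (c2 + 1)) (le_two_pow_add a1 hd)
  omega

/-- A short tuple of small numbers is simple. -/
lemma K_fin_fun (r : ℕ) : ∃ c, ∀ (a : Fin r → ℕ) (d : ℕ), (∀ i, a i ≤ 2 ^ d) →
    K a () ≤ (r + 2) * (d + 1) + c := by
  classical
  have S1 : Sig fun x : (ℕ × Unit) × (Fin r → ℕ) => ∀ i ∈ List.finRange r, x.2 i ≤ 2 ^ x.1.1 :=
    Sig.forall_mem (P := fun y : ((ℕ × Unit) × (Fin r → ℕ)) × Fin r => y.1.2 y.2 ≤ 2 ^ y.1.1.1)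
      (Sig.of_primrec (Primrec.nat_le.comp
        (Primrec.fin_app.comp (Primrec.snd.comp Primrec.fst) Primrec.snd)
        (primrec_two_pow.comp (Primrec.fst.comp (Primrec.fst.comp Primrec.fst)))))
      (Primrec.const _)
  obtain ⟨c1, h1⟩ := S1.K_le_log
  obtain ⟨c2, h2⟩ := K_chain (α := Fin r → ℕ) (γ := ℕ) (β := Unit)
  obtain ⟨c3, h3⟩ := K_nat (β := Unit)
  refine ⟨c1 + c2 + 2 * c3, fun a d ha => ?_⟩
  have a1 := h1 (d, ()) a (Fintype.piFinset fun _ => Finset.range (2 ^ (d + 1))) (r * (d + 1))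
    (fun i _ => ha i) (by
      intro a' ha'
      rw [Fintype.mem_piFinset]
      intro i
      have := ha' i (List.mem_finRange i)
      have h0 : 0 < 2 ^ d := by positivity
      simp only [Finset.mem_range, pow_succ] at this ⊢
      omega) (by
      rw [Fintype.card_piFinset]
      simp [← pow_mul, mul_comm])
  have a2 := h2 a d ()
  have a3 := h3 d d () Nat.lt_two_pow_self.le
  nlinarith

/-- An element of a simple list has complexity at most the logarithm of the number of elements. -/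
lemma K_mem_list : ∃ c, ∀ (l : List α) (a : α) (s : Finset α) (k : ℕ), a ∈ l →
    (∀ b ∈ l, b ∈ s) → s.card ≤ 2 ^ k → K a () ≤ k + 2 * K l () + c := by
  have S1 : Sig fun x : (List α × Unit) × α => x.2 ∈ x.1.1 :=
    Sig.of_primrec (primrecRel_mem.comp Primrec.snd (Primrec.fst.comp Primrec.fst))
  obtain ⟨c1, h1⟩ := S1.K_le_log
  obtain ⟨c2, h2⟩ := K_chain (α := α) (γ := List α) (β := Unit)
  refine ⟨c1 + c2, fun l a s k ha hs hk => ?_⟩
  have := h1 (l, ()) a s k ha hs hk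
  have := h2 a l ()
  omega

end Pool.Agent.P.MP_b3bbc0_lc
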