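import Mathlib

/-! A conditional plain Kolmogorov complexity built from a universal decompressor. -/

namespace Pool.Agent.P.MP_b3bbc0_lc

open Encodable Denumerable Nat.Partrec

/-- Number of leading `true`s. -/
def lead (p : List Bool) : ℕ := p.findIdx (fun b => !b)

lemma primrec_lead : Primrec lead :=
  Primrec.list_findIdx Primrec.id (Primrec.not.comp Primrec.snd).to₂

lemma lead_append (k : ℕ) (p : List Bool) : lead (List.replicate k true ++ false :: p) = k := by
  induction k with
  | zero => simp [lead, List.findIdx_cons]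
  | succ k ih =>
    simp only [lead] at ih
    simp [lead, List.replicate_succ, List.findIdx_cons, ih]

lemma drop_append (k : ℕ) (p : List Bool) :
    (List.replicate k true ++ false :: p).drop (k + 1) = p := by
  induction k with
  | zero => simp
  | succ k ih => simpa [List.replicate_succ] using ih

/-- The universal conditional decompressor. -/
def U (p : List Bool) (w : ℕ) : Part ℕ :=
  Code.eval (ofNat Code (lead p)) (encode (p.drop (lead p + 1), w))

lemma partrec_U : Partrec₂ U := by
  unfold U
  refine Code.eval_part.comp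
    ((Primrec.ofNat Code).comp (primrec_lead.comp Primrec.fst)).to_comp ?_
  refine (Primrec.encode.comp (Primrec.pair ?_ Primrec.snd)).to_comp
  exact Primrec.list_drop.comp (Primrec.succ.comp (primrec_lead.comp Primrec.fst)) Primrec.fst

lemma U_optimal {D : List Bool → ℕ →. ℕ} (hD : Partrec₂ D) :
    ∃ c, ∀ p w a, a ∈ D p w → ∃ p', a ∈ U p' w ∧ p'.length ≤ p.length + c := by
  obtain ⟨c, hc⟩ := Code.exists_code.1 hD
  refine ⟨encode c + 1, fun p w a ha => ⟨List.replicate (encode c) true ++ false :: p, ?_, ?_⟩⟩
  · rw [U, lead_append, drop_append, ofNat_encode, hc]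
    simp only [encodek, Part.coe_some, Part.bind_some]
    exact Part.mem_map_iff _ |>.2 ⟨a, ha, rfl⟩
  · simp; omega

section Typed

variable {α β γ δ : Type} [Primcodable α] [Primcodable β] [Primcodable γ] [Primcodable δ]

/-- Typed version of the universal decompressor. -/
def Ut (α : Type) {β : Type} [Primcodable α] [Primcodable β] (p : List Bool) (w : β) : Part α :=
  (U p (encode w)).bind fun n => (decode₂ α n : Part α)

lemma mem_Ut {p : List Bool} {w : β} {a : α} : a ∈ Ut α p w ↔ encode a ∈ U p (encode w) := by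
  simp only [Ut, Part.mem_bind_iff, Part.mem_coe, mem_decode₂]
  constructor
  · rintro ⟨n, hn, rfl⟩; exact hn
  · intro h; exact ⟨_, h, rfl⟩

lemma partrec_Ut : Partrec₂ (Ut α (β := β)) :=
  (partrec_U.comp Computable.fst (Computable.encode.comp Computable.snd)).bind
    (Primrec.decode₂.comp Primrec.snd).to_comp.ofOption.to₂

/-- Conditional plain complexity of `a` given `w`. -/
noncomputable def K (a : α) (w : β) : ℕ :=
  sInf {n | ∃ p : List Bool, p.length = n ∧ encode a ∈ U p (encode w)}

lemma K_encode_left (a : α) (w : β) : K (encode a) w = K a w := rfl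

lemma K_encode_right (a : α) (w : β) : K a (encode w) = K a w := rfl

lemma K_le_of_mem {p : List Bool} {w : β} {a : α} (h : a ∈ Ut α p w) : K a w ≤ p.length :=
  Nat.sInf_le ⟨p, rfl, mem_Ut.1 h⟩

lemma K_le_of_partrec {D : List Bool → β →. α} (hD : Partrec₂ D) :
    ∃ c, ∀ p w a, a ∈ D p w → K a w ≤ p.length + c := by
  let D' : List Bool → ℕ →. ℕ := fun p n =>
    (decode (α := β) n : Part β).bind fun w => (D p w).map encode
  have hD' : Partrec₂ D' :=
    (Computable.decode.comp Computable.snd).ofOption.bind
      ((hD.comp (Computable.fst.comp Computable.fst) Computable.snd).map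
        (Computable.encode.comp Computable.snd).to₂).to₂
  obtain ⟨c, hc⟩ := U_optimal hD'
  refine ⟨c, fun p w a ha => ?_⟩
  obtain ⟨p', h1, h2⟩ := hc p (encode w) (encode a) (by
    simp only [D', encodek, Part.coe_some, Part.bind_some]
    exact Part.mem_map_iff _ |>.2 ⟨a, ha, rfl⟩)
  exact (K_le_of_mem (mem_Ut.2 h1)).trans h2

lemma exists_prog (a : α) (w : β) : ∃ p : List Bool, p.length = K a w ∧ a ∈ Ut α p w := by
  have hne : {n | ∃ p : List Bool, p.length = n ∧ encode a ∈ U p (encode w)}.Nonempty := by
    have hD : Partrec₂ (fun (p : List Bool) (_ : ℕ) => (Part.some p.length : Part ℕ)) :=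
      (Computable.list_length.comp Computable.fst).partrec
    obtain ⟨c, hc⟩ := U_optimal hD
    obtain ⟨p', h1, -⟩ := hc (List.replicate (encode a) true) (encode w) (encode a) (by simp)
    exact ⟨_, p', rfl, h1⟩
  obtain ⟨p, h1, h2⟩ := Nat.sInf_mem hne
  exact ⟨p, h1, mem_Ut.2 h2⟩

lemma K_le_iff {a : α} {w : β} {k : ℕ} :
    K a w ≤ k ↔ ∃ p : List Bool, p.length ≤ k ∧ a ∈ Ut α p w := by
  constructor
  · intro h
    obtain ⟨p, h1, h2⟩ := exists_prog a w
    exact ⟨p, h1 ▸ h, h2⟩
  · rintro ⟨p, h1, h2⟩
    exact (K_le_of_mem h2).trans h1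

/-- The lists of booleans of length at most `k`. -/
def shortLists : ℕ → Finset (List Bool)
  | 0 => {[]}
  | k + 1 => insert [] ((shortLists k).image (List.cons true) ∪ (shortLists k).image (List.cons false))

lemma mem_shortLists {k : ℕ} {p : List Bool} (h : p.length ≤ k) : p ∈ shortLists k := by
  induction k generalizing p with
  | zero =>
    have : p = [] := List.length_eq_zero_iff.1 (by omega)
    simp [shortLists, this]
  | succ k ih =>
    cases p with
    | nil => simp [shortLists]
    | cons b p =>
      have := ih (p := p) (by simpa using h)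
      cases b <;> simp [shortLists, this]

lemma card_shortLists (k : ℕ) : (shortLists k).card < 2 ^ (k + 1) := by
  induction k with
  | zero => simp [shortLists]
  | succ k ih =>
    have h1 := Finset.card_insert_le ([] : List Bool)
      ((shortLists k).image (List.cons true) ∪ (shortLists k).image (List.cons false))
    have h2 := Finset.card_union_le ((shortLists k).image (List.cons true))
      ((shortLists k).image (List.cons false))
    have h3 := Finset.card_image_le (s := shortLists k) (f := List.cons true)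
    have h4 := Finset.card_image_le (s := shortLists k) (f := List.cons false)
    rw [shortLists, pow_succ]
    omega

/-- Fewer than `2 ^ (k + 1)` objects have complexity at most `k`. -/
lemma card_lt_of_K_le (w : β) (k : ℕ) (s : Finset α) (hs : ∀ a ∈ s, K a w ≤ k) :
    s.card < 2 ^ (k + 1) := by
  choose f hf1 hf2 using fun a : α => exists_prog a w
  refine lt_of_le_of_lt ?_ (card_shortLists k)
  refine Finset.card_le_card_of_injOn f (fun a ha => ?_) (fun a _ b _ hab => ?_)
  · exact mem_shortLists ((hf1 a).trans_le (hs a ha))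
  · exact Part.mem_unique (hf2 a) (hab ▸ hf2 b)

lemma finite_K_le (w : β) (k : ℕ) : {a : α | K a w ≤ k}.Finite := by
  by_contra h
  obtain ⟨s, hs, hc⟩ := Set.Infinite.exists_subset_card_eq h (2 ^ (k + 1))
  have := card_lt_of_K_le w k s (fun a ha => hs ha)
  omega

/-- Computable maps of the object and of the condition cost a constant. -/
lemma K_comp (g : α × γ → δ) (h : γ → β) (hg : Primrec g) (hh : Primrec h) :
    ∃ c, ∀ (a : α) (w : γ), K (g (a, w)) w ≤ K a (h w) + c := by
  have hD : Partrec₂ (fun (p : List Bool) (w : γ) => (Ut α p (h w)).map fun a => g (a, w)) :=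
    (partrec_Ut.comp Computable.fst (hh.to_comp.comp Computable.snd)).map
      (hg.to_comp.comp (Computable.snd.pair (Computable.snd.comp Computable.fst))).to₂
  obtain ⟨c, hc⟩ := K_le_of_partrec hD
  refine ⟨c, fun a w => ?_⟩
  obtain ⟨p, h1, h2⟩ := exists_prog a (h w)
  rw [← h1]
  exact hc p w _ (Part.mem_map_iff _ |>.2 ⟨a, h2, rfl⟩)

lemma K_map (g : α → δ) (hg : Primrec g) :
    ∃ c, ∀ (a : α) (w : β), K (g a) w ≤ K a w + c :=
  K_comp (fun x : α × β => g x.1) id (hg.comp Primrec.fst) Primrec.id

lemma K_cond (h : γ → β) (hh : Primrec h) :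
    ∃ c, ∀ (a : α) (w : γ), K a w ≤ K a (h w) + c :=
  K_comp (fun x : α × γ => x.1) h Primrec.fst hh

/-- Chain rule with the first program doubled. -/
lemma K_chain : ∃ c, ∀ (a : α) (z : γ) (w : β), K a w ≤ 2 * K z w + K a (z, w) + c := by
  have h1 : Primrec fun p : List Bool => p.drop (lead p + 1) :=
    Primrec.list_drop.comp (Primrec.succ.comp primrec_lead) Primrec.id
  have hD : Partrec₂ (fun (p : List Bool) (w : β) =>
      (Ut γ ((p.drop (lead p + 1)).take (lead p)) w).bind fun z =>
        Ut α ((p.drop (lead p + 1)).drop (lead p)) (z, w)) :=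
    (partrec_Ut.comp ((Primrec.list_take.comp primrec_lead h1).comp Primrec.fst).to_comp
      Computable.snd).bind
      (partrec_Ut.comp (((Primrec.list_drop.comp primrec_lead h1).comp
        (Primrec.fst.comp Primrec.fst)).to_comp)
        (Computable.snd.pair (Computable.snd.comp Computable.fst))).to₂
  obtain ⟨c, hc⟩ := K_le_of_partrec hD
  refine ⟨c + 1, fun a z w => ?_⟩
  obtain ⟨p1, h1, h2⟩ := exists_prog z w
  obtain ⟨p2, h3, h4⟩ := exists_prog a (z, w)
  have := hc (List.replicate p1.length true ++ false :: (p1 ++ p2)) w a (by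
    simp only [lead_append, drop_append, List.take_left', List.drop_left']
    exact Part.mem_bind_iff.2 ⟨z, h2, h4⟩)
  simp only [List.length_append, List.length_replicate, List.length_cons] at this
  omega

/-- The number written in binary by a list of booleans. -/
def val (p : List Bool) : ℕ := p.foldr (fun b n => 2 * n + b.toNat) 0

lemma primrec_val : Primrec val :=
  Primrec.list_foldr (f := fun p : List Bool => p) (g := fun _ => (0 : ℕ))
    (h := fun _ (x : Bool × ℕ) => 2 * x.2 + x.1.toNat) Primrec.id (Primrec.const 0)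
    (Primrec.nat_add.comp (Primrec.nat_double.comp (Primrec.snd.comp Primrec.snd))
      ((Primrec.dom_bool Bool.toNat).comp (Primrec.fst.comp Primrec.snd))).to₂

lemma exists_val (k i : ℕ) (h : i < 2 ^ k) : ∃ p : List Bool, p.length = k ∧ val p = i := by
  induction k generalizing i with
  | zero => exact ⟨[], rfl, by simp [val] at *; omega⟩
  | succ k ih =>
    obtain ⟨p, h1, h2⟩ := ih (i / 2) (by omega)
    refine ⟨decide (i % 2 = 1) :: p, by simp [h1], ?_⟩
    simp only [val, List.foldr_cons] at h2 ⊢
    rw [h2]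
    rcases Nat.mod_two_eq_zero_or_one i with h | h <;> simp [h] <;> omega

lemma K_nat : ∃ c, ∀ (i k : ℕ) (w : β), i ≤ 2 ^ k → K i w ≤ k + c := by
  have hD : Partrec₂ (fun (p : List Bool) (_ : β) => (Part.some (val p) : Part ℕ)) :=
    (primrec_val.comp Primrec.fst).to_comp.partrec
  obtain ⟨c, hc⟩ := K_le_of_partrec hD
  refine ⟨c + 1, fun i k w hi => ?_⟩
  obtain ⟨p, h1, h2⟩ := exists_val (k + 1) i (by
    have : 0 < 2 ^ k := by positivity
    omega)
  have := hc p w i (by simp [h2])
  omega

lemma K_pair : ∃ c, ∀ (a : α) (z : γ) (w : β), K (z, a) w ≤ 2 * K z w + K a w + c := by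
  obtain ⟨c1, h1⟩ := K_chain (α := γ × α) (γ := γ) (β := β)
  obtain ⟨c2, h2⟩ := K_comp (fun x : α × (γ × β) => (x.2.1, x.1)) (fun w : γ × β => w.2)
    ((Primrec.fst.comp Primrec.snd).pair Primrec.fst) Primrec.snd
  refine ⟨c1 + c2, fun a z w => ?_⟩
  have := h1 (z, a) z w
  have := h2 a (z, w)
  simp only at this
  omega

/-- Applying a computable map with an extra simple argument. -/
lemma K_apply (g : γ × α → δ) (hg : Primrec g) :
    ∃ c, ∀ (a : α) (z : γ) (w : β), K (g (z, a)) w ≤ 2 * K z w + K a w + c := by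
  obtain ⟨c1, h1⟩ := K_pair (α := α) (γ := γ) (β := β)
  obtain ⟨c2, h2⟩ := K_map (β := β) g hg
  refine ⟨c1 + c2, fun a z w => ?_⟩
  have := h1 a z w
  have := h2 (z, a) w
  omega

/-- The easy half of the Kolmogorov-Levin formula. -/
lemma K_pair_le : ∃ c, ∀ (u : α) (v : β) (d : ℕ), K u () ≤ 2 ^ d →
    K (u, v) () ≤ K u () + K v u + 2 * d + c := by
  have hD : Partrec₂ (fun (p : List Bool) (w : ℕ × Unit) =>
      (Ut α (p.take w.1) ()).bind fun u => (Ut β (p.drop w.1) u).map fun v => (u, v)) :=
    (partrec_Ut.comp (Primrec.list_take.comp (Primrec.fst.comp Primrec.snd) Primrec.fst).to_comp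
      (Computable.const ())).bind
      ((partrec_Ut.comp ((Primrec.list_drop.comp (Primrec.fst.comp Primrec.snd) Primrec.fst).comp
        Primrec.fst).to_comp Computable.snd).map
        ((Computable.snd.comp Computable.fst).pair Computable.snd).to₂).to₂
  obtain ⟨c1, h1⟩ := K_le_of_partrec hD
  obtain ⟨c2, h2⟩ := K_chain (α := α × β) (γ := ℕ) (β := Unit)
  obtain ⟨c3, h3⟩ := K_nat (β := Unit)
  refine ⟨c1 + c2 + 2 * c3, fun u v d hd => ?_⟩
  obtain ⟨p1, e1, m1⟩ := exists_prog u ()
  obtain ⟨p2, e2, m2⟩ := exists_prog v u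
  have a1 := h1 (p1 ++ p2) (p1.length, ()) (u, v) (by
    simp only [List.take_left', List.drop_left']
    exact Part.mem_bind_iff.2 ⟨u, m1, Part.mem_map_iff _ |>.2 ⟨v, m2, rfl⟩⟩)
  have a2 := h2 (u, v) p1.length ()
  have a3 := h3 p1.length d () (e1 ▸ hd)
  simp only [List.length_append] at a1
  omega

end Typed

attribute [irreducible] K Ut

end Pool.Agent.P.MP_b3bbc0_lc
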