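import Pool.Agent.P.MP_b3bbc0_lc.Plane

/-! For strings `q` of unbounded complexity the number `C(q)` itself can carry the second edge. -/

namespace Pool.Agent.P.MP_b3bbc0_lc

open Encodable

/-- The table of addition and multiplication modulo `p`. -/
def table (p : ℕ) : List (ℕ × ℕ × ℕ × ℕ) :=
  (List.range p).flatMap fun a => (List.range p).map fun b => (a, b, (a + b) % p, (a * b) % p)

lemma primrec_table : Primrec table := by
  unfold table
  refine Primrec.list_flatMap Primrec.list_range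
    (Primrec.list_map (Primrec.list_range.comp Primrec.fst) ?_)
  have a : Primrec fun x : (ℕ × ℕ) × ℕ => x.1.2 := Primrec.snd.comp Primrec.fst
  have p : Primrec fun x : (ℕ × ℕ) × ℕ => x.1.1 := Primrec.fst.comp Primrec.fst
  exact a.pair (Primrec.snd.pair ((Primrec.nat_mod.comp (Primrec.nat_add.comp a Primrec.snd) p).pair
    (Primrec.nat_mod.comp (Primrec.nat_mul.comp a Primrec.snd) p)))

lemma primrecPred_prime : PrimrecPred Nat.Prime := by
  have h1 : PrimrecRel fun m p : ℕ => ¬ (p % m = 0) ∨ m = 1 :=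
    (Primrec.eq.comp (Primrec.nat_mod.comp Primrec.snd Primrec.fst) (Primrec.const 0)).not.or
      (Primrec.eq.comp Primrec.fst (Primrec.const 1))
  refine ((Primrec.nat_le.comp (Primrec.const 2) Primrec.id).and
    (h1.forall_lt.comp Primrec.id Primrec.id)).of_eq fun p => ?_
  rw [Nat.prime_def_lt]
  simp only [id, Nat.dvd_iff_mod_eq_zero, imp_iff_not_or]

lemma exists_simple_prime : ∃ c, ∀ n l : ℕ, n ≤ 2 ^ l →
    ∃ p : ℕ, p.Prime ∧ 2 ^ n < p ∧ p ≤ 2 ^ (n + 1) ∧ K (table p) () ≤ 2 * l + c := by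
  have S1 : Sig fun x : (ℕ × Unit) × ℕ => x.2.Prime ∧ 2 ^ x.1.1 < x.2 ∧ x.2 ≤ 2 ^ (x.1.1 + 1) :=
    Sig.of_primrec ((primrecPred_prime.comp Primrec.snd).and
      ((Primrec.nat_lt.comp (primrec_two_pow.comp (Primrec.fst.comp Primrec.fst)) Primrec.snd).and
        (Primrec.nat_le.comp Primrec.snd
          (primrec_two_pow.comp (Primrec.succ.comp (Primrec.fst.comp Primrec.fst))))))
  obtain ⟨c1, h1⟩ := S1.exists_K_le
  obtain ⟨c2, h2⟩ := K_chain (α := ℕ) (γ := ℕ) (β := Unit)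
  obtain ⟨c3, h3⟩ := K_nat (β := Unit)
  obtain ⟨c4, h4⟩ := K_map (β := Unit) table primrec_table
  refine ⟨c1 + c2 + 2 * c3 + c4, fun n l hl => ?_⟩
  obtain ⟨p, ⟨a1, a2, a3⟩, a4⟩ := h1 (n, ()) (by
    obtain ⟨p, b1, b2, b3⟩ := Nat.exists_prime_lt_and_le_two_mul (2 ^ n) (by positivity)
    exact ⟨p, b1, b2, b3.trans_eq (pow_succ' 2 n).symm⟩)
  refine ⟨p, a1, a2, a3, ?_⟩
  have := h2 p n ()
  have := h3 n l () hl
  have := h4 p ()
  omega

lemma K_le_length : ∃ c, ∀ q : List Bool, K q () ≤ q.length + c := by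
  have hD : Partrec₂ fun (p : List Bool) (_ : Unit) => (Part.some p : Part (List Bool)) :=
    Computable.fst.partrec
  obtain ⟨c, hc⟩ := K_le_of_partrec hD
  exact ⟨c, fun q => hc q () q (by simp)⟩

/-- The length of the shortest program is available for free. -/
lemma K_round : ∃ c, ∀ (q : List Bool) (n : ℕ),
    K ((K q () + 4 * n) / (8 * n), q) () ≤ 2 * K n () + K q () + c := by
  have hD : Partrec₂ fun (p : List Bool) (w : ℕ × Unit) =>
      (Ut (List Bool) p ()).map fun q => ((p.length + 4 * w.1) / (8 * w.1), q) := by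
    have n : Primrec fun x : (List Bool × (ℕ × Unit)) × List Bool => x.1.2.1 :=
      Primrec.fst.comp (Primrec.snd.comp Primrec.fst)
    exact (partrec_Ut.comp Computable.fst (Computable.const ())).map
      ((Primrec.nat_div.comp (Primrec.nat_add.comp
        (Primrec.list_length.comp (Primrec.fst.comp Primrec.fst))
        (Primrec.nat_mul.comp (Primrec.const 4) n))
        (Primrec.nat_mul.comp (Primrec.const 8) n)).pair Primrec.snd).to_comp.to₂
  obtain ⟨c1, h1⟩ := K_le_of_partrec hD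
  obtain ⟨c2, h2⟩ := K_chain (α := ℕ × List Bool) (γ := ℕ) (β := Unit)
  refine ⟨c1 + c2, fun q n => ?_⟩
  obtain ⟨p, e1, e2⟩ := exists_prog q ()
  have := h1 p (n, ()) ((K q () + 4 * n) / (8 * n), q) (Part.mem_map_iff _ |>.2 ⟨q, e2, by rw [e1]⟩)
  have := h2 ((K q () + 4 * n) / (8 * n), q) n ()
  omega

lemma K_unpair : ∃ c, ∀ (x : (ℕ × ℕ) ⊕ ℕ) (y : ℕ × ℕ) (q : List Bool),
    K (x, y, q) () ≤ K (encode (x, y), q) () + c := by
  have hg : Primrec fun z : ℕ × List Bool => (z.1.unpair.1, z.1.unpair.2, z.2) :=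
    (Primrec.fst.comp (Primrec.unpair.comp Primrec.fst)).pair
      ((Primrec.snd.comp (Primrec.unpair.comp Primrec.fst)).pair Primrec.snd)
  obtain ⟨c, hc⟩ := K_map (β := Unit) _ hg
  refine ⟨c, fun x y q => ?_⟩
  have := hc (encode (x, y), q) ()
  simp only [encode_prod_val, Nat.unpair_pair] at this
  rw [← K_encode_left] at this
  rw [← K_encode_left]
  exact this

lemma exists_K_ge {α : Type} [Primcodable α] (s : Finset α) (k : ℕ) (hs : 2 ^ k ≤ s.card) :
    ∃ a ∈ s, k ≤ K a () := by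
  by_contra h
  push Not at h
  obtain ⟨a0, ha0⟩ : s.Nonempty := Finset.card_pos.1 (lt_of_lt_of_le (by positivity) hs)
  have hk : 0 < k := lt_of_le_of_lt (Nat.zero_le _) (h a0 ha0)
  have := card_lt_of_K_le () (k - 1) s (fun a ha => Nat.le_sub_one_of_lt (h a ha))
  rw [Nat.sub_add_cancel hk] at this
  omega

lemma log_small (A : ℕ) : ∃ n₀, ∀ n ≥ n₀, 1 ≤ Nat.log 2 n ∧ A * (Nat.log 2 n + 1) ≤ n := by
  refine ⟨2 ^ (2 * A + 4), fun n hn => ?_⟩
  have h1 : 2 * A + 4 ≤ Nat.log 2 n := Nat.le_log_of_pow_le (by norm_num) hn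
  have h2 : 2 ^ Nat.log 2 n ≤ n := Nat.pow_log_le_self 2 (by
    have : 0 < 2 ^ (2 * A + 4) := by positivity
    omega)
  have h3 : ∀ l, 4 ≤ l → l * l ≤ 2 ^ l := by
    intro l hl
    induction l, hl using Nat.le_induction with
    | base => norm_num
    | succ l hl ih => rw [pow_succ]; nlinarith
  have h4 := h3 (Nat.log 2 n) (by omega)
  exact ⟨by omega, by nlinarith⟩

/-- Residues modulo `p` encoded by their least non-negative representatives. -/
@[reducible] def zmodEnc (p : ℕ) [NeZero p] : Encodable (ZMod p) :=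
  Encodable.ofLeftInverse ZMod.val (fun n => (n : ZMod p)) ZMod.natCast_zmod_val

theorem long (D : List Bool →. ℕ) (hD : IsOptimal D) :
    ∃ c n₀ : ℕ, ∀ n ≥ n₀, ∃ (F : Type) (_ : Field F) (_ : Fintype F) (_ : Encodable F)
      (L : List (F × F × F × F)), (∀ t, t ∈ L ↔ ∃ a b, t = (a, b, a + b, a * b)) ∧
      C D L ≤ c * Nat.log 2 n ∧ 2 ^ n ≤ Fintype.card F ∧ Fintype.card F ≤ 2 ^ (n + 1) ∧
      ∃ (ℓ ℓ' : (F × F) ⊕ F) (p p' : F × F), Incident ℓ p ∧ Incident ℓ' p' ∧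
        3 * n ≤ C D (ℓ, p) + c * Nat.log 2 n ∧ 3 * n ≤ C D (ℓ', p') + c * Nat.log 2 n ∧
        ∃ q : List Bool, ∀ q' : List Bool, ∃ i : Fin 7,
          (n : ℤ) ≤ |(profile D ℓ p q i : ℤ) - profile D ℓ' p' q' i| := by
  classical
  obtain ⟨c1, h1⟩ := exists_simple_prime
  obtain ⟨c2, h2⟩ := C_close hD
  obtain ⟨c3, h3⟩ := K_map (β := Unit) flagList primrec_flagList
  obtain ⟨c4, h4⟩ := K_mem_list (α := ((ℕ × ℕ) ⊕ ℕ) × (ℕ × ℕ))
  obtain ⟨c5, h5⟩ := K_pair_le (α := ((ℕ × ℕ) ⊕ ℕ) × (ℕ × ℕ)) (β := List Bool)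
  obtain ⟨c6, h6⟩ := K_cond (α := List Bool) (fun _ : ((ℕ × ℕ) ⊕ ℕ) × (ℕ × ℕ) => ())
    (Primrec.const ())
  obtain ⟨c7, h7⟩ := K_le_length
  obtain ⟨c8, h8⟩ := K_round
  obtain ⟨c9, h9⟩ := K_unpair
  obtain ⟨c10, h10⟩ := K_nat (β := Unit)
  obtain ⟨c11, h11⟩ := K_map (β := Unit)
    (fun z : (((ℕ × ℕ) ⊕ ℕ) × (ℕ × ℕ)) × List Bool => (z.1.1, z.1.2, z.2))
    ((Primrec.fst.comp Primrec.fst).pair ((Primrec.snd.comp Primrec.fst).pair Primrec.snd))
  set B := c1 + c2 + c3 + c4 + c5 + c6 + c7 + c8 + c9 + c10 + c11 + 10 with hB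
  obtain ⟨n₀, hn₀⟩ := log_small (10 * B + 10)
  refine ⟨10 * B + 10, n₀, fun n hn => ?_⟩
  obtain ⟨hl1, hl2⟩ := hn₀ n hn
  set l := Nat.log 2 n with hl
  have hnl : n ≤ 2 ^ (l + 1) := (Nat.lt_pow_succ_log_self (by norm_num) n).le
  have hBl : 10 * B + 10 * l ≤ (10 * B + 10) * l := by nlinarith
  have hBn : 10 * B + 10 * l ≤ n := by nlinarith
  obtain ⟨P, hP, hP1, hP2, hPK⟩ := h1 n (l + 1) hnl
  have : Fact P.Prime := ⟨hP⟩
  let _ : Encodable (ZMod P) := zmodEnc P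
  have henc : ∀ a : ZMod P, encode a = a.val := fun _ => rfl
  let L : List (ZMod P × ZMod P × ZMod P × ZMod P) :=
    (table P).map fun t => (t.1, t.2.1, t.2.2.1, t.2.2.2)
  have hL : ∀ t, t ∈ L ↔ ∃ a b, t = (a, b, a + b, a * b) := by
    intro t
    simp only [L, table, List.mem_map, List.mem_flatMap, List.mem_range]
    constructor
    · rintro ⟨_, ⟨a, -, b, -, rfl⟩, rfl⟩
      exact ⟨a, b, by simp⟩
    · rintro ⟨a, b, rfl⟩
      exact ⟨_, ⟨a.val, a.val_lt, b.val, b.val_lt, rfl⟩, by simp⟩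
  have hLT : L.map encT = table P := by
    simp only [L, List.map_map]
    conv_rhs => rw [← List.map_id (table P)]
    apply List.map_congr_left
    intro t ht
    simp only [table, List.mem_map, List.mem_flatMap, List.mem_range] at ht
    obtain ⟨a, ha, b, hb, rfl⟩ := ht
    simp only [Function.comp, encT, henc, ZMod.val_natCast, Nat.mod_mod, id,
      Nat.mod_eq_of_lt ha, Nat.mod_eq_of_lt hb]
  have hcard : Fintype.card (ZMod P) = P := ZMod.card P
  let fl : ZMod P × ZMod P × ZMod P → ((ℕ × ℕ) ⊕ ℕ) × (ℕ × ℕ) := fun x =>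
    (encL (Sum.inl (x.1, x.2.1)), encP (x.2.2, x.1 * x.2.2 + x.2.1))
  have hfl : Function.Injective fl := by
    rintro ⟨k, c, a⟩ ⟨k', c', a'⟩ h
    obtain ⟨i1, i2⟩ := Prod.mk.inj h
    obtain ⟨rfl, rfl⟩ := Prod.mk.inj (Sum.inl.inj (encL_injective i1))
    obtain ⟨rfl, -⟩ := Prod.mk.inj (encP_injective i2)
    rfl
  have hcube : 2 ^ (3 * n) ≤ (Finset.univ.image fl).card := by
    rw [Finset.card_image_of_injective _ hfl, Finset.card_univ, Fintype.card_prod,
      Fintype.card_prod, hcard]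
    calc 2 ^ (3 * n) = 2 ^ n * (2 ^ n * 2 ^ n) := by ring
      _ ≤ _ := by gcongr
  obtain ⟨_, he', hKe'⟩ := exists_K_ge _ _ hcube
  obtain ⟨⟨k', b', a'⟩, -, rfl⟩ := Finset.mem_image.1 he'
  set N := encode (fl (k', b', a')) * (8 * n) with hN
  have hpairs : 2 ^ (3 * n + N) ≤ (((Finset.univ.image fl) ×ˢ
      (Finset.univ.image (List.ofFn : (Fin N → Bool) → List Bool))).image
      fun z => (z.1.1, z.1.2, z.2)).card := by
    rw [Finset.card_image_of_injective _ (by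
        rintro ⟨⟨x, y⟩, q⟩ ⟨⟨x', y'⟩, q'⟩ h
        simp only [Prod.mk.injEq] at h ⊢
        tauto), Finset.card_product,
      Finset.card_image_of_injective _ List.ofFn_injective, pow_add]
    simpa using hcube
  obtain ⟨_, hτ, hKτ⟩ := exists_K_ge _ _ hpairs
  obtain ⟨⟨_, _⟩, hτ', rfl⟩ := Finset.mem_image.1 hτ
  obtain ⟨i1, i2⟩ := Finset.mem_product.1 hτ'
  obtain ⟨⟨k, b, a⟩, -, rfl⟩ := Finset.mem_image.1 i1
  obtain ⟨v, -, rfl⟩ := Finset.mem_image.1 i2
  set q := List.ofFn v with hq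
  have hqN : q.length = N := List.length_ofFn
  set e := fl (k, b, a) with he
  set e' := fl (k', b', a') with he'def
  have hCK : ∀ (ℓ : (ZMod P × ZMod P) ⊕ ZMod P) (p : ZMod P × ZMod P),
      K (encL ℓ, encP p) () ≤ C D (ℓ, p) + c2 := by
    intro ℓ p
    have := (h2 (encode (ℓ, p))).1
    rw [C_encode] at this
    rw [← K_encode_left (encL ℓ, encP p), encode_prod_val, encode_encL, encode_encP]
    exact this
  have u1 : K e () ≤ (3 * n + 4) + 2 * K (flagList (table P)) () + c4 := by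
    refine h4 _ e ((Finset.univ.filter fun e : ((ZMod P × ZMod P) ⊕ ZMod P) × (ZMod P × ZMod P) =>
      Incident e.1 e.2).image fun ab => (encL ab.1, encP ab.2)) _ ?_ ?_ ?_
    · rw [← hLT, mem_flagList hL]
      exact ⟨(Sum.inl (k, b), (a, k * a + b)), rfl, rfl⟩
    · intro z hz
      rw [← hLT, mem_flagList hL] at hz
      obtain ⟨ab, j1, rfl⟩ := hz
      exact Finset.mem_image.2 ⟨ab, by simpa using j1, rfl⟩
    · refine Finset.card_image_le.trans (card_flags.trans ?_)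
      rw [hcard]
      calc 2 * P ^ 3 ≤ 2 * (2 ^ (n + 1)) ^ 3 := by gcongr
        _ = 2 ^ (3 * n + 4) := by ring
  have u2 := h3 (table P) ()
  have u3 : K e () ≤ 2 ^ (l + 3) := by
    have : 2 ^ (l + 3) = 4 * 2 ^ (l + 1) := by ring
    omega
  have u4 := h5 e q (l + 3) u3
  have u5 := h6 q e
  have u6 := h7 q
  have u7 : K (e.1, e.2, q) () ≤ K (e, q) () + c11 := h11 (e, q) ()
  refine ⟨ZMod P, inferInstance, inferInstance, inferInstance, L, hL, ?_, by omega, by omega,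
    Sum.inl (k, b), Sum.inl (k', b'), (a, k * a + b), (a', k' * a' + b'), rfl, rfl, ?_, ?_,
    q, fun q' => ?_⟩
  · have := (h2 (encode L)).2
    rw [C_encode, ← encode_map_encT, K_encode_left, hLT] at this
    omega
  · have : K e () ≤ _ := hCK (Sum.inl (k, b)) (a, k * a + b)
    simp only at hKτ
    omega
  · have : K e' () ≤ _ := hCK (Sum.inl (k', b')) (a', k' * a' + b')
    omega
  · by_contra hcon
    push Not at hcon
    have g2 := hcon 2
    have g6 := hcon 6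
    rw [profile_eq, profile_eq, abs_lt] at g2 g6
    obtain ⟨m1, m2⟩ := h2 (pr 2 (e.1, e.2, q))
    obtain ⟨m3, m4⟩ := h2 (pr 2 (e'.1, e'.2, q'))
    obtain ⟨m5, m6⟩ := h2 (pr 6 (e.1, e.2, q))
    obtain ⟨m7, m8⟩ := h2 (pr 6 (e'.1, e'.2, q'))
    rw [K_pr6] at m5 m6 m7 m8
    have p2 : ∀ (x : (ℕ × ℕ) ⊕ ℕ) (y : ℕ × ℕ) (q : List Bool), K (pr 2 (x, y, q)) () = K q () := by
      intro x y q
      simp only [pr, Matrix.cons_val, K_encode_left]
    rw [p2] at m1 m2 m3 m4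
    change -(n : ℤ) < C D (pr 2 (e.1, e.2, q)) - C D (pr 2 (e'.1, e'.2, q')) ∧
      (C D (pr 2 (e.1, e.2, q)) : ℤ) - C D (pr 2 (e'.1, e'.2, q')) < n at g2
    change -(n : ℤ) < C D (pr 6 (e.1, e.2, q)) - C D (pr 6 (e'.1, e'.2, q')) ∧
      (C D (pr 6 (e.1, e.2, q)) : ℤ) - C D (pr 6 (e'.1, e'.2, q')) < n at g6
    simp only at hKτ
    have r1 : (K q' () + 4 * n) / (8 * n) = encode e' := by
      apply Nat.div_eq_of_lt_le
      · omega
      · rw [add_mul, one_mul]; omega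
    have r2 := h8 q' n
    rw [r1] at r2
    have r3 := h9 e'.1 e'.2 q'
    have r4 := h10 n (l + 1) () hnl
    simp only [Prod.mk.eta] at r3
    omega

/-- Optimal decompressors exist. -/
theorem exists_isOptimal : ∃ D, IsOptimal D := by
  refine ⟨fun p => U p 0, partrec_U.comp Computable.id (Computable.const 0), fun D' hD' => ?_⟩
  obtain ⟨c, hc⟩ := U_optimal (D := fun p _ => D' p) (hD'.comp Computable.fst)
  exact ⟨c, fun p x hx => hc p 0 x hx⟩

end Pool.Agent.P.MP_b3bbc0_lc
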