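import Pool.Agent.P.MP_b3bbc0_lc.Defs
import Pool.Agent.P.MP_b3bbc0_lc.Homog

/-! The affine plane over a finite field is flag-transitive, and its flags are computable from the
tables of the field. -/

namespace Pool.Agent.P.MP_b3bbc0_lc

open Encodable

section Aut

variable {A B : Type} (I : A → B → Prop)

/-- Automorphisms of an incidence relation. -/
def Aut : Subgroup (Equiv.Perm A × Equiv.Perm B) where
  carrier := {σ | ∀ a b, I (σ.1 a) (σ.2 b) ↔ I a b}
  one_mem' := fun _ _ => Iff.rfl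
  mul_mem' := fun {σ ρ} hσ hρ a b => (hσ (ρ.1 a) (ρ.2 b)).trans (hρ a b)
  inv_mem' := fun {σ} hσ a b => by
    have := hσ (σ.1⁻¹ a) (σ.2⁻¹ b)
    simpa using this.symm

instance autActLeft : MulAction (Aut I) A :=
  MulAction.compHom A ((MonoidHom.fst _ _).comp (Aut I).subtype)

instance autActRight : MulAction (Aut I) B :=
  MulAction.compHom B ((MonoidHom.snd _ _).comp (Aut I).subtype)

lemma aut_smul (g : Aut I) (e : A × B) : g • e = (g.1.1 e.1, g.1.2 e.2) := rfl

end Aut

section Field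

variable {F : Type} [Field F]

/-- Translation by `(u, v)`. -/
def trans (u v : F) : Aut (Incident (F := F)) :=
  ⟨(⟨Sum.map (fun x => (x.1, x.2 + v - x.1 * u)) (· + u),
      Sum.map (fun x => (x.1, x.2 - v + x.1 * u)) (· - u),
      by
        rintro (⟨k, c⟩ | c)
        · simp only [Sum.map_inl, Sum.inl.injEq, Prod.mk.injEq, true_and]; ring
        · simp,
      by
        rintro (⟨k, c⟩ | c)
        · simp only [Sum.map_inl, Sum.inl.injEq, Prod.mk.injEq, true_and]; ring
        · simp⟩,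
    ⟨fun p => (p.1 + u, p.2 + v), fun p => (p.1 - u, p.2 - v),
      by rintro ⟨a, b⟩; simp, by rintro ⟨a, b⟩; simp⟩), by
    rintro (⟨k, c⟩ | c) ⟨a, b⟩
    · simp only [Incident, Equiv.coe_fn_mk, Sum.map_inl]
      constructor <;> intro h <;> linear_combination h
    · simp [Incident]⟩

/-- The shear `(a, b) ↦ (a, b + t a)`. -/
def shear (t : F) : Aut (Incident (F := F)) :=
  ⟨(⟨Sum.map (fun x => (x.1 + t, x.2)) id, Sum.map (fun x => (x.1 - t, x.2)) id,
      by rintro (⟨k, c⟩ | c) <;> simp, by rintro (⟨k, c⟩ | c) <;> simp⟩,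
    ⟨fun p => (p.1, p.2 + t * p.1), fun p => (p.1, p.2 - t * p.1),
      by rintro ⟨a, b⟩; simp, by rintro ⟨a, b⟩; simp⟩), by
    rintro (⟨k, c⟩ | c) ⟨a, b⟩
    · simp only [Incident, Equiv.coe_fn_mk, Sum.map_inl]
      constructor <;> intro h <;> linear_combination h
    · simp [Incident]⟩

open Classical in
/-- The action of the swap of coordinates on lines. -/
noncomputable def swapLine : (F × F) ⊕ F → (F × F) ⊕ F
  | Sum.inl (k, c) => if k = 0 then Sum.inr c else Sum.inl (k⁻¹, -(c * k⁻¹))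
  | Sum.inr c => Sum.inl (0, c)

lemma swapLine_invol : Function.Involutive (swapLine (F := F)) := by
  rintro (⟨k, c⟩ | c)
  · by_cases hk : k = 0
    · simp [swapLine, hk]
    · simp [swapLine, hk]
  · simp [swapLine]

/-- The swap of coordinates. -/
noncomputable def swap : Aut (Incident (F := F)) :=
  ⟨(swapLine_invol.toPerm, Equiv.prodComm F F), by
    rintro (⟨k, c⟩ | c) ⟨a, b⟩
    · by_cases hk : k = 0
      · simp [swapLine, hk, Incident]
      · simp only [Function.Involutive.coe_toPerm, swapLine, hk, if_false, Incident,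
          Equiv.prodComm_apply, Prod.swap_prod_mk]
        constructor
        · intro h
          rw [h]; field_simp; ring
        · intro h
          rw [h]; field_simp; ring
    · simp [swapLine, Incident]⟩

lemma exists_to_base (ℓ : (F × F) ⊕ F) (p : F × F) (h : Incident ℓ p) :
    ∃ g : Aut (Incident (F := F)), g • (ℓ, p) = (Sum.inl (0, 0), (0, 0)) := by
  obtain ⟨a, b⟩ := p
  rcases ℓ with ⟨k, c⟩ | c
  · refine ⟨shear (-k) * trans (-a) (-b), ?_⟩
    simp only [Incident] at h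
    rw [mul_smul, aut_smul, aut_smul]
    simp [shear, trans, h]
  · refine ⟨swap * trans (-a) (-b), ?_⟩
    simp only [Incident] at h
    rw [mul_smul, aut_smul, aut_smul]
    simp [swap, trans, h, swapLine]

lemma flag_transitive (e e' : ((F × F) ⊕ F) × (F × F)) (h : Incident e.1 e.2)
    (h' : Incident e'.1 e'.2) : ∃ g : Aut (Incident (F := F)), g • e = e' := by
  obtain ⟨g, hg⟩ := exists_to_base e.1 e.2 h
  obtain ⟨g', hg'⟩ := exists_to_base e'.1 e'.2 h'
  exact ⟨g'⁻¹ * g, by rw [mul_smul, hg, ← hg', inv_smul_smul]⟩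

open Classical in
lemma card_flags [Fintype F] :
    (Finset.univ.filter fun e : ((F × F) ⊕ F) × (F × F) => Incident e.1 e.2).card ≤
      2 * Fintype.card F ^ 3 := by
  let f : (F × F × F) ⊕ (F × F) → ((F × F) ⊕ F) × (F × F) :=
    Sum.elim (fun x => (Sum.inl (x.1, x.2.1), (x.2.2, x.1 * x.2.2 + x.2.1)))
      (fun x => (Sum.inr x.1, (x.1, x.2)))
  have h1 : (Finset.univ.filter fun e : ((F × F) ⊕ F) × (F × F) => Incident e.1 e.2) ⊆
      Finset.univ.image f := by
    rintro ⟨⟨k, c⟩ | c, a, b⟩ h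
    · replace h : b = k * a + c := (Finset.mem_filter.1 h).2
      exact Finset.mem_image.2 ⟨Sum.inl (k, c, a), Finset.mem_univ _, by simp [f, h]⟩
    · replace h : a = c := (Finset.mem_filter.1 h).2
      exact Finset.mem_image.2 ⟨Sum.inr (a, b), Finset.mem_univ _, by simp [f, h]⟩
  refine (Finset.card_le_card h1).trans (Finset.card_image_le.trans ?_)
  have h0 : 0 < Fintype.card F := Fintype.card_pos
  simp only [Finset.card_univ, Fintype.card_sum, Fintype.card_prod]
  nlinarith [Nat.mul_le_mul_left (Fintype.card F * Fintype.card F) h0]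

end Field

/-- The list of encoded flags computed from the encoded table of a field. -/
def flagList (L : List (ℕ × ℕ × ℕ × ℕ)) : List (((ℕ × ℕ) ⊕ ℕ) × (ℕ × ℕ)) :=
  (L.flatMap fun s => L.filterMap fun t =>
    if t.1 = s.2.2.2 then some (Sum.inl (s.1, t.2.1), (s.2.1, t.2.2.1)) else none) ++
  L.map fun s => (Sum.inr s.1, (s.1, s.2.1))

lemma primrec_flagList : Primrec flagList := by
  unfold flagList
  refine Primrec.list_append.comp (Primrec.list_flatMap Primrec.id ?_)
    (Primrec.list_map Primrec.id ?_)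
  · refine Primrec.listFilterMap Primrec.fst ?_
    have s : Primrec fun x : (List (ℕ × ℕ × ℕ × ℕ) × (ℕ × ℕ × ℕ × ℕ)) × (ℕ × ℕ × ℕ × ℕ) =>
      x.1.2 := Primrec.snd.comp Primrec.fst
    refine Primrec.ite (Primrec.eq.comp (Primrec.fst.comp Primrec.snd)
      (Primrec.snd.comp (Primrec.snd.comp (Primrec.snd.comp s)))) ?_ (Primrec.const none)
    exact Primrec.option_some.comp ((Primrec.sumInl.comp ((Primrec.fst.comp s).pair
      (Primrec.fst.comp (Primrec.snd.comp Primrec.snd)))).pair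
      ((Primrec.fst.comp (Primrec.snd.comp s)).pair
        (Primrec.fst.comp (Primrec.snd.comp (Primrec.snd.comp Primrec.snd)))))
  · exact (Primrec.sumInr.comp (Primrec.fst.comp Primrec.snd)).pair
      ((Primrec.fst.comp Primrec.snd).pair (Primrec.fst.comp (Primrec.snd.comp Primrec.snd)))

section Enc

variable {F : Type} [Encodable F]

/-- Encoded line. -/
def encL (ℓ : (F × F) ⊕ F) : (ℕ × ℕ) ⊕ ℕ := Sum.map (Prod.map encode encode) encode ℓ

/-- Encoded point. -/
def encP (p : F × F) : ℕ × ℕ := Prod.map encode encode p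

/-- Encoded row of the table. -/
def encT (t : F × F × F × F) : ℕ × ℕ × ℕ × ℕ :=
  (encode t.1, encode t.2.1, encode t.2.2.1, encode t.2.2.2)

lemma encode_encL (ℓ : (F × F) ⊕ F) : encode (encL ℓ) = encode ℓ := by
  rcases ℓ with ⟨k, c⟩ | c <;> rfl

lemma encode_encP (p : F × F) : encode (encP p) = encode p := rfl

lemma encode_map_encT (L : List (F × F × F × F)) : encode (L.map encT) = encode L := by
  induction L with
  | nil => rfl
  | cons t L ih => rw [List.map_cons, encode_list_cons, encode_list_cons, ih]; rfl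

lemma encL_injective : Function.Injective (encL (F := F)) := fun a b h =>
  encode_injective (by rw [← encode_encL, h, encode_encL])

lemma encP_injective : Function.Injective (encP (F := F)) := fun a b h =>
  encode_injective (by rw [← encode_encP, h, encode_encP])

lemma mem_flagList [Field F] {L : List (F × F × F × F)}
    (hL : ∀ t, t ∈ L ↔ ∃ a b, t = (a, b, a + b, a * b)) (e : ((ℕ × ℕ) ⊕ ℕ) × (ℕ × ℕ)) :
    e ∈ flagList (L.map encT) ↔
      ∃ ab : ((F × F) ⊕ F) × (F × F), Incident ab.1 ab.2 ∧ (encL ab.1, encP ab.2) = e := by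
  simp only [flagList, List.mem_append, List.mem_flatMap, List.mem_filterMap, List.mem_map, hL]
  constructor
  · rintro (⟨_, ⟨_, ⟨k, a, rfl⟩, rfl⟩, _, ⟨_, ⟨m, c, rfl⟩, rfl⟩, h⟩ | ⟨_, ⟨_, ⟨a, b, rfl⟩, rfl⟩, rfl⟩)
    · split_ifs at h with h1
      obtain rfl : m = k * a := encode_injective h1
      exact ⟨(Sum.inl (k, c), (a, k * a + c)), rfl, Option.some.inj h⟩
    · exact ⟨(Sum.inr a, (a, b)), rfl, rfl⟩
  · rintro ⟨⟨⟨k, c⟩ | c, a, b⟩, h, rfl⟩
    · left
      simp only [Incident] at h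
      subst h
      exact ⟨_, ⟨_, ⟨k, a, rfl⟩, rfl⟩, _, ⟨_, ⟨k * a, c, rfl⟩, rfl⟩, if_pos rfl⟩
    · right
      simp only [Incident] at h
      subst h
      exact ⟨_, ⟨_, ⟨a, b, rfl⟩, rfl⟩, rfl⟩

end Enc

lemma C_encode (D : List Bool →. ℕ) {α : Type} [Encodable α] (a : α) :
    C D (encode a) = C D a := rfl

lemma C_close {D : List Bool →. ℕ} (hD : IsOptimal D) :
    ∃ c, ∀ m : ℕ, K m () ≤ C D m + c ∧ C D m ≤ K m () + c := by
  have h0 : Partrec₂ fun (p : List Bool) (_ : Unit) => D p := hD.1.comp Computable.fst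
  obtain ⟨c1, h1⟩ := K_le_of_partrec h0
  have h2 : Partrec fun p : List Bool => Ut ℕ p () :=
    partrec_Ut.comp Computable.id (Computable.const ())
  obtain ⟨c2, h3⟩ := hD.2 _ h2
  refine ⟨c1 + c2, fun m => ?_⟩
  obtain ⟨p, e1, e2⟩ := exists_prog m ()
  obtain ⟨p', e3, e4⟩ := h3 p m e2
  have e5 : C D m ≤ p'.length := Nat.sInf_le ⟨p', rfl, e3⟩
  obtain ⟨p'', e6, e7⟩ := Nat.sInf_mem (s := {n | ∃ p : List Bool, p.length = n ∧ encode m ∈ D p})
    ⟨_, p', rfl, e3⟩
  have e8 := h1 p'' () m e7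
  have e9 : p''.length = C D m := e6
  omega

lemma profile_eq (D : List Bool →. ℕ) {F : Type} [Encodable F] (ℓ : (F × F) ⊕ F) (p : F × F)
    (q : List Bool) (i : Fin 7) : profile D ℓ p q i = C D (pr i (encL ℓ, encP p, q)) := by
  fin_cases i <;>
    simp only [profile, pr, Fin.zero_eta, Fin.mk_one, Fin.reduceFinMk, Matrix.cons_val_zero,
      Matrix.cons_val_one, Matrix.cons_val, encode_prod_val, encode_encL, encode_encP] <;> rfl

theorem main (D : List Bool →. ℕ) (hD : IsOptimal D) :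
    ∃ κ : ℕ, ∀ (n d : ℕ) (F : Type) [Field F] [Fintype F] [Encodable F]
      (L : List (F × F × F × F)), (∀ t, t ∈ L ↔ ∃ a b, t = (a, b, a + b, a * b)) →
      C D L ≤ d → Fintype.card F ≤ 2 ^ (n + d) → n ≤ 2 ^ d →
      ∀ (ℓ ℓ' : (F × F) ⊕ F) (p p' : F × F), Incident ℓ p → Incident ℓ' p' →
        3 * n ≤ C D (ℓ, p) + d → 3 * n ≤ C D (ℓ', p') + d →
        ∀ q : List Bool, C D q ≤ 2 ^ d → ∃ q' : List Bool, ∀ i : Fin 7,
          |(profile D ℓ p q i : ℤ) - profile D ℓ' p' q' i| ≤ κ * (d + 1) := by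
  classical
  obtain ⟨c1, h1⟩ := homogeneous (X := (ℕ × ℕ) ⊕ ℕ) (Y := ℕ × ℕ) (Q := List Bool)
  obtain ⟨c2, h2⟩ := C_close hD
  obtain ⟨c3, h3⟩ := K_map (β := Unit) flagList primrec_flagList
  refine ⟨16000 + 4000 * (c2 + c3 + 4) + c1 + 2 * c2, ?_⟩
  intro n d F _ _ _ L hL hCL hF hn ℓ ℓ' p p' hi hi' hr hr' q hq
  have hK : ∀ (ℓ : (F × F) ⊕ F) (p : F × F), C D (ℓ, p) ≤ K (encL ℓ, encP p) () + c2 := by
    intro ℓ p
    have := (h2 (encode (ℓ, p))).2
    rw [C_encode] at this
    rw [← K_encode_left (encL ℓ, encP p), encode_prod_val, encode_encL, encode_encP]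
    exact this
  have a1 : K (L.map encT) () ≤ C D L + c2 := by
    rw [← K_encode_left, encode_map_encT, ← C_encode]
    exact (h2 _).1
  have a2 := h3 (L.map encT) ()
  have a3 : K q () ≤ C D q + c2 := by
    rw [← K_encode_left, ← C_encode]
    exact (h2 _).1
  have a4 := hK ℓ p
  have a5 := hK ℓ' p'
  have hdd : d < 2 ^ d := Nat.lt_two_pow_self
  have hmono : ∀ j, j ≤ 4 * d + (c2 + c3 + 4) → 2 ^ j ≤ 2 ^ (4 * d + (c2 + c3 + 4)) :=
    fun j hj => Nat.pow_le_pow_right (by norm_num) hj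
  obtain ⟨q', hq'⟩ := h1 _ _ (Aut (Incident (F := F))) encL encP encL_injective encP_injective
    (Finset.univ.filter fun e => Incident e.1 e.2)
    (fun g e he => by
      simp only [Finset.mem_filter, Finset.mem_univ, true_and] at he ⊢
      exact (g.2 e.1 e.2).2 he)
    (fun e he e' he' => flag_transitive e e' (by simpa using he) (by simpa using he'))
    (flagList (L.map encT)) (fun e => by simp [mem_flagList hL])
    (3 * n + 3 * d + 1) (4 * d + (c2 + c3 + 4))
    (card_flags.trans (by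
      calc 2 * Fintype.card F ^ 3 ≤ 2 * (2 ^ (n + d)) ^ 3 := by gcongr
        _ = 2 ^ (3 * n + 3 * d + 1) := by ring))
    (by
      have := hmono (d + 3) (by omega)
      rw [pow_add] at this
      omega)
    (by omega) (encL ℓ, encP p) ((mem_flagList hL _).2 ⟨(ℓ, p), hi, rfl⟩)
    (encL ℓ', encP p') ((mem_flagList hL _).2 ⟨(ℓ', p'), hi', rfl⟩) q (by omega) (by omega)
    ((le_two_pow_add a3 hq).trans (hmono _ (by omega)))
  refine ⟨q', fun i => ?_⟩
  obtain ⟨b1, b2⟩ := hq' i
  obtain ⟨b3, b4⟩ := h2 (pr i (encL ℓ, encP p, q))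
  obtain ⟨b5, b6⟩ := h2 (pr i (encL ℓ', encP p', q'))
  rw [profile_eq, profile_eq, abs_le]
  simp only at b1 b2
  have b7 : 16000 * d + (4000 * (c2 + c3 + 4) + c1 + 2 * c2) ≤
      (16000 + 4000 * (c2 + c3 + 4) + c1 + 2 * c2) * (d + 1) := by nlinarith
  have b8 : ((16000 + 4000 * (c2 + c3 + 4) + c1 + 2 * c2 : ℕ) : ℤ) * ((d : ℤ) + 1) =
    (((16000 + 4000 * (c2 + c3 + 4) + c1 + 2 * c2) * (d + 1) : ℕ) : ℤ) := by push_cast; ring
  rw [b8]
  generalize (16000 + 4000 * (c2 + c3 + 4) + c1 + 2 * c2) * (d + 1) = M at b7 ⊢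
  constructor <;> omega

end Pool.Agent.P.MP_b3bbc0_lc
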