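import Pool.Agent.P.MP_b3bbc0_lc.Comb

/-! The profile of a random member of a simple regular family. -/

namespace Pool.Agent.P.MP_b3bbc0_lc

open Encodable

section General

variable {α β : Type} [Primcodable α] [Primcodable β]

lemma K_img (π : α → β) (hπ : Primrec π) : ∃ c, ∀ (T : List α) (τ : α) (u : ℕ), τ ∈ T →
    Few (fun z => ∃ t ∈ T, π t = z) (2 ^ u) → K (π τ) () ≤ u + 2 * K T () + c := by
  obtain ⟨c1, h1⟩ := K_mem_list (α := β)
  obtain ⟨c2, h2⟩ := K_map (β := Unit) (fun T : List α => T.map π)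
    (Primrec.list_map Primrec.id (hπ.comp Primrec.snd).to₂)
  refine ⟨c1 + 2 * c2, fun T τ u hτ ⟨s, hs1, hs2⟩ => ?_⟩
  have a1 := h1 (T.map π) (π τ) s u (List.mem_map_of_mem hτ)
    (fun b hb => hs2 b (List.mem_map.1 hb)) hs1
  have a2 := h2 T ()
  omega

lemma K_fib (π : α → β) (hπ : Primrec π) : ∃ c, ∀ (T : List α) (τ : α) (f D : ℕ), τ ∈ T →
    Few (fun t => t ∈ T ∧ π t = π τ) (2 ^ f) → K (π τ) () ≤ 2 ^ D →
    K τ () ≤ K (π τ) () + f + 2 * K T () + 2 * D + c := by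
  have S1 : Sig fun x : (List α × β) × α => x.2 ∈ x.1.1 ∧ π x.2 = x.1.2 :=
    Sig.of_primrec ((primrecRel_mem.comp Primrec.snd (Primrec.fst.comp Primrec.fst)).and
      (Primrec.eq.comp (hπ.comp Primrec.snd) (Primrec.snd.comp Primrec.fst)))
  obtain ⟨c1, h1⟩ := S1.K_le_log
  obtain ⟨c2, h2⟩ := K_chain (α := α) (γ := List α) (β := β)
  obtain ⟨c3, h3⟩ := K_cond (α := List α) (fun _ : β => ()) (Primrec.const ())
  obtain ⟨c4, h4⟩ := K_pair_le (α := β) (β := α)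
  obtain ⟨c5, h5⟩ := K_map (β := Unit) (Prod.snd : β × α → α) Primrec.snd
  refine ⟨c1 + c2 + 2 * c3 + c4 + c5, fun T τ f D hτ ⟨s, hs1, hs2⟩ hD => ?_⟩
  have a1 := h1 (T, π τ) τ s f ⟨hτ, rfl⟩ hs2 hs1
  have a2 := h2 τ T (π τ)
  have a3 := h3 T (π τ)
  have a4 := h4 (π τ) τ D hD
  have a5 := h5 (π τ, τ) ()
  simp only at a5
  omega

lemma exists_K_ge' (s : Finset α) (k : ℕ) (hs : 2 ^ k ≤ s.card) : ∃ a ∈ s, k ≤ K a () := by
  by_contra h
  push Not at h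
  obtain ⟨a0, ha0⟩ : s.Nonempty := Finset.card_pos.1 (lt_of_lt_of_le (by positivity) hs)
  have hk : 0 < k := lt_of_le_of_lt (Nat.zero_le _) (h a0 ha0)
  have := card_lt_of_K_le () (k - 1) s (fun a ha => Nat.le_sub_one_of_lt (h a ha))
  rw [Nat.sub_add_cancel hk] at this
  omega

end General

variable {X Y Q : Type} [Primcodable X] [Primcodable Y] [Primcodable Q]

/-- A large list of triples over edges with few values and small fibres of every view. -/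
def RegCert (w : List (X × Y) × (Fin 7 → ℕ) × (Fin 7 → ℕ) × ℕ) (T : List (X × Y × Q)) : Prop :=
  (∀ τ ∈ T, (τ.1, τ.2.1) ∈ w.1) ∧ (T.Nodup ∧ 2 ^ w.2.2.2 ≤ T.length) ∧
    ∀ i ∈ List.finRange 7,
      (∃ l : List ℕ, l.length ≤ 2 ^ w.2.1 i ∧ ∀ τ ∈ T, pr i τ ∈ l) ∧
      ∀ τ ∈ T, ∃ l : List (X × Y × Q), l.length ≤ 2 ^ w.2.2.1 i ∧
        ∀ τ' ∈ T, ¬ pr i τ' = pr i τ ∨ τ' ∈ l

lemma sig_RegCert : Sig fun x : (List (X × Y) × (Fin 7 → ℕ) × (Fin 7 → ℕ) × ℕ) ×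
    List (X × Y × Q) => RegCert x.1 x.2 := by
  let W := List (X × Y) × (Fin 7 → ℕ) × (Fin 7 → ℕ) × ℕ
  let T := X × Y × Q
  have s1 : Sig fun x : W × List T => ∀ τ ∈ x.2, (τ.1, τ.2.1) ∈ x.1.1 :=
    Sig.forall_mem (P := fun y : (W × List T) × T => (y.2.1, y.2.2.1) ∈ y.1.1.1)
      (Sig.of_primrec (primrecRel_mem.comp
        ((Primrec.fst.comp Primrec.snd).pair (Primrec.fst.comp (Primrec.snd.comp Primrec.snd)))
        (Primrec.fst.comp (Primrec.fst.comp Primrec.fst)))) Primrec.snd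
  have s2 : Sig fun x : W × List T => x.2.Nodup ∧ 2 ^ x.1.2.2.2 ≤ x.2.length :=
    Sig.of_primrec ((primrecPred_nodup.comp Primrec.snd).and (Primrec.nat_le.comp
      (primrec_two_pow.comp (Primrec.snd.comp (Primrec.snd.comp (Primrec.snd.comp Primrec.fst))))
      (Primrec.list_length.comp Primrec.snd)))
  have s3 : Sig fun y : ((W × List T) × Fin 7) × List ℕ =>
      y.2.length ≤ 2 ^ y.1.1.1.2.1 y.1.2 :=
    Sig.of_primrec (Primrec.nat_le.comp (Primrec.list_length.comp Primrec.snd)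
      (primrec_two_pow.comp (Primrec.fin_app.comp
        (Primrec.fst.comp (Primrec.snd.comp (Primrec.fst.comp (Primrec.fst.comp Primrec.fst))))
        (Primrec.snd.comp Primrec.fst))))
  have s4 : Sig fun y : ((W × List T) × Fin 7) × List ℕ => ∀ τ ∈ y.1.1.2, pr y.1.2 τ ∈ y.2 :=
    Sig.forall_mem (P := fun z : (((W × List T) × Fin 7) × List ℕ) × T =>
        pr z.1.1.2 z.2 ∈ z.1.2)
      (Sig.of_primrec (primrecRel_mem.comp
        (primrec_pr.comp (Primrec.snd.comp (Primrec.fst.comp Primrec.fst)) Primrec.snd)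
        (Primrec.snd.comp Primrec.fst)))
      (Primrec.snd.comp (Primrec.fst.comp Primrec.fst))
  have s5 : Sig fun y : (((W × List T) × Fin 7) × T) × List T =>
      y.2.length ≤ 2 ^ y.1.1.1.1.2.2.1 y.1.1.2 :=
    Sig.of_primrec (Primrec.nat_le.comp (Primrec.list_length.comp Primrec.snd)
      (primrec_two_pow.comp (Primrec.fin_app.comp
        (Primrec.fst.comp (Primrec.snd.comp (Primrec.snd.comp (Primrec.fst.comp
          (Primrec.fst.comp (Primrec.fst.comp Primrec.fst))))))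
        (Primrec.snd.comp (Primrec.fst.comp Primrec.fst)))))
  have gi : Primrec fun z : ((((W × List T) × Fin 7) × T) × List T) × T => z.1.1.1.2 :=
    Primrec.snd.comp (Primrec.fst.comp (Primrec.fst.comp Primrec.fst))
  have s6 : Sig fun y : (((W × List T) × Fin 7) × T) × List T =>
      ∀ τ' ∈ y.1.1.1.2, ¬ pr y.1.1.2 τ' = pr y.1.1.2 y.1.2 ∨ τ' ∈ y.2 :=
    Sig.forall_mem (P := fun z : ((((W × List T) × Fin 7) × T) × List T) × T =>
        ¬ pr z.1.1.1.2 z.2 = pr z.1.1.1.2 z.1.1.2 ∨ z.2 ∈ z.1.2)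
      (Sig.of_primrec ((Primrec.eq.comp (primrec_pr.comp gi Primrec.snd)
        (primrec_pr.comp gi (Primrec.snd.comp (Primrec.fst.comp Primrec.fst)))).not.or
        (primrecRel_mem.comp Primrec.snd (Primrec.snd.comp Primrec.fst))))
      (Primrec.snd.comp (Primrec.fst.comp (Primrec.fst.comp Primrec.fst)))
  have s7 := (s5.and s6).exists.forall_mem (l := fun y : (W × List T) × Fin 7 => y.1.2)
    (Primrec.snd.comp Primrec.fst)
  have s8 := ((s3.and s4).exists.and s7).forall_mem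
    (l := fun _ : W × List T => List.finRange 7) (Primrec.const _)
  exact s1.and (s2.and s8)

lemma reg_profile : ∃ c, ∀ (E : List (X × Y)) (u f : Fin 7 → ℕ) (k D : ℕ),
    (∀ i, u i ≤ 2 ^ D) → (∀ i, f i ≤ 2 ^ D) → k ≤ 2 ^ D → K E () ≤ D →
    ∀ T : Finset (X × Y × Q), (∀ τ ∈ T, (τ.1, τ.2.1) ∈ E) → 2 ^ k ≤ T.card →
    (∀ i, Few (fun z => ∃ τ ∈ T, pr i τ = z) (2 ^ u i)) →
    (∀ i, ∀ τ ∈ T, Few (fun τ' => τ' ∈ T ∧ pr i τ' = pr i τ) (2 ^ f i)) →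
    ∃ τ : X × Y × Q, (τ.1, τ.2.1) ∈ E ∧ k ≤ K τ () ∧
      ∀ i, K (pr i τ) () ≤ u i + 500 * D + c ∧ k ≤ K (pr i τ) () + f i + 500 * D + c := by
  classical
  let W := List (X × Y) × (Fin 7 → ℕ) × (Fin 7 → ℕ) × ℕ
  obtain ⟨c1, h1⟩ := (sig_RegCert (X := X) (Y := Y) (Q := Q)).exists_K_le
  obtain ⟨c2, h2⟩ := K_chain (α := List (X × Y × Q)) (γ := W) (β := Unit)
  obtain ⟨c3, h3⟩ := K_cond (α := List (X × Y × Q)) (Prod.fst : W × Unit → W) Primrec.fst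
  obtain ⟨c4, h4⟩ := K_fin_fun 7
  obtain ⟨c5, h5⟩ := K_nat (β := Unit)
  obtain ⟨c6, h6⟩ := K_pair (α := ℕ) (γ := Fin 7 → ℕ) (β := Unit)
  obtain ⟨c7, h7⟩ := K_pair (α := (Fin 7 → ℕ) × ℕ) (γ := Fin 7 → ℕ) (β := Unit)
  obtain ⟨c8, h8⟩ := K_pair (α := (Fin 7 → ℕ) × (Fin 7 → ℕ) × ℕ) (γ := List (X × Y)) (β := Unit)
  have hpr : ∀ i : Fin 7, Primrec (pr (X := X) (Y := Y) (Q := Q) i) := fun i =>
    primrec_pr.comp (Primrec.const i) Primrec.id
  choose c9 h9 using fun i : Fin 7 => K_img _ (hpr i)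
  choose c10 h10 using fun i : Fin 7 => K_fib _ (hpr i)
  set B := c1 + c2 + c3 + c4 + c5 + c6 + c7 + c8 + Finset.univ.sup c9 + Finset.univ.sup c10 + 10
    with hB
  refine ⟨1000 * B, fun E u f k D hu hf hk hE T0 t1 t2 t3 t4 => ?_⟩
  obtain ⟨T, ⟨a1, ⟨a2, a3⟩, a4⟩, a5⟩ := h1 (E, u, f, k) ⟨T0.toList,
    fun τ hτ => t1 τ (Finset.mem_toList.1 hτ), ⟨T0.nodup_toList, by simpa using t2⟩,
    fun i _ => ⟨by
      obtain ⟨s, hs1, hs2⟩ := t3 i
      exact ⟨s.toList, by simpa using hs1, fun τ hτ =>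
        Finset.mem_toList.2 (hs2 _ ⟨τ, Finset.mem_toList.1 hτ, rfl⟩)⟩, fun τ hτ => by
      obtain ⟨s, hs1, hs2⟩ := t4 i τ (Finset.mem_toList.1 hτ)
      refine ⟨s.toList, by simpa using hs1, fun τ' hτ' => ?_⟩
      by_cases h : pr i τ' = pr i τ
      · exact Or.inr (Finset.mem_toList.2 (hs2 _ ⟨Finset.mem_toList.1 hτ', h⟩))
      · exact Or.inl h⟩⟩
  obtain ⟨τ, hτ, hK⟩ := exists_K_ge' T.toFinset k
    (by rw [List.toFinset_card_of_nodup a2]; exact a3)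
  rw [List.mem_toFinset] at hτ
  have b1 := h2 T (E, u, f, k) ()
  have b2 := h3 T ((E, u, f, k), ())
  have b3 := h4 u D hu
  have b4 := h4 f D hf
  have b5 := h5 k D () hk
  have b6 := h6 k f ()
  have b7 := h7 (f, k) u ()
  have b8 := h8 (u, f, k) E ()
  simp only at a5 b2
  have hT : K T () ≤ 80 * D + 10 * B := by omega
  refine ⟨τ, a1 τ hτ, hK, fun i => ?_⟩
  obtain ⟨⟨l, l1, l2⟩, l3⟩ := a4 i (List.mem_finRange i)
  obtain ⟨l', l4, l5⟩ := l3 τ hτ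
  have e9 : c9 i ≤ Finset.univ.sup c9 := Finset.le_sup (Finset.mem_univ i)
  have e10 : c10 i ≤ Finset.univ.sup c10 := Finset.le_sup (Finset.mem_univ i)
  have d1 := h9 i T τ (u i) hτ ⟨l.toFinset, (List.toFinset_card_le l).trans l1, by
    rintro _ ⟨t, ht, rfl⟩
    exact List.mem_toFinset.2 (l2 t ht)⟩
  have d2 : K (pr i τ) () ≤ 2 ^ (D + (160 * D + 21 * B + 1)) :=
    le_two_pow_add (y := u i) (by omega) (hu i)
  have d3 := h10 i T τ (f i) _ hτ ⟨l'.toFinset, (List.toFinset_card_le l').trans l4, by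
    rintro t ⟨ht, he⟩
    exact List.mem_toFinset.2 ((l5 t ht).resolve_left (not_not.2 he))⟩ d2
  constructor <;> omega

end Pool.Agent.P.MP_b3bbc0_lc
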