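import Pool.Agent.P.MP_b3bbc0_lc.Kolm

/-! Computably enumerable predicates, the counting principle and the selection principle. -/

namespace Pool.Agent.P.MP_b3bbc0_lc

open Encodable Denumerable Nat.Partrec

variable {α β γ δ : Type} [Primcodable α] [Primcodable β] [Primcodable γ] [Primcodable δ]

/-- `P` is the projection of a primitive recursive predicate. -/
def Sig (P : α → Prop) : Prop :=
  ∃ (τ : Type) (_ : Primcodable τ) (R : α × τ → Prop), PrimrecPred R ∧ ∀ a, P a ↔ ∃ t, R (a, t)

lemma Sig.of_eq {P Q : α → Prop} (h : Sig P) (e : ∀ a, P a ↔ Q a) : Sig Q := by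
  obtain ⟨τ, i, R, hR, h⟩ := h
  exact ⟨τ, i, R, hR, fun a => (e a).symm.trans (h a)⟩

lemma Sig.of_primrec {P : α → Prop} (h : PrimrecPred P) : Sig P :=
  ⟨Unit, inferInstance, fun x => P x.1, h.comp Primrec.fst, fun a => by simp⟩

lemma Sig.comp {P : β → Prop} (h : Sig P) {f : α → β} (hf : Primrec f) :
    Sig fun a => P (f a) := by
  obtain ⟨τ, i, R, hR, h⟩ := h
  exact ⟨τ, i, fun x => R (f x.1, x.2), hR.comp ((hf.comp Primrec.fst).pair Primrec.snd),
    fun a => h (f a)⟩

lemma Sig.and {P Q : α → Prop} (hP : Sig P) (hQ : Sig Q) : Sig fun a => P a ∧ Q a := by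
  obtain ⟨τ, i, R, hR, h⟩ := hP
  obtain ⟨τ', i', R', hR', h'⟩ := hQ
  refine ⟨τ × τ', inferInstance, fun x => R (x.1, x.2.1) ∧ R' (x.1, x.2.2),
    (hR.comp (Primrec.fst.pair (Primrec.fst.comp Primrec.snd))).and
      (hR'.comp (Primrec.fst.pair (Primrec.snd.comp Primrec.snd))), fun a => ?_⟩
  simp [h, h']

lemma Sig.exists {P : α × β → Prop} (hP : Sig P) : Sig fun a => ∃ b, P (a, b) := by
  obtain ⟨τ, i, R, hR, h⟩ := hP
  refine ⟨β × τ, inferInstance, fun x => R ((x.1, x.2.1), x.2.2),
    hR.comp ((Primrec.fst.pair (Primrec.fst.comp Primrec.snd)).pair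
      (Primrec.snd.comp Primrec.snd)), fun a => ?_⟩
  simp [h]

lemma Sig.forall_mem {P : α × β → Prop} (hP : Sig P) {l : α → List β} (hl : Primrec l) :
    Sig fun a => ∀ b ∈ l a, P (a, b) := by
  obtain ⟨τ, i, R, hR, h⟩ := hP
  have h1 : PrimrecRel fun (t : τ) (x : α × β) => R (x, t) :=
    hR.comp (Primrec.snd.pair Primrec.fst)
  have h2 : PrimrecRel fun (b : β) (x : α × List τ) => ∃ t ∈ x.2, R ((x.1, b), t) :=
    h1.exists_mem_list.comp (Primrec.snd.comp Primrec.snd)
      ((Primrec.fst.comp Primrec.snd).pair Primrec.fst)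
  refine ⟨List τ, inferInstance, fun x => ∀ b ∈ l x.1, ∃ t ∈ x.2, R ((x.1, b), t),
    h2.forall_mem_list.comp (hl.comp Primrec.fst) Primrec.id, fun a => ?_⟩
  simp only [h]
  constructor
  · intro H
    choose f hf using H
    exact ⟨(l a).attach.map fun b => f b.1 b.2, fun b hb =>
      ⟨f b hb, List.mem_map.2 ⟨⟨b, hb⟩, List.mem_attach _ _, rfl⟩, hf b hb⟩⟩
  · rintro ⟨ts, H⟩ b hb
    obtain ⟨t, -, ht⟩ := H b hb
    exact ⟨t, ht⟩

lemma Sig.mem_partrec {f : α →. β} (hf : Partrec f) : Sig fun x : α × β => x.2 ∈ f x.1 := by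
  obtain ⟨c, hc⟩ := Code.exists_code.1 hf
  refine ⟨ℕ, inferInstance, fun x => Code.evaln x.2 c (encode x.1.1) = some (encode x.1.2),
    Primrec.eq.comp (Code.primrec_evaln.comp ((Primrec.snd.pair (Primrec.const c)).pair
      (Primrec.encode.comp (Primrec.fst.comp Primrec.fst))))
      (Primrec.option_some.comp (Primrec.encode.comp (Primrec.snd.comp Primrec.fst))),
    fun x => ?_⟩
  have := Code.evaln_complete (c := c) (n := encode x.1) (x := encode x.2)
  simp only [Option.mem_def] at this
  rw [← this, hc]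
  simp

lemma Sig.K_le : Sig fun x : (α × β) × ℕ => K x.1.1 x.1.2 ≤ x.2 := by
  have h1 : Sig fun x : ((α × β) × ℕ) × List Bool => x.2.length ≤ x.1.2 :=
    Sig.of_primrec (Primrec.nat_le.comp (Primrec.list_length.comp Primrec.snd)
      (Primrec.snd.comp Primrec.fst))
  have h2 : Sig fun x : ((α × β) × ℕ) × List Bool => x.1.1.1 ∈ Ut α x.2 x.1.1.2 :=
    (Sig.mem_partrec (partrec_Ut (α := α) (β := β))).comp
      (f := fun x : ((α × β) × ℕ) × List Bool => ((x.2, x.1.1.2), x.1.1.1))
      ((Primrec.snd.pair (Primrec.snd.comp (Primrec.fst.comp Primrec.fst))).pair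
        (Primrec.fst.comp (Primrec.fst.comp Primrec.fst)))
  exact (h1.and h2).exists.of_eq fun x => (K_le_iff (a := x.1.1) (w := x.1.2) (k := x.2)).symm

lemma Sig.K_le' {f : γ → α} {g : γ → β} {k : γ → ℕ} (hf : Primrec f) (hg : Primrec g)
    (hk : Primrec k) : Sig fun x => K (f x) (g x) ≤ k x :=
  Sig.K_le.comp (f := fun x => ((f x, g x), k x)) ((hf.pair hg).pair hk)

lemma primrecRel_mem : PrimrecRel fun (a : α) (l : List α) => a ∈ l :=
  ((Primrec.eq (α := α)).exists_mem_list.comp Primrec.snd Primrec.fst).of_eq (by simp)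

lemma primrecPred_nodup : PrimrecPred fun l : List α => l.Nodup := by
  classical
  have h1 : PrimrecRel fun (a : α) (l : List α) => (l.filter fun b => b = a).length ≤ 1 :=
    Primrec.nat_le.comp (Primrec.list_length.comp
      ((Primrec.eq (α := α)).listFilter.comp Primrec.snd Primrec.fst)) (Primrec.const 1)
  refine (h1.forall_mem_list.comp Primrec.id Primrec.id).of_eq fun l => ?_
  rw [List.nodup_iff_count_le_one]
  have e : ∀ a, (l.filter fun b => b = a).length = l.count a := by
    intro a
    rw [List.count_eq_length_filter]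
    congr 2
  simp only [id, e]
  constructor
  · intro h a
    by_cases ha : a ∈ l
    · exact h a ha
    · rw [List.count_eq_zero_of_not_mem ha]; omega
  · intro h a _; exact h a

lemma Sig.many {P : α × β → Prop} (hP : Sig P) {M : α → ℕ} (hM : Primrec M) :
    Sig fun a => ∃ s : Finset β, M a ≤ s.card ∧ ∀ b ∈ s, P (a, b) := by
  classical
  have h1 : Sig fun x : α × List β => x.2.Nodup :=
    Sig.of_primrec (primrecPred_nodup.comp Primrec.snd)
  have h2 : Sig fun x : α × List β => M x.1 ≤ x.2.length :=
    Sig.of_primrec (Primrec.nat_le.comp (hM.comp Primrec.fst)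
      (Primrec.list_length.comp Primrec.snd))
  have h3 : Sig fun x : α × List β => ∀ b ∈ x.2, P (x.1, b) :=
    Sig.forall_mem (P := fun y : (α × List β) × β => P (y.1.1, y.2))
      (hP.comp ((Primrec.fst.comp Primrec.fst).pair Primrec.snd)) Primrec.snd
  refine (h1.and (h2.and h3)).exists.of_eq fun a => ?_
  constructor
  · rintro ⟨l, a1, a2, a3⟩
    exact ⟨l.toFinset, by rwa [List.toFinset_card_of_nodup a1], fun b hb => a3 b (by simpa using hb)⟩
  · rintro ⟨s, a1, a2⟩
    exact ⟨s.toList, s.nodup_toList, by simpa using a1, fun b hb => a2 b (by simpa using hb)⟩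

/-- The distinct values of `good` found before stage `s`, in the order of discovery. -/
def found [DecidableEq α] (good : ℕ → Option α) (s : ℕ) : List α :=
  Nat.rec [] (fun j l => (good j).casesOn l fun a => if a ∈ l then l else l ++ [a]) s

section found

variable {α : Type} [DecidableEq α] (good : ℕ → Option α)

lemma found_succ (s : ℕ) : found good (s + 1) =
    (good s).casesOn (found good s) fun a =>
      if a ∈ found good s then found good s else found good s ++ [a] := rfl

lemma found_prefix (s : ℕ) : found good s <+: found good (s + 1) := by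
  rw [found_succ]
  cases good s with
  | none => exact List.prefix_rfl
  | some a =>
    dsimp only
    split_ifs
    · exact List.prefix_rfl
    · exact List.prefix_append _ _

lemma found_mono {s t : ℕ} (h : s ≤ t) : found good s <+: found good t := by
  induction h with
  | refl => exact List.prefix_rfl
  | step _ ih => exact ih.trans (found_prefix good _)

lemma found_nodup (s : ℕ) : (found good s).Nodup := by
  induction s with
  | zero => exact List.nodup_nil
  | succ s ih =>
    rw [found_succ]
    cases good s with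
    | none => exact ih
    | some a =>
      dsimp only
      split_ifs with h
      · exact ih
      · exact List.nodup_append.2 ⟨ih, List.nodup_singleton a, by
          intro x hx y hy hxy
          rw [List.mem_singleton] at hy
          exact h (hy ▸ hxy ▸ hx)⟩

lemma found_sound (s : ℕ) : ∀ a ∈ found good s, ∃ j, good j = some a := by
  induction s with
  | zero => intro a ha; exact absurd ha List.not_mem_nil
  | succ s ih =>
    rw [found_succ]
    cases h : good s with
    | none => exact ih
    | some b =>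
      dsimp only
      split_ifs
      · exact ih
      · intro a ha
        rcases List.mem_append.1 ha with ha | ha
        · exact ih a ha
        · rw [List.mem_singleton] at ha
          exact ⟨s, ha ▸ h⟩

lemma found_complete {j : ℕ} {a : α} (h : good j = some a) : a ∈ found good (j + 1) := by
  rw [found_succ, h]
  dsimp only
  split_ifs with h'
  · exact h'
  · simp

end found

lemma primrec_found [DecidableEq α] {good : β → ℕ → Option α} (hg : Primrec₂ good) :
    Primrec₂ fun w s => found (good w) s := by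
  unfold found
  refine Primrec.nat_rec (f := fun _ : β => ([] : List α))
    (g := fun w (x : ℕ × List α) =>
      (good w x.1).casesOn x.2 fun a => if a ∈ x.2 then x.2 else x.2 ++ [a])
    (Primrec.const []) ?_
  refine Primrec.option_casesOn (hg.comp Primrec.fst (Primrec.fst.comp Primrec.snd))
    (Primrec.snd.comp Primrec.snd) ?_
  exact Primrec.ite
    (primrecRel_mem.comp Primrec.snd (Primrec.snd.comp (Primrec.snd.comp Primrec.fst)))
    (Primrec.snd.comp (Primrec.snd.comp Primrec.fst))
    (Primrec.list_concat.comp (Primrec.snd.comp (Primrec.snd.comp Primrec.fst)) Primrec.snd)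

lemma Sig.exists_enum {P : β × α → Prop} (hP : Sig P) :
    ∃ en : β → ℕ →. α, Partrec₂ en ∧ (∀ w i a, a ∈ en w i → P (w, a)) ∧
      (∀ w a, P (w, a) → ∀ s : Finset α, (∀ a', P (w, a') → a' ∈ s) →
        ∃ i < s.card, a ∈ en w i) ∧
      (∀ w, (∃ a, P (w, a)) → ∃ a, a ∈ en w 0) := by
  classical
  obtain ⟨τ, i, R, hR, h⟩ := hP
  let good : β → ℕ → Option α := fun w j =>
    (decode (α := α × τ) j).bind fun x => if R ((w, x.1), x.2) then some x.1 else none
  have hgood : Primrec₂ good :=
    Primrec.option_bind (Primrec.decode.comp Primrec.snd)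
      (Primrec.ite (hR.comp (((Primrec.fst.comp Primrec.fst).pair
        (Primrec.fst.comp Primrec.snd)).pair (Primrec.snd.comp Primrec.snd)))
        (Primrec.option_some.comp (Primrec.fst.comp Primrec.snd)) (Primrec.const none))
  have hsound : ∀ w j a, good w j = some a → P (w, a) := by
    intro w j a ha
    simp only [good, Option.bind_eq_some_iff] at ha
    obtain ⟨x, -, hx⟩ := ha
    split_ifs at hx with hr
    obtain rfl : x.1 = a := by simpa using hx
    exact (h _).2 ⟨_, hr⟩
  have hcomplete : ∀ w a, P (w, a) → ∃ j, good w j = some a := by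
    intro w a ha
    obtain ⟨t, ht⟩ := (h _).1 ha
    exact ⟨encode (a, t), by simp only [good, encodek, Option.bind_some, if_pos ht]⟩
  have hmono : ∀ (w : β) (i : ℕ) {a : α} {m n : ℕ}, m ≤ n → a ∈ (found (good w) m)[i]? → a ∈ (found (good w) n)[i]? := by
    intro w i a m n hmn ha
    obtain ⟨t, ht⟩ := found_mono (good w) hmn
    rw [Option.mem_def] at ha ⊢
    obtain ⟨hi, -⟩ := List.getElem?_eq_some_iff.1 ha
    rw [← ht, List.getElem?_append_left hi, ha]
  refine ⟨fun w i => Nat.rfindOpt fun s => (found (good w) s)[i]?, ?_, ?_, ?_, ?_⟩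
  · exact Partrec.rfindOpt (Primrec.list_getElem?.comp
      ((primrec_found hgood).comp (Primrec.fst.comp Primrec.fst) Primrec.snd)
      (Primrec.snd.comp Primrec.fst)).to₂.to_comp
  · intro w i a ha
    obtain ⟨s, hs⟩ := Nat.rfindOpt_spec ha
    obtain ⟨j, hj⟩ := found_sound (good w) s a (List.mem_of_getElem? hs)
    exact hsound w j a hj
  · intro w a ha s hs
    obtain ⟨j, hj⟩ := hcomplete w a ha
    obtain ⟨i, hi, hia⟩ := List.getElem_of_mem (found_complete (good w) hj)
    refine ⟨i, hi.trans_le ?_, (Nat.rfindOpt_mono (hmono w i)).2 ⟨j + 1, ?_⟩⟩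
    · rw [← List.toFinset_card_of_nodup (found_nodup (good w) (j + 1))]
      apply Finset.card_le_card
      intro b hb
      obtain ⟨j', hj'⟩ := found_sound (good w) _ b (by simpa using hb)
      exact hs b (hsound w j' b hj')
    · rw [Option.mem_def, List.getElem?_eq_getElem hi, hia]
  · rintro w ⟨a, ha⟩
    obtain ⟨j, hj⟩ := hcomplete w a ha
    have hpos : 0 < (found (good w) (j + 1)).length :=
      List.length_pos_of_mem (found_complete (good w) hj)
    exact ⟨_, (Nat.rfindOpt_mono (hmono w 0)).2 ⟨j + 1, List.getElem?_eq_getElem hpos⟩⟩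

/-- Counting principle. -/
lemma Sig.K_le_log {P : β × α → Prop} (hP : Sig P) :
    ∃ c, ∀ w a (s : Finset α) (k : ℕ), P (w, a) → (∀ a', P (w, a') → a' ∈ s) →
      s.card ≤ 2 ^ k → K a w ≤ k + c := by
  obtain ⟨en, h1, -, h3, -⟩ := hP.exists_enum
  have hD : Partrec₂ fun (p : List Bool) (w : β) => en w (val p) :=
    h1.comp Computable.snd (primrec_val.comp Primrec.fst).to_comp
  obtain ⟨c, hc⟩ := K_le_of_partrec hD
  refine ⟨c, fun w a s k ha hs hk => ?_⟩
  obtain ⟨i, hi, hia⟩ := h3 w a ha s hs
  obtain ⟨p, e1, e2⟩ := exists_val k i (hi.trans_le hk)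
  rw [← e1]
  exact hc p w a (by rw [e2]; exact hia)

/-- Selection principle. -/
lemma Sig.exists_K_le {P : β × α → Prop} (hP : Sig P) :
    ∃ c, ∀ w, (∃ a, P (w, a)) → ∃ a, P (w, a) ∧ K a w ≤ c := by
  obtain ⟨en, h1, h2, -, h4⟩ := hP.exists_enum
  have hD : Partrec₂ fun (_ : List Bool) (w : β) => en w 0 :=
    h1.comp Computable.snd (Computable.const 0)
  obtain ⟨c, hc⟩ := K_le_of_partrec hD
  refine ⟨c, fun w hw => ?_⟩
  obtain ⟨a, ha⟩ := h4 w hw
  exact ⟨a, h2 w 0 a ha, by simpa using hc [] w a ha⟩

end Pool.Agent.P.MP_b3bbc0_lc
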