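import Pool.Agent.P.MP_b3bbc0_lc.Plane

open Pool.Agent.P.MP_b3bbc0_lc

/-- All random edges of the line-point incidence graph have the same extended profile, with
precision linear in a bound `d` for the randomness deficiencies, the complexity of the field,
`log n` and `log C(q)`. -/
theorem Pool.Agent.P.MP_b3bbc0_lc.variantSameProfile
    (D : List Bool →. ℕ) (hD : IsOptimal D) :
    ∃ κ : ℕ, ∀ (n d : ℕ) (F : Type) [Field F] [Fintype F] [Encodable F]
      (L : List (F × F × F × F)), (∀ t, t ∈ L ↔ ∃ a b, t = (a, b, a + b, a * b)) →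
      C D L ≤ d → Fintype.card F ≤ 2 ^ (n + d) → n ≤ 2 ^ d →
      ∀ (ℓ ℓ' : (F × F) ⊕ F) (p p' : F × F), Incident ℓ p → Incident ℓ' p' →
        3 * n ≤ C D (ℓ, p) + d → 3 * n ≤ C D (ℓ', p') + d →
        ∀ q : List Bool, C D q ≤ 2 ^ d → ∃ q' : List Bool, ∀ i : Fin 7,
          |(profile D ℓ p q i : ℤ) - profile D ℓ' p' q' i| ≤ κ * (d + 1) :=
  main D hD
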